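import Mathlib
import Pool.Agent.V7H16.PP.Equi

/-! Squarefree numbers in unions of residue classes modulo 15. -/

set_option autoImplicit false

namespace Pool.Agent.V7H16.PP

open Finset Filter
open scoped Topology

open scoped Classical

/-- squarefree numbers with a property -/
noncomputable def NP (P : ℕ → Prop) (X : ℕ) : ℕ := ((Icc 1 X).filter fun n => Squarefree n ∧ P n).card

/-- the reduced residues -/
def RR : Finset ℕ := (range 15).filter fun a => a.Coprime 15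

lemma sqf15 {g : ℕ} (hg : g ∈ Nat.divisors 15) : Squarefree g := by
  have h15 : Squarefree 15 := by
    rw [show 15 = 3 * 5 by norm_num, Nat.squarefree_mul_iff]
    exact ⟨by norm_num, Nat.prime_three.squarefree, Nat.prime_five.squarefree⟩
  exact h15.squarefree_of_dvd (Nat.dvd_of_mem_divisors hg)

lemma piece (P : ℕ → Prop) (X : ℕ) {g : ℕ} (hg : g ∈ Nat.divisors 15) :
    (((Icc 1 X).filter fun n => Squarefree n ∧ P n).filter fun n => Nat.gcd n 15 = g).card =
      ((Icc 1 (X / g)).filter fun m => (Squarefree m ∧ P (g * m)) ∧ m.Coprime 15).card := by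
  have hgd := Nat.dvd_of_mem_divisors hg
  have hg0 : 0 < g := Nat.pos_of_dvd_of_pos hgd (by norm_num)
  refine Finset.card_nbij' (fun n => n / g) (fun m => g * m) ?_ ?_ ?_ ?_
  · intro n hn
    rw [mem_coe, mem_filter, mem_filter, mem_Icc] at hn
    obtain ⟨⟨⟨h1, h2⟩, sf, hP⟩, hgcd⟩ := hn
    obtain ⟨m, rfl⟩ : g ∣ n := by rw [← hgcd]; exact Nat.gcd_dvd_left n 15
    rw [mem_coe, mem_filter, mem_Icc]
    show (1 ≤ g * m / g ∧ g * m / g ≤ X / g) ∧ (Squarefree (g * m / g) ∧ P (g * (g * m / g))) ∧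
      (g * m / g).Coprime 15
    rw [Nat.mul_div_cancel_left m hg0]
    refine ⟨⟨?_, ?_⟩, ⟨sf.of_mul_right, hP⟩, ?_⟩
    · rcases Nat.eq_zero_or_pos m with h | h
      · rw [h] at h1
        omega
      · exact h
    · rw [Nat.le_div_iff_mul_le hg0, mul_comm]
      exact h2
    · apply Nat.coprime_of_dvd
      intro p hp hpm hp15
      have h3 : p ∣ g := by
        rw [← hgcd]
        exact Nat.dvd_gcd (hpm.mul_left g) hp15
      exact hp.prime.not_isUnit (sf p (mul_dvd_mul h3 hpm))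
  · intro m hm
    rw [mem_coe, mem_filter, mem_Icc] at hm
    obtain ⟨⟨h1, h2⟩, ⟨sf, hP⟩, hc⟩ := hm
    rw [mem_coe, mem_filter, mem_filter, mem_Icc]
    show ((1 ≤ g * m ∧ g * m ≤ X) ∧ Squarefree (g * m) ∧ P (g * m)) ∧ Nat.gcd (g * m) 15 = g
    rw [Nat.le_div_iff_mul_le hg0] at h2
    refine ⟨⟨⟨Nat.mul_pos hg0 h1, by rw [mul_comm]; exact h2⟩, ?_, hP⟩, ?_⟩
    · rw [Nat.squarefree_mul_iff]
      exact ⟨(hc.coprime_dvd_right hgd).symm, sqf15 hg, sf⟩
    · obtain ⟨h, hh⟩ := hgd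
      rw [hh, Nat.gcd_mul_left]
      have : Nat.gcd m h = 1 := hc.coprime_dvd_right ⟨g, by rw [hh]; ring⟩
      rw [this, mul_one]
  · intro n hn
    rw [mem_coe, mem_filter, mem_filter, mem_Icc] at hn
    obtain ⟨⟨⟨h1, h2⟩, sf, hP⟩, hgcd⟩ := hn
    have : g ∣ n := by rw [← hgcd]; exact Nat.gcd_dvd_left n 15
    exact Nat.mul_div_cancel' this
  · intro m hm
    exact Nat.mul_div_cancel_left m hg0

lemma piece2 (P : ℕ → Prop) (hP : ∀ n, P (n % 15) ↔ P n) (g Y : ℕ) :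
    ((Icc 1 Y).filter fun m => (Squarefree m ∧ P (g * m)) ∧ m.Coprime 15).card =
      ∑ a ∈ RR, if P (g * a) then EE a Y else 0 := by
  rw [card_eq_sum_card_fiberwise (f := fun m => m % 15) (t := RR) (by
    intro m hm
    rw [mem_coe, mem_filter] at hm
    rw [mem_coe]
    unfold RR
    rw [mem_filter, mem_range]
    refine ⟨Nat.mod_lt _ (by norm_num), ?_⟩
    show Nat.gcd (m % 15) 15 = 1
    rw [← Nat.gcd_rec, Nat.gcd_comm]
    exact hm.2.2)]
  refine sum_congr rfl fun a ha => ?_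
  unfold RR at ha
  rw [mem_filter, mem_range] at ha
  rw [filter_filter]
  have hmod : ∀ m, m % 15 = a → (P (g * m) ↔ P (g * a)) := by
    intro m hm
    rw [← hP (g * m), ← hP (g * a), Nat.mul_mod, hm]
    rw [Nat.mul_mod g a, Nat.mod_eq_of_lt ha.1]
  have hcop : ∀ m, m % 15 = a → m.Coprime 15 := by
    intro m hm
    show Nat.gcd m 15 = 1
    rw [Nat.gcd_comm, Nat.gcd_rec, hm]
    exact ha.2
  split_ifs with h
  · unfold EE
    congr 1
    refine filter_congr fun m _ => ?_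
    constructor
    · rintro ⟨⟨⟨h1, h2⟩, h3⟩, h4⟩
      exact ⟨h1, h4⟩
    · rintro ⟨h1, h4⟩
      exact ⟨⟨⟨h1, (hmod m h4).2 h⟩, hcop m h4⟩, h4⟩
  · rw [card_eq_zero, filter_eq_empty_iff]
    rintro m - ⟨⟨⟨h1, h2⟩, h3⟩, h4⟩
    exact h ((hmod m h4).1 h2)

lemma NP_eq (P : ℕ → Prop) (hP : ∀ n, P (n % 15) ↔ P n) (X : ℕ) :
    NP P X = ∑ g ∈ Nat.divisors 15, ∑ a ∈ RR, if P (g * a) then EE a (X / g) else 0 := by
  unfold NP
  rw [card_eq_sum_card_fiberwise (f := fun n => Nat.gcd n 15) (t := Nat.divisors 15) (by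
    intro n _
    rw [mem_coe, Nat.mem_divisors]
    exact ⟨Nat.gcd_dvd_right n 15, by norm_num⟩)]
  refine sum_congr rfl fun g hg => ?_
  rw [piece P X hg, piece2 P hP]

lemma div_tendsto {g : ℕ} (hg : 0 < g) : Tendsto (fun X : ℕ => X / g) atTop atTop := by
  apply tendsto_atTop_atTop.2
  intro b
  exact ⟨b * g, fun a ha => (Nat.le_div_iff_mul_le hg).2 ha⟩

lemma div_ratio {g : ℕ} (hg : 0 < g) :
    Tendsto (fun X : ℕ => ((X / g : ℕ) : ℝ) / X) atTop (𝓝 (1 / g)) := by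
  rw [tendsto_iff_norm_sub_tendsto_zero]
  have h0 : Tendsto (fun X : ℕ => (1 : ℝ) / X) atTop (𝓝 0) := tendsto_const_div_atTop_nhds_zero_nat 1
  refine squeeze_zero' (Eventually.of_forall fun _ => norm_nonneg _) ?_ h0
  filter_upwards [eventually_gt_atTop 0] with X hX
  have hX0 : (0 : ℝ) < X := by exact_mod_cast hX
  have hg0 : (0 : ℝ) < g := by exact_mod_cast hg
  rw [Real.norm_eq_abs]
  have f1 : ((X / g : ℕ) : ℝ) ≤ X / g := Nat.cast_div_le
  have f2 : (X : ℝ) / g < ((X / g : ℕ) : ℝ) + 1 := by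
    rw [div_lt_iff₀ hg0]
    have := Nat.lt_mul_div_succ X hg
    have h2 : (X : ℝ) < ((g * (X / g + 1) : ℕ) : ℝ) := by exact_mod_cast this
    push_cast at h2
    linarith
  have e : ((X / g : ℕ) : ℝ) / X - 1 / g = (((X / g : ℕ) : ℝ) - X / g) / X := by
    field_simp
  rw [e, abs_div, abs_of_pos hX0]
  gcongr
  rw [abs_le]
  constructor <;> linarith

lemma EE_div {a : ℕ} (ha : a < 15) (hc : a.Coprime 15) {g : ℕ} (hg : 0 < g) :
    Tendsto (fun X : ℕ => (EE a (X / g) : ℝ) / X) atTop (𝓝 (kap * (1 / g))) := by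
  have h1 := ((EE_tendsto ha hc).comp (div_tendsto hg)).mul (div_ratio hg)
  refine h1.congr' ?_
  filter_upwards [eventually_ge_atTop g] with X hX
  have h2 : 0 < X / g := Nat.div_pos hX hg
  have h3 : ((X / g : ℕ) : ℝ) ≠ 0 := by exact_mod_cast h2.ne'
  simp only [Function.comp_apply]
  field_simp

theorem NP_tendsto (P : ℕ → Prop) (hP : ∀ n, P (n % 15) ↔ P n) :
    Tendsto (fun X : ℕ => (NP P X : ℝ) / X) atTop
      (𝓝 (∑ g ∈ Nat.divisors 15, ∑ a ∈ RR, if P (g * a) then kap * (1 / g) else 0)) := by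
  have h : ∀ X : ℕ, (NP P X : ℝ) / X = ∑ g ∈ Nat.divisors 15, ∑ a ∈ RR,
      if P (g * a) then (EE a (X / g) : ℝ) / X else 0 := by
    intro X
    rw [NP_eq P hP, Nat.cast_sum, sum_div]
    refine sum_congr rfl fun g _ => ?_
    rw [Nat.cast_sum, sum_div]
    refine sum_congr rfl fun a _ => ?_
    split_ifs
    · rfl
    · simp
  simp only [h]
  refine tendsto_finset_sum _ fun g hg => tendsto_finset_sum _ fun a ha => ?_
  unfold RR at ha
  rw [mem_filter, mem_range] at ha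
  have hg0 : 0 < g := Nat.pos_of_mem_divisors hg
  split_ifs
  · exact EE_div ha.1 ha.2 hg0
  · exact tendsto_const_nhds

lemma div15 : Nat.divisors 15 = {1, 3, 5, 15} := by decide

lemma RR_eq : RR = {1, 2, 4, 7, 8, 11, 13, 14} := by decide

theorem all_tendsto : Tendsto (fun X : ℕ => (NP (fun _ => True) X : ℝ) / X) atTop
    (𝓝 (kap * (64 / 5))) := by
  have h := NP_tendsto (fun _ => True) (fun _ => Iff.rfl)
  convert h using 2
  rw [div15, RR_eq]
  simp
  ring

/-- the class of `d`: 3 is not inert and 5 is not split in `ℚ(√-d)` -/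
def Fam' (d : ℕ) : Prop := d % 3 ≠ 1 ∧ d % 5 ≠ 1 ∧ d % 5 ≠ 4

theorem fam_tendsto : Tendsto (fun X : ℕ => (NP Fam' X : ℝ) / X) atTop
    (𝓝 (kap * (14 / 3))) := by
  have h := NP_tendsto Fam' (fun n => by unfold Fam'; omega)
  convert h using 2
  rw [div15, RR_eq]
  simp [Fam']
  ring

end Pool.Agent.V7H16.PP
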