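import Mathlib
import Pool.Agent.V7H16.XF.Loc2

/-! Local conditions at all primes dividing `d`. -/

set_option autoImplicit false

namespace Pool.Agent.V7H16.PP

open Pool.Agent.V7H16.XF

/-- conditions at a prime `q` dividing `d`: the differences are squares -/
lemma loc_g {q : ℕ} (hq : q.Prime) {x1 x2 x3 s t1 t2 t3 z d k2 k3 : ℤ}
    (hs : x1 * x2 * x3 = s ^ 2) (s1 : Squarefree x1) (s2 : Squarefree x2) (s3 : Squarefree x3)
    (hd : Squarefree d) (qd : (q : ℤ) ∣ d)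
    (e12 : x1 * t1 ^ 2 + k2 * d * z ^ 2 = x2 * t2 ^ 2)
    (e13 : x1 * t1 ^ 2 + k3 * d * z ^ 2 = x3 * t3 ^ 2)
    (pr : ¬((q : ℤ) ∣ z ∧ (q : ℤ) ∣ t1 ∧ (q : ℤ) ∣ t2 ∧ (q : ℤ) ∣ t3))
    (hk2 : IsSquare (k2 : ZMod q)) (hk3 : IsSquare (k3 : ZMod q))
    (hk20 : ¬(q : ℤ) ∣ k2) (hk30 : ¬(q : ℤ) ∣ k3) :
    (¬(q : ℤ) ∣ x1 → IsSquare (x1 : ZMod q)) ∧
      (∀ y δ : ℤ, x1 = q * y → d = q * δ → IsSquare ((-(y * δ) : ℤ) : ZMod q)) := by
  have : Fact q.Prime := ⟨hq⟩
  have hp : Prime (q : ℤ) := Nat.prime_iff_prime_int.1 hq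
  obtain ⟨δ, rfl⟩ := qd
  have nδ := sqf_div hq hd
  have q0 : (((q : ℤ) : ℤ) : ZMod q) = 0 := by rw [zm]
  have hpar := par s1 s2 s3 hs hq
  obtain ⟨κ2, hκ2⟩ := hk2
  obtain ⟨κ3, hκ3⟩ := hk3
  have κ20 : κ2 ≠ 0 := by
    rintro rfl
    apply hk20
    rw [← zm, hκ2]; ring
  have κ30 : κ3 ≠ 0 := by
    rintro rfl
    apply hk30
    rw [← zm, hκ3]; ring
  have δ0 : (δ : ZMod q) ≠ 0 := by rw [Ne, zm]; exact nδ
  constructor
  · intro n1
    by_cases h2 : (q : ℤ) ∣ x2
    · have h3 : (q : ℤ) ∣ x3 := (hpar.2 n1).1 h2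
      obtain ⟨y2, rfl⟩ := h2
      obtain ⟨y3, rfl⟩ := h3
      have ny2 := sqf_div hq s2
      have ny3 := sqf_div hq s3
      have hsq : (q : ℤ) ∣ s := by
        apply hp.dvd_of_dvd_pow (n := 2)
        rw [← hs]
        exact ⟨x1 * y2 * (q * y3), by ring⟩
      obtain ⟨σ, rfl⟩ := hsq
      have ht1 : (q : ℤ) ∣ t1 := by
        have : (q : ℤ) ∣ x1 * t1 ^ 2 := ⟨y2 * t2 ^ 2 - k2 * δ * z ^ 2, by linear_combination e12⟩
        rcases hp.dvd_or_dvd this with h | h
        · exact absurd h n1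
        · exact hp.dvd_of_dvd_pow h
      obtain ⟨τ, rfl⟩ := ht1
      have g12 : x1 * q * τ ^ 2 + k2 * δ * z ^ 2 = y2 * t2 ^ 2 := by
        apply mul_left_cancel₀ hp.ne_zero
        linear_combination e12
      have g13 : x1 * q * τ ^ 2 + k3 * δ * z ^ 2 = y3 * t3 ^ 2 := by
        apply mul_left_cancel₀ hp.ne_zero
        linear_combination e13
      have gs : x1 * y2 * y3 = σ ^ 2 := by
        apply mul_left_cancel₀ (pow_ne_zero 2 hp.ne_zero)
        linear_combination hs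
      have f12 := congrArg (fun t : ℤ => (t : ZMod q)) g12
      have f13 := congrArg (fun t : ℤ => (t : ZMod q)) g13
      have fs := congrArg (fun t : ℤ => (t : ZMod q)) gs
      simp only [Int.cast_mul, Int.cast_add, Int.cast_pow] at f12 f13 fs
      rw [q0, hκ2] at f12
      rw [q0, hκ3] at f13
      rw [← zm] at ny2 ny3
      have z0 : (z : ZMod q) ≠ 0 := by
        intro h0
        rw [h0] at f12 f13
        have h2 : (t2 : ZMod q) = 0 := by
          have : (y2 : ZMod q) * (t2 : ZMod q) ^ 2 = 0 := by rw [← f12]; ring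
          rcases mul_eq_zero.1 this with h | h
          · exact absurd h ny2
          · exact pow_eq_zero_iff two_ne_zero |>.1 h
        have h3 : (t3 : ZMod q) = 0 := by
          have : (y3 : ZMod q) * (t3 : ZMod q) ^ 2 = 0 := by rw [← f13]; ring
          rcases mul_eq_zero.1 this with h | h
          · exact absurd h ny3
          · exact pow_eq_zero_iff two_ne_zero |>.1 h
        rw [zm] at h0 h2 h3
        exact pr ⟨h0, ⟨τ, rfl⟩, h2, h3⟩
      refine ⟨σ * t2 * t3 / (κ2 * κ3 * δ * z ^ 2), ?_⟩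
      have hne : κ2 * κ3 * (δ : ZMod q) * (z : ZMod q) ^ 2 ≠ 0 :=
        mul_ne_zero (mul_ne_zero (mul_ne_zero κ20 κ30) δ0) (pow_ne_zero 2 z0)
      rw [div_mul_div_comm, eq_div_iff (mul_ne_zero hne hne)]
      have g2 : (y2 : ZMod q) * (t2 : ZMod q) ^ 2 = κ2 ^ 2 * δ * z ^ 2 := by
        linear_combination -f12
      have g3 : (y3 : ZMod q) * (t3 : ZMod q) ^ 2 = κ3 ^ 2 * δ * z ^ 2 := by
        linear_combination -f13
      have : (σ : ZMod q) * t2 * t3 * (σ * t2 * t3) = x1 * ((y2 : ZMod q) * (t2 : ZMod q) ^ 2) *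
          ((y3 : ZMod q) * (t3 : ZMod q) ^ 2) := by
        linear_combination (-(t2 : ZMod q) ^ 2 * (t3 : ZMod q) ^ 2) * fs
      rw [this, g2, g3]
      ring
    · have h3 : ¬(q : ℤ) ∣ x3 := fun h => h2 ((hpar.2 n1).2 h)
      exact loc_unit hq hs hd ⟨δ, rfl⟩ e12 e13 pr hk20 n1 h2 h3
  · intro y1 δ' hy1 hδ'
    obtain rfl : δ' = δ := by
      apply mul_left_cancel₀ hp.ne_zero
      exact hδ'.symm
    subst hy1
    have ny1 := sqf_div hq s1
    -- the common end
    have fin : ∀ {κ : ℤ} {k : ZMod q}, k ≠ 0 → (κ : ZMod q) = k * k →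
        (z : ZMod q) ≠ 0 → (y1 : ZMod q) * (t1 : ZMod q) ^ 2 + κ * δ' * (z : ZMod q) ^ 2 = 0 →
        IsSquare ((-(y1 * δ') : ℤ) : ZMod q) := by
      intro κ k hk hκ z0 e
      rw [hκ] at e
      refine ⟨y1 * t1 / (k * z), ?_⟩
      have hne : k * (z : ZMod q) ≠ 0 := mul_ne_zero hk z0
      rw [div_mul_div_comm, eq_div_iff (mul_ne_zero hne hne)]
      push_cast
      linear_combination (-(y1 : ZMod q)) * e
    rcases hpar.1 ⟨y1, rfl⟩ with ⟨h2, n3⟩ | ⟨n2, h3⟩
    · obtain ⟨y2, rfl⟩ := h2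
      have ny2 := sqf_div hq s2
      have ht3 : (q : ℤ) ∣ t3 := by
        have : (q : ℤ) ∣ x3 * t3 ^ 2 := ⟨y1 * t1 ^ 2 + k3 * δ' * z ^ 2, by linear_combination -e13⟩
        rcases hp.dvd_or_dvd this with h | h
        · exact absurd h n3
        · exact hp.dvd_of_dvd_pow h
      obtain ⟨τ, rfl⟩ := ht3
      have g12 : y1 * t1 ^ 2 + k2 * δ' * z ^ 2 = y2 * t2 ^ 2 := by
        apply mul_left_cancel₀ hp.ne_zero
        linear_combination e12
      have g13 : y1 * t1 ^ 2 + k3 * δ' * z ^ 2 = x3 * q * τ ^ 2 := by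
        apply mul_left_cancel₀ hp.ne_zero
        linear_combination e13
      have f12 := congrArg (fun t : ℤ => (t : ZMod q)) g12
      have f13 := congrArg (fun t : ℤ => (t : ZMod q)) g13
      simp only [Int.cast_mul, Int.cast_add, Int.cast_pow] at f12 f13
      rw [q0] at f13
      have z0 : (z : ZMod q) ≠ 0 := by
        intro h0
        rw [h0] at f12 f13
        have h1 : (t1 : ZMod q) = 0 := by
          have : (y1 : ZMod q) * (t1 : ZMod q) ^ 2 = 0 := by linear_combination f13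
          rcases mul_eq_zero.1 this with h | h
          · exact absurd ((zm _).1 h) ny1
          · exact pow_eq_zero_iff two_ne_zero |>.1 h
        rw [h1] at f12
        have h2 : (t2 : ZMod q) = 0 := by
          have : (y2 : ZMod q) * (t2 : ZMod q) ^ 2 = 0 := by linear_combination -f12
          rcases mul_eq_zero.1 this with h | h
          · exact absurd ((zm _).1 h) ny2
          · exact pow_eq_zero_iff two_ne_zero |>.1 h
        rw [zm] at h0 h1 h2
        exact pr ⟨h0, h1, h2, ⟨τ, rfl⟩⟩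
      exact fin κ30 hκ3 z0 (by linear_combination f13)
    · obtain ⟨y3, rfl⟩ := h3
      have ny3 := sqf_div hq s3
      have ht2 : (q : ℤ) ∣ t2 := by
        have : (q : ℤ) ∣ x2 * t2 ^ 2 := ⟨y1 * t1 ^ 2 + k2 * δ' * z ^ 2, by linear_combination -e12⟩
        rcases hp.dvd_or_dvd this with h | h
        · exact absurd h n2
        · exact hp.dvd_of_dvd_pow h
      obtain ⟨τ, rfl⟩ := ht2
      have g12 : y1 * t1 ^ 2 + k2 * δ' * z ^ 2 = x2 * q * τ ^ 2 := by
        apply mul_left_cancel₀ hp.ne_zero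
        linear_combination e12
      have g13 : y1 * t1 ^ 2 + k3 * δ' * z ^ 2 = y3 * t3 ^ 2 := by
        apply mul_left_cancel₀ hp.ne_zero
        linear_combination e13
      have f12 := congrArg (fun t : ℤ => (t : ZMod q)) g12
      have f13 := congrArg (fun t : ℤ => (t : ZMod q)) g13
      simp only [Int.cast_mul, Int.cast_add, Int.cast_pow] at f12 f13
      rw [q0] at f12
      have z0 : (z : ZMod q) ≠ 0 := by
        intro h0
        rw [h0] at f12 f13
        have h1 : (t1 : ZMod q) = 0 := by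
          have : (y1 : ZMod q) * (t1 : ZMod q) ^ 2 = 0 := by linear_combination f12
          rcases mul_eq_zero.1 this with h | h
          · exact absurd ((zm _).1 h) ny1
          · exact pow_eq_zero_iff two_ne_zero |>.1 h
        rw [h1] at f13
        have h3 : (t3 : ZMod q) = 0 := by
          have : (y3 : ZMod q) * (t3 : ZMod q) ^ 2 = 0 := by linear_combination -f13
          rcases mul_eq_zero.1 this with h | h
          · exact absurd ((zm _).1 h) ny3
          · exact pow_eq_zero_iff two_ne_zero |>.1 h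
        rw [zm] at h0 h1 h3
        exact pr ⟨h0, h1, ⟨τ, rfl⟩, h3⟩
      exact fin κ20 hκ2 z0 (by linear_combination f12)

/-- the first coordinate at a prime `q` dividing it and not the second one -/
lemma loc_a {q : ℕ} (hq : q.Prime) {x1 x2 x3 t1 t2 t3 z d k3 : ℤ}
    (s1 : Squarefree x1) (s3 : Squarefree x3)
    (hd : Squarefree d) (qd : (q : ℤ) ∣ d)
    (e12 : x1 * t1 ^ 2 + -9 * d * z ^ 2 = x2 * t2 ^ 2)
    (e13 : x1 * t1 ^ 2 + k3 * d * z ^ 2 = x3 * t3 ^ 2)
    (pr : ¬((q : ℤ) ∣ z ∧ (q : ℤ) ∣ t1 ∧ (q : ℤ) ∣ t2 ∧ (q : ℤ) ∣ t3))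
    (n2 : ¬(q : ℤ) ∣ x2) (h3 : (q : ℤ) ∣ x3) (hk : ¬(q : ℤ) ∣ 3) :
    ∀ y δ : ℤ, x1 = q * y → d = q * δ → IsSquare ((y * δ : ℤ) : ZMod q) := by
  have : Fact q.Prime := ⟨hq⟩
  have hp : Prime (q : ℤ) := Nat.prime_iff_prime_int.1 hq
  obtain ⟨δ, rfl⟩ := qd
  have nδ := sqf_div hq hd
  have q0 : (((q : ℤ) : ℤ) : ZMod q) = 0 := by rw [zm]
  intro y1 δ' hy1 hδ'
  obtain rfl : δ' = δ := by
    apply mul_left_cancel₀ hp.ne_zero
    exact hδ'.symm
  subst hy1
  have ny1 := sqf_div hq s1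
  obtain ⟨y3, rfl⟩ := h3
  have ny3 := sqf_div hq s3
  have k0 : (3 : ZMod q) ≠ 0 := by
    intro h
    apply hk
    rw [← zm]
    push_cast
    exact h
  have ht2 : (q : ℤ) ∣ t2 := by
    have : (q : ℤ) ∣ x2 * t2 ^ 2 := ⟨y1 * t1 ^ 2 + -9 * δ' * z ^ 2, by linear_combination -e12⟩
    rcases hp.dvd_or_dvd this with h | h
    · exact absurd h n2
    · exact hp.dvd_of_dvd_pow h
  obtain ⟨τ, rfl⟩ := ht2
  have g12 : y1 * t1 ^ 2 + -9 * δ' * z ^ 2 = x2 * q * τ ^ 2 := by
    apply mul_left_cancel₀ hp.ne_zero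
    linear_combination e12
  have g13 : y1 * t1 ^ 2 + k3 * δ' * z ^ 2 = y3 * t3 ^ 2 := by
    apply mul_left_cancel₀ hp.ne_zero
    linear_combination e13
  have f12 := congrArg (fun t : ℤ => (t : ZMod q)) g12
  have f13 := congrArg (fun t : ℤ => (t : ZMod q)) g13
  simp only [Int.cast_mul, Int.cast_add, Int.cast_pow, Int.cast_neg, Int.cast_ofNat] at f12 f13
  rw [q0] at f12
  have z0 : (z : ZMod q) ≠ 0 := by
    intro h0
    rw [h0] at f12 f13
    have h1 : (t1 : ZMod q) = 0 := by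
      have : (y1 : ZMod q) * (t1 : ZMod q) ^ 2 = 0 := by linear_combination f12
      rcases mul_eq_zero.1 this with h | h
      · exact absurd ((zm _).1 h) ny1
      · exact pow_eq_zero_iff two_ne_zero |>.1 h
    rw [h1] at f13
    have h3 : (t3 : ZMod q) = 0 := by
      have : (y3 : ZMod q) * (t3 : ZMod q) ^ 2 = 0 := by linear_combination -f13
      rcases mul_eq_zero.1 this with h | h
      · exact absurd ((zm _).1 h) ny3
      · exact pow_eq_zero_iff two_ne_zero |>.1 h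
    rw [zm] at h0 h1 h3
    exact pr ⟨h0, h1, ⟨τ, rfl⟩, h3⟩
  refine ⟨y1 * t1 / (3 * z), ?_⟩
  have hne : 3 * (z : ZMod q) ≠ 0 := mul_ne_zero k0 z0
  rw [div_mul_div_comm, eq_div_iff (mul_ne_zero hne hne)]
  push_cast
  linear_combination (-(y1 : ZMod q)) * f12

end Pool.Agent.V7H16.PP
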