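import Mathlib
import Pool.Agent.V7H16.PP.Loc

/-! Local conditions at 3 and 5 if they divide `d`. -/

set_option autoImplicit false

namespace Pool.Agent.V7H16.PP

open Pool.Agent.V7H16.XF

section

variable {q : ℕ} {X Y Z s x y w z d m : ℤ}

lemma dvd_of_mul_sq (hq : q.Prime) {A t : ℤ} (hA : ¬(q : ℤ) ∣ A) (h : (q : ℤ) ∣ A * t ^ 2) :
    (q : ℤ) ∣ t := by
  have hp : Prime (q : ℤ) := Nat.prime_iff_prime_int.1 hq
  rcases hp.dvd_or_dvd h with h | h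
  · exact absurd h hA
  · exact hp.dvd_of_dvd_pow h

/-- the case of a first coordinate prime to `q`, the others divisible by `q` -/
lemma loc_s1 (hq : q.Prime) {Y' Z' δ : ℤ} (sY : Squarefree ((q : ℤ) * Y'))
    (sZ : Squarefree ((q : ℤ) * Z')) (hd : Squarefree ((q : ℤ) * δ))
    (e1 : X * x ^ 2 + q ^ 2 * (q * δ) * z ^ 2 = (q * Y') * y ^ 2)
    (e2 : X * x ^ 2 + m ^ 2 * (q * δ) * z ^ 2 = (q * Z') * w ^ 2)
    (pr : ¬((q : ℤ) ∣ z ∧ (q : ℤ) ∣ x ∧ (q : ℤ) ∣ y ∧ (q : ℤ) ∣ w))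
    (hX : ¬(q : ℤ) ∣ X) :
    ∃ η : ℤ, (z : ZMod q) ≠ 0 ∧ (Y' : ZMod q) * (η : ZMod q) ^ 2 = δ * (z : ZMod q) ^ 2 ∧
      (Z' : ZMod q) * (w : ZMod q) ^ 2 = (m : ZMod q) ^ 2 * δ * (z : ZMod q) ^ 2 := by
  have : Fact q.Prime := ⟨hq⟩
  have hp : Prime (q : ℤ) := Nat.prime_iff_prime_int.1 hq
  have nY := sqf_div hq sY
  have nZ := sqf_div hq sZ
  have q0 : (((q : ℤ) : ℤ) : ZMod q) = 0 := by rw [zm]
  obtain ⟨ξ, rfl⟩ : (q : ℤ) ∣ x := dvd_of_mul_sq hq hX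
    ⟨Z' * w ^ 2 - m ^ 2 * δ * z ^ 2, by linear_combination e2⟩
  have f1 : X * q * ξ ^ 2 + q ^ 2 * δ * z ^ 2 = Y' * y ^ 2 := by
    apply mul_left_cancel₀ hp.ne_zero
    linear_combination e1
  have f2 : X * q * ξ ^ 2 + m ^ 2 * δ * z ^ 2 = Z' * w ^ 2 := by
    apply mul_left_cancel₀ hp.ne_zero
    linear_combination e2
  obtain ⟨η, rfl⟩ : (q : ℤ) ∣ y := dvd_of_mul_sq hq nY
    ⟨X * ξ ^ 2 + q * δ * z ^ 2, by linear_combination -f1⟩
  have g1 : X * ξ ^ 2 + q * δ * z ^ 2 = q * (Y' * η ^ 2) := by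
    apply mul_left_cancel₀ hp.ne_zero
    linear_combination f1
  obtain ⟨ξ', rfl⟩ : (q : ℤ) ∣ ξ := dvd_of_mul_sq hq hX
    ⟨Y' * η ^ 2 - δ * z ^ 2, by linear_combination g1⟩
  have k1 : X * q * ξ' ^ 2 + δ * z ^ 2 = Y' * η ^ 2 := by
    apply mul_left_cancel₀ hp.ne_zero
    linear_combination g1
  have c1 := congrArg (fun t : ℤ => (t : ZMod q)) k1
  have c2 := congrArg (fun t : ℤ => (t : ZMod q)) f2
  simp only [Int.cast_mul, Int.cast_add, Int.cast_pow] at c1 c2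
  rw [q0] at c1 c2
  refine ⟨η, ?_, by linear_combination -c1, by linear_combination -c2⟩
  intro z0
  apply pr
  refine ⟨(zm z).1 z0, ⟨_, rfl⟩, ⟨_, rfl⟩, ?_⟩
  rw [z0] at c2
  have : (Z' : ZMod q) * (w : ZMod q) ^ 2 = 0 := by linear_combination -c2
  rcases mul_eq_zero.1 this with h | h
  · exact absurd ((zm _).1 h) nZ
  · exact (zm _).1 (pow_eq_zero_iff two_ne_zero |>.1 h)

/-- conditions at a prime `q` dividing `d`, one difference of valuation three -/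
lemma loc_s (hq : q.Prime) (hs : X * Y * Z = s ^ 2) (s1 : Squarefree X) (s2 : Squarefree Y)
    (s3 : Squarefree Z) (hd : Squarefree d) (qd : (q : ℤ) ∣ d)
    (e1 : X * x ^ 2 + q ^ 2 * d * z ^ 2 = Y * y ^ 2)
    (e2 : X * x ^ 2 + m ^ 2 * d * z ^ 2 = Z * w ^ 2)
    (pr : ¬((q : ℤ) ∣ z ∧ (q : ℤ) ∣ x ∧ (q : ℤ) ∣ y ∧ (q : ℤ) ∣ w))
    (hm : ¬(q : ℤ) ∣ m) :
    (¬(q : ℤ) ∣ X → IsSquare (X : ZMod q)) ∧
      (∀ y δ : ℤ, X = q * y → d = q * δ → IsSquare ((-(y * δ) : ℤ) : ZMod q)) := by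
  have : Fact q.Prime := ⟨hq⟩
  have hp : Prime (q : ℤ) := Nat.prime_iff_prime_int.1 hq
  obtain ⟨δ, rfl⟩ := qd
  have nδ := sqf_div hq hd
  have q0 : (((q : ℤ) : ℤ) : ZMod q) = 0 := by rw [zm]
  have hpar := par s1 s2 s3 hs hq
  have m0 : (m : ZMod q) ≠ 0 := by rw [Ne, zm]; exact hm
  have δ0 : (δ : ZMod q) ≠ 0 := by rw [Ne, zm]; exact nδ
  have hm2 : ¬(q : ℤ) ∣ m ^ 2 := fun h => hm (hp.dvd_of_dvd_pow h)
  constructor
  · intro n1
    by_cases h2 : (q : ℤ) ∣ Y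
    · have h3 : (q : ℤ) ∣ Z := (hpar.2 n1).1 h2
      obtain ⟨Y', rfl⟩ := h2
      obtain ⟨Z', rfl⟩ := h3
      obtain ⟨η, z0, g1, g2⟩ := loc_s1 hq s2 s3 hd e1 e2 pr n1
      have hsq : (q : ℤ) ∣ s := by
        apply hp.dvd_of_dvd_pow (n := 2)
        rw [← hs]
        exact ⟨X * Y' * (q * Z'), by ring⟩
      obtain ⟨σ, rfl⟩ := hsq
      have gs : X * Y' * Z' = σ ^ 2 := by
        apply mul_left_cancel₀ (pow_ne_zero 2 hp.ne_zero)
        linear_combination hs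
      have fs := congrArg (fun t : ℤ => (t : ZMod q)) gs
      simp only [Int.cast_mul, Int.cast_pow] at fs
      refine ⟨σ * η * w / (m * δ * z ^ 2), ?_⟩
      have hne : (m : ZMod q) * δ * (z : ZMod q) ^ 2 ≠ 0 :=
        mul_ne_zero (mul_ne_zero m0 δ0) (pow_ne_zero 2 z0)
      rw [div_mul_div_comm, eq_div_iff (mul_ne_zero hne hne)]
      have e : (σ : ZMod q) * η * w * (σ * η * w) = X * ((Y' : ZMod q) * (η : ZMod q) ^ 2) *
          ((Z' : ZMod q) * (w : ZMod q) ^ 2) := by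
        linear_combination (-(η : ZMod q) ^ 2 * (w : ZMod q) ^ 2) * fs
      rw [e, g1, g2]
      ring
    · have h3 : ¬(q : ℤ) ∣ Z := fun h => h2 ((hpar.2 n1).2 h)
      exact loc_unit hq (x1 := X) (x2 := Z) (x3 := Y) (s := s) (k2 := m ^ 2) (k3 := q ^ 2)
        (by rw [← hs]; ring) hd ⟨δ, rfl⟩ e2 e1 (fun h => pr ⟨h.1, h.2.1, h.2.2.2, h.2.2.1⟩) hm2 n1
        h3 h2
  · intro y1 δ' hy1 hδ'
    obtain rfl : δ' = δ := by
      apply mul_left_cancel₀ hp.ne_zero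
      exact hδ'.symm
    subst hy1
    have ny1 := sqf_div hq s1
    -- the common end
    have fin : ∀ {k t : ZMod q}, k ≠ 0 → (z : ZMod q) ≠ 0 →
        (y1 : ZMod q) * t ^ 2 + k ^ 2 * δ' * (z : ZMod q) ^ 2 = 0 →
        IsSquare ((-(y1 * δ') : ℤ) : ZMod q) := by
      intro k t hk z0 e
      refine ⟨y1 * t / (k * z), ?_⟩
      have hne : k * (z : ZMod q) ≠ 0 := mul_ne_zero hk z0
      rw [div_mul_div_comm, eq_div_iff (mul_ne_zero hne hne)]
      push_cast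
      linear_combination (-(y1 : ZMod q)) * e
    rcases hpar.1 ⟨y1, rfl⟩ with ⟨h2, n3⟩ | ⟨n2, h3⟩
    · obtain ⟨Y', rfl⟩ := h2
      have nY := sqf_div hq s2
      obtain ⟨ω, rfl⟩ : (q : ℤ) ∣ w := dvd_of_mul_sq hq n3
        ⟨y1 * x ^ 2 + m ^ 2 * δ' * z ^ 2, by linear_combination -e2⟩
      have g1 : y1 * x ^ 2 + q ^ 2 * δ' * z ^ 2 = Y' * y ^ 2 := by
        apply mul_left_cancel₀ hp.ne_zero
        linear_combination e1
      have g2 : y1 * x ^ 2 + m ^ 2 * δ' * z ^ 2 = Z * q * ω ^ 2 := by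
        apply mul_left_cancel₀ hp.ne_zero
        linear_combination e2
      have c1 := congrArg (fun t : ℤ => (t : ZMod q)) g1
      have c2 := congrArg (fun t : ℤ => (t : ZMod q)) g2
      simp only [Int.cast_mul, Int.cast_add, Int.cast_pow] at c1 c2
      rw [q0] at c1 c2
      have z0 : (z : ZMod q) ≠ 0 := by
        intro h0
        rw [h0] at c1 c2
        have h1 : (x : ZMod q) = 0 := by
          have : (y1 : ZMod q) * (x : ZMod q) ^ 2 = 0 := by linear_combination c2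
          rcases mul_eq_zero.1 this with h | h
          · exact absurd ((zm _).1 h) ny1
          · exact pow_eq_zero_iff two_ne_zero |>.1 h
        rw [h1] at c1
        have h2 : (y : ZMod q) = 0 := by
          have : (Y' : ZMod q) * (y : ZMod q) ^ 2 = 0 := by linear_combination -c1
          rcases mul_eq_zero.1 this with h | h
          · exact absurd ((zm _).1 h) nY
          · exact pow_eq_zero_iff two_ne_zero |>.1 h
        exact pr ⟨(zm _).1 h0, (zm _).1 h1, (zm _).1 h2, ⟨ω, rfl⟩⟩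
      exact fin (k := (m : ZMod q)) (t := (x : ZMod q)) m0 z0 (by linear_combination c2)
    · obtain ⟨Z', rfl⟩ := h3
      have nZ := sqf_div hq s3
      obtain ⟨η, rfl⟩ : (q : ℤ) ∣ y := dvd_of_mul_sq hq n2
        ⟨y1 * x ^ 2 + q ^ 2 * δ' * z ^ 2, by linear_combination -e1⟩
      have g1 : y1 * x ^ 2 + q ^ 2 * δ' * z ^ 2 = q * (Y * η ^ 2) := by
        apply mul_left_cancel₀ hp.ne_zero
        linear_combination e1
      obtain ⟨ξ, rfl⟩ : (q : ℤ) ∣ x := dvd_of_mul_sq hq ny1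
        ⟨Y * η ^ 2 - q * δ' * z ^ 2, by linear_combination g1⟩
      have g1' : y1 * q * ξ ^ 2 + q * δ' * z ^ 2 = Y * η ^ 2 := by
        apply mul_left_cancel₀ hp.ne_zero
        linear_combination g1
      obtain ⟨η', rfl⟩ : (q : ℤ) ∣ η := dvd_of_mul_sq hq n2
        ⟨y1 * ξ ^ 2 + δ' * z ^ 2, by linear_combination -g1'⟩
      have k1 : y1 * ξ ^ 2 + δ' * z ^ 2 = q * (Y * η' ^ 2) := by
        apply mul_left_cancel₀ hp.ne_zero
        linear_combination g1'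
      have g2 : y1 * (q * ξ) ^ 2 + m ^ 2 * δ' * z ^ 2 = Z' * w ^ 2 := by
        apply mul_left_cancel₀ hp.ne_zero
        linear_combination e2
      have c1 := congrArg (fun t : ℤ => (t : ZMod q)) k1
      have c2 := congrArg (fun t : ℤ => (t : ZMod q)) g2
      simp only [Int.cast_mul, Int.cast_add, Int.cast_pow] at c1 c2
      rw [q0] at c1 c2
      have z0 : (z : ZMod q) ≠ 0 := by
        intro h0
        rw [h0] at c2
        have h2 : (w : ZMod q) = 0 := by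
          have : (Z' : ZMod q) * (w : ZMod q) ^ 2 = 0 := by linear_combination -c2
          rcases mul_eq_zero.1 this with h | h
          · exact absurd ((zm _).1 h) nZ
          · exact pow_eq_zero_iff two_ne_zero |>.1 h
        exact pr ⟨(zm _).1 h0, ⟨ξ, rfl⟩, ⟨_, rfl⟩, (zm _).1 h2⟩
      exact fin (k := 1) (t := (ξ : ZMod q)) one_ne_zero z0 (by linear_combination c1)

/-- the other coordinates -/
lemma loc_s2 (hq : q.Prime) (s2 : Squarefree Y)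
    (s3 : Squarefree Z) (hd : Squarefree d) (qd : (q : ℤ) ∣ d)
    (e1 : X * x ^ 2 + q ^ 2 * d * z ^ 2 = Y * y ^ 2)
    (e2 : X * x ^ 2 + m ^ 2 * d * z ^ 2 = Z * w ^ 2)
    (pr : ¬((q : ℤ) ∣ z ∧ (q : ℤ) ∣ x ∧ (q : ℤ) ∣ y ∧ (q : ℤ) ∣ w))
    (hm : ¬(q : ℤ) ∣ m) (hX : ¬(q : ℤ) ∣ X) (hY : (q : ℤ) ∣ Y) (hZ : (q : ℤ) ∣ Z) :
    (∀ y δ : ℤ, Y = q * y → d = q * δ → IsSquare ((y * δ : ℤ) : ZMod q)) ∧
    (∀ y δ : ℤ, Z = q * y → d = q * δ → IsSquare ((y * δ : ℤ) : ZMod q)) := by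
  have : Fact q.Prime := ⟨hq⟩
  have hp : Prime (q : ℤ) := Nat.prime_iff_prime_int.1 hq
  obtain ⟨δ, rfl⟩ := qd
  obtain ⟨Y', rfl⟩ := hY
  obtain ⟨Z', rfl⟩ := hZ
  have m0 : (m : ZMod q) ≠ 0 := by rw [Ne, zm]; exact hm
  obtain ⟨η, z0, g1, g2⟩ := loc_s1 hq s2 s3 hd e1 e2 pr hX
  constructor
  · intro y1 δ' hy1 hδ'
    obtain rfl : δ' = δ := by
      apply mul_left_cancel₀ hp.ne_zero
      exact hδ'.symm
    obtain rfl : y1 = Y' := by
      apply mul_left_cancel₀ hp.ne_zero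
      exact hy1.symm
    refine ⟨y1 * η / z, ?_⟩
    rw [div_mul_div_comm, eq_div_iff (mul_ne_zero z0 z0)]
    push_cast
    linear_combination (-(y1 : ZMod q)) * g1
  · intro y1 δ' hy1 hδ'
    obtain rfl : δ' = δ := by
      apply mul_left_cancel₀ hp.ne_zero
      exact hδ'.symm
    obtain rfl : y1 = Z' := by
      apply mul_left_cancel₀ hp.ne_zero
      exact hy1.symm
    refine ⟨y1 * w / (m * z), ?_⟩
    have hne : (m : ZMod q) * z ≠ 0 := mul_ne_zero m0 z0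
    rw [div_mul_div_comm, eq_div_iff (mul_ne_zero hne hne)]
    push_cast
    linear_combination (-(y1 : ZMod q)) * g2

end

end Pool.Agent.V7H16.PP
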