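import Mathlib
import Pool.Agent.N916.GB.Tr
import Pool.Agent.V7H16.XF.Loc

/-! Additive symbols of squarefree integers. -/

set_option autoImplicit false

namespace Pool.Agent.V7H16.PP

open Finset
open Pool.Agent.V7H16.XF (sqf_div zm)
open Pool.Agent.Y703.CQ (nr)
open Pool.Agent.N973.ND (uu)
open Pool.Agent.N916.GB (Po z2 z2_add_self)

open scoped Classical

/-- the value of an additive function at a squarefree integer -/
lemma gen_form (f : ℤ → ZMod 2) (P : ℤ → Prop) (hP : ∀ m n, P (m * n) → P m ∧ P n)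
    (hf : ∀ m n, P m → P n → f (m * n) = f m + f n) (h1 : f 1 = 0) (S : Finset ℕ)
    (hS : ∀ p ∈ S, Po p) : ∀ m : ℤ, Squarefree m →
    (∀ l : ℕ, l.Prime → (l : ℤ) ∣ m → l = 2 ∨ l ∈ S) → P m →
    f m = (if m < 0 then f (-1) else 0) + (if (2 : ℤ) ∣ m then f 2 else 0) +
      ∑ p ∈ S, (if (p : ℤ) ∣ m then f p else 0) := by
  induction S using Finset.induction_on with
  | empty =>
    intro m hm hsup hPm
    rw [sum_empty, add_zero]
    have key : ∀ n : ℕ, Squarefree n → (∀ l : ℕ, l.Prime → l ∣ n → l = 2) → n = 1 ∨ n = 2 := by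
      intro n hn hl
      by_cases h0 : n = 1
      · exact Or.inl h0
      · right
        have hp := Nat.minFac_prime h0
        have h2 := hl _ hp (Nat.minFac_dvd n)
        obtain ⟨k, hk⟩ := Nat.minFac_dvd n
        rw [h2] at hk
        by_cases hk1 : k = 1
        · rw [hk, hk1]
        · exfalso
          have hp' := Nat.minFac_prime hk1
          have h3 := hl _ hp' ((Nat.minFac_dvd k).trans ⟨2, by rw [hk]; ring⟩)
          obtain ⟨k', hk'⟩ := Nat.minFac_dvd k
          rw [h3] at hk'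
          have := hn 2 ⟨k', by rw [hk, hk']; ring⟩
          exact Nat.prime_two.prime.not_isUnit this
    have hn := key m.natAbs (Int.squarefree_natAbs.2 hm) (by
      intro l hl hlm
      rcases hsup l hl (Int.natCast_dvd.2 hlm) with h | h
      · exact h
      · exact absurd h (notMem_empty l))
    have hcases : m = 1 ∨ m = -1 ∨ m = 2 ∨ m = -2 := by omega
    rcases hcases with rfl | rfl | rfl | rfl
    · rw [h1]; simp
    · simp
    · simp
    · have h2 : (-2 : ℤ) = (-1) * 2 := by norm_num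
      have h3 : P ((-1) * 2) := by rw [← h2]; exact hPm
      rw [if_pos (by norm_num), if_pos (by norm_num), h2, hf _ _ (hP _ _ h3).1 (hP _ _ h3).2]
  | insert p S hpS ih =>
    intro m hm hsup hPm
    have hp := hS p (mem_insert_self p S)
    have hS' : ∀ q ∈ S, Po q := fun q hq => hS q (mem_insert_of_mem hq)
    rw [sum_insert hpS]
    by_cases hpm : (p : ℤ) ∣ m
    · obtain ⟨m', rfl⟩ := hpm
      have npm' := sqf_div hp.1 hm
      have hm' : Squarefree m' := hm.of_mul_right
      have hPP := hP _ _ hPm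
      have h4 := ih hS' m' hm' (by
        intro l hl hlm
        rcases hsup l hl (hlm.mul_left _) with h | h
        · exact Or.inl h
        · right
          rcases mem_insert.1 h with h | h
          · subst h
            exact absurd hlm npm'
          · exact h) hPP.2
      have e0 : (if (p : ℤ) ∣ (p : ℤ) * m' then f p else 0) = f p := if_pos ⟨m', rfl⟩
      rw [hf _ _ hPP.1 hPP.2, h4, e0]
      have hpos : (0 : ℤ) < p := by exact_mod_cast hp.1.pos
      have e1 : ((p : ℤ) * m' < 0) ↔ m' < 0 := by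
        constructor
        · intro h
          by_contra h2
          push Not at h2
          exact absurd h (not_lt.2 (mul_nonneg hpos.le h2))
        · intro h
          exact mul_neg_of_pos_of_neg hpos h
      have e2 : ((2 : ℤ) ∣ (p : ℤ) * m') ↔ (2 : ℤ) ∣ m' := by
        constructor
        · intro h
          rcases Int.prime_two.dvd_or_dvd h with h | h
          · exfalso
            have h5 : 2 ∣ p := by exact_mod_cast h
            exact hp.2 ((Nat.prime_dvd_prime_iff_eq Nat.prime_two hp.1).1 h5).symm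
          · exact h
        · exact fun h => h.mul_left _
      have e3 : ∀ q ∈ S, (if (q : ℤ) ∣ (p : ℤ) * m' then f q else 0) =
          if (q : ℤ) ∣ m' then f q else 0 := by
        intro q hq
        have hq' := hS' q hq
        have : ((q : ℤ) ∣ (p : ℤ) * m') ↔ (q : ℤ) ∣ m' := by
          constructor
          · intro h
            rcases (Nat.prime_iff_prime_int.1 hq'.1).dvd_or_dvd h with h | h
            · exfalso
              have h5 : q ∣ p := by exact_mod_cast h
              have := (Nat.prime_dvd_prime_iff_eq hq'.1 hp.1).1 h5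
              exact hpS (this ▸ hq)
            · exact h
          · exact fun h => h.mul_left _
        by_cases h : (q : ℤ) ∣ m'
        · rw [if_pos h, if_pos (this.2 h)]
        · rw [if_neg h, if_neg (fun h' => h (this.1 h'))]
      rw [sum_congr rfl e3]
      simp only [e1, e2]
      ring
    · have h4 := ih hS' m hm (by
        intro l hl hlm
        rcases hsup l hl hlm with h | h
        · exact Or.inl h
        · right
          rcases mem_insert.1 h with h | h
          · subst h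
            exact absurd hlm hpm
          · exact h) hPm
      rw [if_neg hpm, h4]
      ring

/-- the additive symbol -/
noncomputable def ns (q : ℕ) (a : ℤ) : ZMod 2 := if IsSquare (a : ZMod q) then 0 else 1

lemma ns_zero {q : ℕ} {a : ℤ} : ns q a = 0 ↔ IsSquare (a : ZMod q) := by
  unfold ns
  split_ifs with h
  · simp [h]
  · simp [h]

lemma ns_nat (q a : ℕ) : ns q (a : ℤ) = nr q a := by
  unfold ns nr
  rw [Int.cast_natCast]

lemma ns_leg {q : ℕ} [Fact q.Prime] {a : ℤ} (ha : ¬ (q : ℤ) ∣ a) :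
    legendreSym q a = if ns q a = 0 then 1 else -1 := by
  have h0 : (a : ZMod q) ≠ 0 := by rwa [Ne, ZMod.intCast_zmod_eq_zero_iff_dvd]
  by_cases h : IsSquare (a : ZMod q)
  · rw [if_pos (ns_zero.2 h)]
    exact (legendreSym.eq_one_iff q h0).2 h
  · rw [if_neg (fun h' => h (ns_zero.1 h'))]
    exact (legendreSym.eq_neg_one_iff q).2 h

lemma ns_mul {q : ℕ} (hq : q.Prime) {a b : ℤ} (ha : ¬ (q : ℤ) ∣ a) (hb : ¬ (q : ℤ) ∣ b) :
    ns q (a * b) = ns q a + ns q b := by
  have : Fact q.Prime := ⟨hq⟩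
  have hqp : Prime (q : ℤ) := Nat.prime_iff_prime_int.1 hq
  have hab : ¬ (q : ℤ) ∣ a * b := fun h => (hqp.dvd_or_dvd h).elim ha hb
  have h1 := legendreSym.mul q a b
  rw [ns_leg ha, ns_leg hb, ns_leg hab] at h1
  rcases z2 (ns q a) with h2 | h2 <;> rcases z2 (ns q b) with h3 | h3 <;>
    rcases z2 (ns q (a * b)) with h4 | h4 <;> rw [h2, h3, h4] at h1 ⊢ <;>
    first | rfl | (exfalso; revert h1; decide)

lemma ns_one (q : ℕ) : ns q 1 = 0 := by
  rw [ns_zero, Int.cast_one]
  exact ⟨1, by ring⟩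

lemma ns_neg_one {q : ℕ} (hq : q.Prime) : ns q (-1) = uu q := by
  have : Fact q.Prime := ⟨hq⟩
  have h := ZMod.exists_sq_eq_neg_one_iff (p := q)
  unfold uu
  by_cases h1 : q % 4 = 3
  · rw [if_pos h1]
    refine (z2 _).resolve_left fun h2 => ?_
    rw [ns_zero] at h2
    push_cast at h2
    exact (h.1 h2) h1
  · rw [if_neg h1, ns_zero]
    push_cast
    exact h.2 h1

lemma ns_form {q : ℕ} (hq : q.Prime) (S : Finset ℕ) (hS : ∀ p ∈ S, Po p) {m : ℤ}
    (hm : Squarefree m) (hsup : ∀ l : ℕ, l.Prime → (l : ℤ) ∣ m → l = 2 ∨ l ∈ S)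
    (hqm : ¬(q : ℤ) ∣ m) :
    ns q m = (if m < 0 then uu q else 0) + (if (2 : ℤ) ∣ m then nr q 2 else 0) +
      ∑ p ∈ S, (if (p : ℤ) ∣ m then nr q p else 0) := by
  have h := gen_form (ns q) (fun m => ¬(q : ℤ) ∣ m) (fun m n h =>
    ⟨fun h1 => h (h1.mul_right _), fun h1 => h (h1.mul_left _)⟩) (fun m n h1 h2 => ns_mul hq h1 h2)
    (ns_one q) S hS m hm hsup hqm
  rw [h, ns_neg_one hq]
  congr 1
  · congr 1
    have := ns_nat q 2
    push_cast at this
    rw [this]
  · refine sum_congr rfl fun p _ => ?_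
    rw [ns_nat]

/-- the class modulo 4 -/
noncomputable def s4 (m : ℤ) : ZMod 2 := if m % 4 = 3 then 1 else 0

/-- the class modulo 8 -/
noncomputable def s8 (m : ℤ) : ZMod 2 := if m % 8 = 3 ∨ m % 8 = 5 then 1 else 0

lemma s4_form (S : Finset ℕ) (hS : ∀ p ∈ S, Po p) {m : ℤ}
    (hm : Squarefree m) (hsup : ∀ l : ℕ, l.Prime → (l : ℤ) ∣ m → l = 2 ∨ l ∈ S)
    (h2m : ¬(2 : ℤ) ∣ m) :
    s4 m = (if m < 0 then 1 else 0) + ∑ p ∈ S, (if (p : ℤ) ∣ m then uu p else 0) := by
  have h := gen_form s4 (fun m => ¬(2 : ℤ) ∣ m) (fun m n h =>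
    ⟨fun h1 => h (h1.mul_right _), fun h1 => h (h1.mul_left _)⟩) (fun m n h1 h2 => by
      have k : (m * n) % 4 = ((m % 4) * (n % 4)) % 4 := Int.mul_emod m n 4
      have hm : m % 4 = 1 ∨ m % 4 = 3 := by omega
      have hn : n % 4 = 1 ∨ n % 4 = 3 := by omega
      unfold s4
      rcases hm with hm | hm <;> rcases hn with hn | hn <;> rw [k, hm, hn] <;> decide)
    (by unfold s4; decide) S hS m hm hsup h2m
  rw [h, if_neg h2m, add_zero]
  congr 1
  refine sum_congr rfl fun p _ => ?_
  congr 1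
  unfold s4 uu
  by_cases h : p % 4 = 3
  · rw [if_pos h, if_pos (by omega)]
  · rw [if_neg h, if_neg (by omega)]

lemma nr_two {p : ℕ} (hp : Po p) : nr p 2 = if p % 8 = 3 ∨ p % 8 = 5 then 1 else 0 := by
  have : Fact p.Prime := ⟨hp.1⟩
  have h1 := ZMod.exists_sq_eq_two_iff (p := p) hp.2
  have hodd : p % 2 = 1 := hp.1.eq_two_or_odd.resolve_left hp.2
  unfold nr
  push_cast
  by_cases h : IsSquare (2 : ZMod p)
  · rw [if_pos h]
    have := h1.1 h
    rw [if_neg (by omega)]
  · rw [if_neg h]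
    have : ¬(p % 8 = 1 ∨ p % 8 = 7) := fun h' => h (h1.2 h')
    rw [if_pos (by omega)]

lemma s8_form (S : Finset ℕ) (hS : ∀ p ∈ S, Po p) {m : ℤ}
    (hm : Squarefree m) (hsup : ∀ l : ℕ, l.Prime → (l : ℤ) ∣ m → l = 2 ∨ l ∈ S)
    (h2m : ¬(2 : ℤ) ∣ m) :
    s8 m = ∑ p ∈ S, (if (p : ℤ) ∣ m then nr p 2 else 0) := by
  have h := gen_form s8 (fun m => ¬(2 : ℤ) ∣ m) (fun m n h =>
    ⟨fun h1 => h (h1.mul_right _), fun h1 => h (h1.mul_left _)⟩) (fun m n h1 h2 => by
      have k : (m * n) % 8 = ((m % 8) * (n % 8)) % 8 := Int.mul_emod m n 8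
      have hm : m % 8 = 1 ∨ m % 8 = 3 ∨ m % 8 = 5 ∨ m % 8 = 7 := by omega
      have hn : n % 8 = 1 ∨ n % 8 = 3 ∨ n % 8 = 5 ∨ n % 8 = 7 := by omega
      unfold s8
      rcases hm with hm | hm | hm | hm <;> rcases hn with hn | hn | hn | hn <;>
        rw [k, hm, hn] <;> decide)
    (by unfold s8; decide) S hS m hm hsup h2m
  rw [h, if_neg h2m, add_zero]
  have e : s8 (-1) = 0 := by unfold s8; decide
  rw [e]
  have e2 : (if m < 0 then (0 : ZMod 2) else 0) = 0 := by split_ifs <;> rfl
  rw [e2, zero_add]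
  refine sum_congr rfl fun p hp => ?_
  congr 1
  rw [nr_two (hS p hp)]
  unfold s8
  by_cases h : p % 8 = 3 ∨ p % 8 = 5
  · rw [if_pos h, if_pos (by omega)]
  · rw [if_neg h, if_neg (by omega)]

end Pool.Agent.V7H16.PP
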