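import Mathlib
import Pool.Agent.N916.GB.Tr

/-! Both kernels of the Rédei matrix. -/

set_option autoImplicit false
set_option linter.unusedSectionVars false

namespace Pool.Agent.V7H16.PP

open Finset
open Pool.Agent.Y703.CQ (nr)
open Pool.Agent.N973.ND (uu)
open Pool.Agent.N916.GB (Po sy Vt Gd Gv Lm Gv_iff_rank z2 z2_add_self z2_sq nr_recip)

open scoped Classical

section la

variable {V : Type} [Fintype V]

/-- the left kernel is a line -/
theorem left_line [Nonempty V] {N : V → V → ZMod 2} (hG : Gv N) {x y : V → ZMod 2}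
    (hx : ∀ p, ∑ q, (if q = p then 0 else x q * N q p + x p * N p q) = 0)
    (hy : ∀ p, ∑ q, (if q = p then 0 else y q * N q p + y p * N p q) = 0) (hy0 : y ≠ 0) :
    x = 0 ∨ x = y := by
  have hk : ∀ x : V → ZMod 2,
      (∀ p, ∑ q, (if q = p then 0 else x q * N q p + x p * N p q) = 0) →
      x ∈ LinearMap.ker (Lm N).transpose.mulVecLin := by
    intro x hx
    rw [LinearMap.mem_ker, Matrix.mulVecLin_apply]
    funext p
    refine Eq.trans ?_ (hx p)
    unfold Matrix.mulVec dotProduct
    have h1 : ∀ q, (Lm N).transpose p q * x q = (if q = p then 0 else x q * N q p) +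
        (if q = p then (∑ p', (if p' = p then 0 else N p p')) * x p else 0) := by
      intro q
      rw [Matrix.transpose_apply]
      unfold Lm
      by_cases h : q = p
      · rw [if_pos h, if_pos h, if_pos h.symm, zero_add, h]
      · rw [if_neg h, if_neg h, if_neg (fun h' => h h'.symm), add_zero, mul_comm]
    rw [sum_congr rfl fun q _ => h1 q, sum_add_distrib, sum_ite_eq' univ p, if_pos (mem_univ _),
      sum_mul, ← sum_add_distrib]
    refine sum_congr rfl fun q _ => ?_
    by_cases h : q = p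
    · rw [if_pos h, if_pos h, if_pos h, zero_mul, zero_add]
    · rw [if_neg h, if_neg h, if_neg h]
      ring
  have h1 := (Gv_iff_rank N).1 hG
  have h2 := LinearMap.finrank_range_add_finrank_ker (Lm N).transpose.mulVecLin
  rw [Module.finrank_fintype_fun_eq_card] at h2
  have h3 : (Lm N).transpose.rank = Module.finrank (ZMod 2)
    (LinearMap.range (Lm N).transpose.mulVecLin) := rfl
  rw [← h3, Matrix.rank_transpose] at h2
  have h4 : Module.finrank (ZMod 2) (LinearMap.ker (Lm N).transpose.mulVecLin) = 1 := by omega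
  have hne : (⟨y, hk y hy⟩ : LinearMap.ker (Lm N).transpose.mulVecLin) ≠ 0 := by
    intro h
    exact hy0 (congrArg Subtype.val h)
  rw [finrank_eq_one_iff_of_nonzero' _ hne] at h4
  obtain ⟨c, hc⟩ := h4 ⟨x, hk x hx⟩
  have h6 : c • y = x := congrArg Subtype.val hc
  rcases z2 c with h | h
  · left
    rw [← h6, h, zero_smul]
  · right
    rw [← h6, h, one_smul]

end la

theorem Gd_iff (t : Bool) (r s : ZMod 2) (S : Finset ℕ) :
    Gd t r s S ↔ Gv (fun q p : Vt t S => sy r s (q : ℕ) (p : ℕ)) := by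
  unfold Gd Gv
  constructor
  · intro h x hx p q
    have h1 := h (fun p => if hp : p ∈ Vt t S then x ⟨p, hp⟩ else 0) (by
      intro q hq
      have h2 := hx ⟨q, hq⟩
      rw [← sum_coe_sort (Vt t S)]
      refine Eq.trans (sum_congr rfl fun p _ => ?_) h2
      rw [dif_pos p.2, dif_pos hq]) p p.2 q q.2
    rw [dif_pos p.2, dif_pos q.2] at h1
    exact h1
  · intro h x hx p hp q hq
    exact h (fun p => x p) (by
      intro q
      have h2 := hx q q.2
      rw [← sum_coe_sort (Vt t S)] at h2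
      exact h2) ⟨p, hp⟩ ⟨q, hq⟩

/-- the column equation -/
noncomputable def Lk (t : Bool) (r s : ZMod 2) (S : Finset ℕ) (x : ℕ → ZMod 2) (p : ℕ) : ZMod 2 :=
  ∑ q ∈ Vt t S, (if q = p then 0 else x q * sy r s q p + x p * sy r s p q)

theorem left_two {t : Bool} {r s : ZMod 2} {S : Finset ℕ} (hG : Gd t r s S) {x y : ℕ → ZMod 2}
    (hx : ∀ p ∈ Vt t S, Lk t r s S x p = 0) (hy : ∀ p ∈ Vt t S, Lk t r s S y p = 0)
    {p₀ : ℕ} (hp₀ : p₀ ∈ Vt t S) (hy0 : y p₀ ≠ 0) :
    (∀ p ∈ Vt t S, x p = 0) ∨ ∀ p ∈ Vt t S, x p = y p := by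
  have : Nonempty (Vt t S) := ⟨⟨p₀, hp₀⟩⟩
  have key : ∀ x : ℕ → ZMod 2, (∀ p ∈ Vt t S, Lk t r s S x p = 0) → ∀ p : Vt t S,
      ∑ q : Vt t S, (if q = p then 0 else x q * sy r s (q : ℕ) (p : ℕ) +
        x p * sy r s (p : ℕ) (q : ℕ)) = 0 := by
    intro x hx p
    have h1 := hx p p.2
    unfold Lk at h1
    rw [← sum_coe_sort (Vt t S)] at h1
    refine Eq.trans (sum_congr rfl fun q _ => ?_) h1
    by_cases h : q = p
    · rw [if_pos h, if_pos (congrArg _ h)]
    · rw [if_neg h, if_neg fun h' => h (Subtype.ext h')]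
  rcases left_line ((Gd_iff t r s S).1 hG) (x := fun p => x p) (y := fun p => y p)
    (fun p => by convert key x hx p) (fun p => by convert key y hy p) (fun h => hy0 (congrFun h ⟨p₀, hp₀⟩)) with h | h
  · left
    intro p hp
    exact congrFun h ⟨p, hp⟩
  · right
    intro p hp
    exact congrFun h ⟨p, hp⟩

lemma sum_Vt {t : Bool} {S : Finset ℕ} (hS : ∀ p ∈ S, Po p) (f : ℕ → ZMod 2) :
    ∑ q ∈ Vt t S, f q = (if t = true then f 2 else 0) + ∑ q ∈ S, f q := by
  unfold Vt
  by_cases h : t = true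
  · rw [if_pos h, if_pos h, sum_insert fun h2 => (hS 2 h2).2 rfl]
  · rw [if_neg h, if_neg h, zero_add]

lemma mem_Vt {t : Bool} {S : Finset ℕ} {p : ℕ} : p ∈ Vt t S ↔ (t = true ∧ p = 2) ∨ p ∈ S := by
  unfold Vt
  by_cases h : t = true
  · rw [if_pos h, mem_insert]
    simp [h]
  · rw [if_neg h]
    simp [h]

variable {t : Bool} {r s : ZMod 2} {S : Finset ℕ}

lemma sy_odd {p q : ℕ} (hp : Po p) : sy r s q p = nr p q := if_neg hp.2

lemma sy_two {q : ℕ} : sy r s q 2 = r * nr q 2 + s * uu q := if_pos rfl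

lemma two0 : (2 : ZMod 2) = 0 := rfl

lemma recip' (hS : ∀ p ∈ S, Po p) {p q : ℕ} (hp : p ∈ S) (hq : q ∈ S) :
    nr p q + nr q p = uu p * uu q + (if p = q then uu q else 0) := by
  by_cases h : p = q
  · subst h
    rw [if_pos rfl, z2_add_self, z2_sq, z2_add_self]
  · rw [if_neg h, add_zero, nr_recip (hS p hp) (hS q hq) h]

/-- the row sum with the reversed symbols -/
lemma row_rev (hS : ∀ p ∈ S, Po p) (x : ℕ → ZMod 2) {q : ℕ} (hq : q ∈ S) :
    ∑ p ∈ S, (x p + x q) * nr q p = ∑ p ∈ S, (x p + x q) * nr p q +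
      uu q * (∑ p ∈ S, x p * uu p + x q * ∑ p ∈ S, uu p) := by
  have h1 : ∀ p ∈ S, (x p + x q) * nr q p = (x p + x q) * nr p q + uu q * (x p * uu p + x q * uu p) +
      (if p = q then (x p + x q) * uu q else 0) := by
    intro p hp
    have h2 := recip' hS hp hq
    by_cases h : p = q
    · subst h
      rw [if_pos rfl, z2_add_self]
      linear_combination -(uu p * (x p * uu p)) * two0
    · rw [if_neg h] at h2 ⊢
      linear_combination (x p + x q) * h2 - ((x p + x q) * nr p q) * two0
  rw [sum_congr rfl h1, sum_add_distrib, sum_add_distrib, sum_ite_eq' S q, if_pos hq, z2_add_self,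
    zero_mul, add_zero, ← mul_sum, sum_add_distrib, mul_sum]

/-- the total sum -/
lemma dbl (hS : ∀ p ∈ S, Po p) (x : ℕ → ZMod 2) :
    ∑ q ∈ S, ∑ p ∈ S, (x p + x q) * nr p q =
      (∑ p ∈ S, x p * uu p) * (∑ p ∈ S, uu p) + ∑ p ∈ S, x p * uu p := by
  have h1 : ∑ q ∈ S, ∑ p ∈ S, (x p + x q) * nr p q =
      ∑ q ∈ S, ∑ p ∈ S, x p * (nr p q + nr q p) := by
    have e1 : ∑ q ∈ S, ∑ p ∈ S, (x p + x q) * nr p q =
        ∑ q ∈ S, ∑ p ∈ S, x p * nr p q + ∑ q ∈ S, ∑ p ∈ S, x q * nr p q := by
      rw [← sum_add_distrib]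
      refine sum_congr rfl fun q _ => ?_
      rw [← sum_add_distrib]
      refine sum_congr rfl fun p _ => ?_
      ring
    rw [e1, sum_comm (f := fun q p => x q * nr p q), ← sum_add_distrib]
    refine sum_congr rfl fun q _ => ?_
    rw [← sum_add_distrib]
    refine sum_congr rfl fun p _ => ?_
    ring
  rw [h1]
  have h2 : ∀ q ∈ S, ∑ p ∈ S, x p * (nr p q + nr q p) =
      (∑ p ∈ S, x p * uu p) * uu q + x q * uu q := by
    intro q hq
    have h3 : ∀ p ∈ S, x p * (nr p q + nr q p) = x p * uu p * uu q +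
        (if p = q then x p * uu q else 0) := by
      intro p hp
      rw [recip' hS hp hq]
      split_ifs
      · ring
      · ring
    rw [sum_congr rfl h3, sum_add_distrib, sum_ite_eq' S q, if_pos hq, sum_mul]
  rw [sum_congr rfl h2, sum_add_distrib, ← mul_sum]

/-- **The right kernel.** -/
theorem ker_b (hS : ∀ p ∈ S, Po p) (hG : Gd t r s S) (hok : t = false → r = 0 ∧ s = 0)
    (hok' : t = true → r = 0 → s = 1)
    (hU : ∑ p ∈ S, uu p = 1 + s) (β : ℕ → ZMod 2) (e : ZMod 2)
    (hE : ∀ q ∈ S, ∑ p ∈ S, (β p + β q) * nr q p + e * uu q + β q * (uu q + r * nr q 2) = 0)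
    (h2 : r = 1 → ∑ p ∈ S, β p * uu p + e = 0 ∧ ∑ p ∈ S, β p * nr p 2 = 0)
    (h2' : t = true → r = 0 → ∑ p ∈ S, β p * nr p 2 +
      (∑ p ∈ S, β p * uu p + e) * ∑ p ∈ S, nr p 2 = 0)
    (hp0 : r = 0 → ∃ p₀ ∈ S, β p₀ = 0) : (∀ p ∈ S, β p = 0) ∧ e = 0 := by
  obtain ⟨c, hc⟩ : ∃ c, c = ∑ p ∈ S, β p * uu p + e := ⟨_, rfl⟩
  rw [← hc] at h2 h2'
  have hE' : ∀ q ∈ S, ∑ p ∈ S, (β p + β q) * nr p q + β q * (r * nr q 2 + s * uu q) +
      uu q * c = 0 := by
    intro q hq
    have h1 := hE q hq
    rw [row_rev hS β hq, hU] at h1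
    rw [hc, ← h1]
    linear_combination (-(β q * uu q)) * two0
  have hlast : (∀ p ∈ S, β p = 0) → c = 0 → e = 0 := by
    intro h1 h3
    rw [hc, sum_eq_zero (fun p hp => by rw [h1 p hp, zero_mul]), zero_add] at h3
    exact h3
  rcases Bool.eq_false_or_eq_true t with ht | ht
  · rcases z2 r with hr | hr
    · have hs := hok' ht hr
      subst ht hr hs
      have h4 := h2' rfl rfl
      have h5 := hG (fun q => if q = 2 then c + e else β q + e) (by
        intro q hq
        rw [sum_Vt hS, if_pos rfl, if_pos rfl]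
        rcases mem_Vt.1 hq with ⟨-, rfl⟩ | hq
        · rw [if_pos rfl, z2_add_self, zero_mul, zero_add]
          refine Eq.trans ?_ h4
          rw [mul_sum, ← sum_add_distrib]
          refine sum_congr rfl fun p hp => ?_
          rw [if_neg (hS p hp).2, sy_odd (hS p hp)]
          linear_combination (e * nr p 2) * two0
        · have hq2 := (hS q hq).2
          rw [if_neg hq2, sy_two]
          have h6 : ∀ p ∈ S, ((if p = 2 then c + e else β p + e) + (β q + e)) * sy 0 1 q p =
              (β p + β q) * nr p q := by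
            intro p hp
            rw [if_neg (hS p hp).2, sy_odd (hS p hp)]
            linear_combination (e * nr p q) * two0
          rw [sum_congr rfl h6]
          refine Eq.trans ?_ (hE' q hq)
          linear_combination (e * uu q) * two0)
      obtain ⟨p₀, hp₀, h6⟩ := hp0 rfl
      have h7 : ∀ p ∈ S, β p = c := by
        intro p hp
        have h8 := h5 p (mem_Vt.2 (Or.inr hp)) 2 (mem_Vt.2 (Or.inl ⟨rfl, rfl⟩))
        simp only [if_neg (hS p hp).2, if_true] at h8
        exact add_right_cancel h8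
      have h8 : c = 0 := by rw [← h7 p₀ hp₀, h6]
      have h9 : ∀ p ∈ S, β p = 0 := fun p hp => by rw [h7 p hp, h8]
      exact ⟨h9, hlast h9 h8⟩
    · subst ht hr
      obtain ⟨h3, h4⟩ := h2 rfl
      have h5 := hG (fun q => if q = 2 then e else β q + e) (by
        intro q hq
        rw [sum_Vt hS, if_pos rfl, if_pos rfl]
        rcases mem_Vt.1 hq with ⟨-, rfl⟩ | hq
        · rw [if_pos rfl, z2_add_self, zero_mul, zero_add]
          refine Eq.trans ?_ h4
          refine sum_congr rfl fun p hp => ?_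
          rw [if_neg (hS p hp).2, sy_odd (hS p hp)]
          linear_combination (e * nr p 2) * two0
        · have hq2 := (hS q hq).2
          rw [if_neg hq2, sy_two]
          have h6 : ∀ p ∈ S, ((if p = 2 then e else β p + e) + (β q + e)) * sy 1 s q p =
              (β p + β q) * nr p q := by
            intro p hp
            rw [if_neg (hS p hp).2, sy_odd (hS p hp)]
            linear_combination (e * nr p q) * two0
          rw [sum_congr rfl h6]
          refine Eq.trans ?_ (hE' q hq)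
          rw [h3]
          linear_combination (e * (1 * nr q 2 + s * uu q)) * two0)
      have h7 : ∀ p ∈ S, β p = 0 := by
        intro p hp
        have h8 := h5 p (mem_Vt.2 (Or.inr hp)) 2 (mem_Vt.2 (Or.inl ⟨rfl, rfl⟩))
        simp only [if_neg (hS p hp).2, if_true] at h8
        simpa using h8
      exact ⟨h7, hlast h7 h3⟩
  · obtain ⟨hr, hs⟩ := hok ht
    subst ht hr hs
    have hc0 : c = 0 := by
      have h3 : ∑ q ∈ S, (∑ p ∈ S, (β p + β q) * nr p q + β q * (0 * nr q 2 + 0 * uu q) +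
        uu q * c) = 0 := sum_eq_zero hE'
      have h4 : ∀ q ∈ S, (∑ p ∈ S, (β p + β q) * nr p q + β q * (0 * nr q 2 + 0 * uu q) +
        uu q * c) = ∑ p ∈ S, (β p + β q) * nr p q + uu q * c := by
        intro q _
        ring
      rw [sum_congr rfl h4, sum_add_distrib, dbl hS, ← sum_mul, hU] at h3
      rw [← h3]
      linear_combination (-(∑ p ∈ S, β p * uu p)) * two0
    have h5 := hG β (by
      intro q hq
      rw [sum_Vt hS, if_neg (by decide), zero_add]
      rcases mem_Vt.1 hq with ⟨h, -⟩ | hq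
      · exact absurd h (by decide)
      · have h6 : ∀ p ∈ S, (β p + β q) * sy 0 0 q p = (β p + β q) * nr p q := by
          intro p hp
          rw [sy_odd (hS p hp)]
        rw [sum_congr rfl h6]
        refine Eq.trans ?_ (hE' q hq)
        rw [hc0]
        ring)
    obtain ⟨p₀, hp₀, h6⟩ := hp0 rfl
    have h9 : ∀ p ∈ S, β p = 0 := fun p hp => by
      rw [h5 p (mem_Vt.2 (Or.inr hp)) p₀ (mem_Vt.2 (Or.inr hp₀)), h6]
    exact ⟨h9, hlast h9 hc0⟩

/-- the column equation of an odd prime -/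
theorem Lk_odd (hS : ∀ p ∈ S, Po p) (y : ℕ → ZMod 2) {p : ℕ} (hp : p ∈ S) :
    Lk t r s S y p = (if t = true then y 2 * nr p 2 + y p * (r * nr p 2 + s * uu p) else 0) +
      ∑ q ∈ S, (y q + y p) * nr p q + y p * uu p * (∑ q ∈ S, uu q + 1) := by
  have hp' := hS p hp
  unfold Lk
  rw [sum_Vt hS]
  have h1 : ∀ q ∈ S, (if q = p then 0 else y q * sy r s q p + y p * sy r s p q) =
      (y q + y p) * nr p q + y p * uu p * uu q + (if q = p then y p * uu p else 0) := by
    intro q hq
    have hq' := hS q hq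
    rw [sy_odd hp', sy_odd hq']
    by_cases h : q = p
    · subst h
      rw [if_pos rfl, if_pos rfl, z2_add_self, zero_mul, zero_add, mul_assoc, z2_sq,
        z2_add_self]
    · rw [if_neg h, if_neg h, add_zero]
      have h2 := nr_recip hp' hq' (Ne.symm h)
      linear_combination y p * h2 - (y p * nr p q) * two0
  have h3 : (2 : ℕ) ≠ p := fun h => hp'.2 h.symm
  rw [sum_congr rfl h1, sum_add_distrib, sum_add_distrib, sum_ite_eq' S p, if_pos hp, ← mul_sum,
    if_neg h3, sy_odd hp', sy_two]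
  ring

/-- the column equation of the prime two -/
theorem Lk_two (hS : ∀ p ∈ S, Po p) (y : ℕ → ZMod 2) :
    Lk t r s S y 2 = ∑ q ∈ S, (y q * (r * nr q 2 + s * uu q) + y 2 * nr q 2) := by
  unfold Lk
  rw [sum_Vt hS, if_pos rfl]
  have e : (if t = true then (0 : ZMod 2) else 0) = 0 := by split_ifs <;> rfl
  rw [e, zero_add]
  refine sum_congr rfl fun q hq => ?_
  have hq' := hS q hq
  rw [if_neg hq'.2, sy_two, sy_odd hq']

/-- **The left kernel.** -/
theorem ker_a (hS : ∀ p ∈ S, Po p) (hG : Gd t r s S) (hok : t = false → r = 0 ∧ s = 0)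
    (hU : ∑ p ∈ S, uu p = 1 + s) (α : ℕ → ZMod 2) (i : ZMod 2)
    (hE : ∀ q ∈ S, ∑ p ∈ S, (α p + α q) * nr q p + (i + r * α q) * nr q 2 = 0)
    (hi : t = false → i = 0)
    (h2 : t = true → ∑ p ∈ S, (α p * (r * nr p 2 + s * uu p) + i * nr p 2) = 0)
    (hp0 : r = 0 → ∃ p₀ ∈ S, α p₀ = 0) (hr : r = 1 → i = 0) :
    (∀ p ∈ S, α p = 0) ∧ i = 0 := by
  have sol : ∀ (y : ℕ → ZMod 2) (j : ZMod 2), y 2 = j → (t = false → j = 0) →
      (∀ q ∈ S, ∑ p ∈ S, (y p + y q) * nr q p + (j + r * y q) * nr q 2 = 0) →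
      (t = true → ∑ p ∈ S, (y p * (r * nr p 2 + s * uu p) + j * nr p 2) = 0) →
      ∀ p ∈ Vt t S, Lk t r s S y p = 0 := by
    intro y j hj hj0 hy hy2 p hp
    rcases mem_Vt.1 hp with ⟨ht, rfl⟩ | hp
    · rw [Lk_two hS, hj]
      exact hy2 ht
    · rw [Lk_odd hS y hp, hU, hj]
      have h3 := hy p hp
      rcases Bool.eq_false_or_eq_true t with ht | ht
      · rw [if_pos ht]
        linear_combination h3 + (y p * s * uu p + y p * uu p) * two0
      · obtain ⟨hr', hs'⟩ := hok ht
        have hj' := hj0 ht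
        rw [hr', hj'] at h3
        rw [ht, if_neg (by decide), hs']
        linear_combination h3 + (y p * uu p) * two0
  have key := sol (fun q => if q = 2 then i else α q) i (if_pos rfl) hi (by
    intro q hq
    refine Eq.trans ?_ (hE q hq)
    rw [if_neg (hS q hq).2]
    congr 1
    refine sum_congr rfl fun p hp => ?_
    rw [if_neg (hS p hp).2]) (by
    intro ht
    refine Eq.trans ?_ (h2 ht)
    refine sum_congr rfl fun p hp => ?_
    rw [if_neg (hS p hp).2])
  have gen := sol (fun q => if q = 2 then r else 1) r (if_pos rfl) (fun h => (hok h).1) (by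
    intro q hq
    rw [if_neg (hS q hq).2, sum_eq_zero (fun p hp => by
      rw [if_neg (hS p hp).2, z2_add_self, zero_mul]), mul_one, z2_add_self, zero_mul, add_zero])
    (by
      intro ht
      have h1 : ∀ p ∈ S, ((if p = 2 then r else 1) * (r * nr p 2 + s * uu p) + r * nr p 2) =
          s * uu p := by
        intro p hp
        rw [if_neg (hS p hp).2]
        linear_combination (r * nr p 2) * two0
      rw [sum_congr rfl h1, ← mul_sum, hU]
      rcases z2 s with h | h <;> rw [h] <;> decide)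
  by_cases hne : S = ∅
  · subst hne
    have hr1 : r = 1 := by
      refine (z2 r).resolve_left fun h => ?_
      obtain ⟨p, hp, -⟩ := hp0 h
      exact notMem_empty p hp
    exact ⟨fun p hp => absurd hp (notMem_empty p), hr hr1⟩
  · obtain ⟨p₁, hp₁⟩ := Finset.nonempty_iff_ne_empty.2 hne
    rcases left_two hG key gen (mem_Vt.2 (Or.inr hp₁)) (by
      rw [if_neg (hS p₁ hp₁).2]
      exact one_ne_zero) with h | h
    · refine ⟨fun p hp => ?_, ?_⟩
      · have := h p (mem_Vt.2 (Or.inr hp))
        rwa [if_neg (hS p hp).2] at this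
      · rcases Bool.eq_false_or_eq_true t with ht | ht
        · have := h 2 (mem_Vt.2 (Or.inl ⟨ht, rfl⟩))
          rwa [if_pos rfl] at this
        · exact hi ht
    · exfalso
      rcases z2 r with hr' | hr'
      · obtain ⟨p₀, hp₀, h0⟩ := hp0 hr'
        have := h p₀ (mem_Vt.2 (Or.inr hp₀))
        simp only [if_neg (hS p₀ hp₀).2] at this
        rw [h0] at this
        exact zero_ne_one this
      · have hi0 := hr hr'
        have ht : t = true := by
          rcases Bool.eq_false_or_eq_true t with ht | ht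
          · exact ht
          · rw [(hok ht).1] at hr'
            exact absurd hr' zero_ne_one
        have := h 2 (mem_Vt.2 (Or.inl ⟨ht, rfl⟩))
        simp only [if_true] at this
        rw [hi0, hr'] at this
        exact zero_ne_one this

end Pool.Agent.V7H16.PP
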