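import Mathlib
import Pool.Agent.V7H16.XF.Loc2

/-! Local conditions at 2. -/

set_option autoImplicit false

namespace Pool.Agent.V7H16.PP

open Pool.Agent.V7H16.XF

variable {a b c s u v w z d : ℤ}

lemma sq8 {t : ℤ} (h : ¬(2 : ℤ) ∣ t) : t ^ 2 % 8 = 1 := by
  have h1 : t % 8 = 1 ∨ t % 8 = 3 ∨ t % 8 = 5 ∨ t % 8 = 7 := by omega
  rw [pow_two, Int.mul_emod]
  rcases h1 with h1 | h1 | h1 | h1 <;> rw [h1] <;> norm_num

lemma odd_pow {t : ℤ} (h : ¬(2 : ℤ) ∣ t) : t ^ 2 % 8 = 1 := sq8 h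

lemma even_of_sq {t : ℤ} (h : (2 : ℤ) ∣ t ^ 2) : (2 : ℤ) ∣ t := Int.prime_two.dvd_of_dvd_pow h

lemma two_dvd_mul_sq {a t : ℤ} (ha : ¬(2 : ℤ) ∣ a) (h : (2 : ℤ) ∣ a * t ^ 2) : (2 : ℤ) ∣ t := by
  rcases Int.prime_two.dvd_or_dvd h with h1 | h1
  · exact absurd h1 ha
  · exact even_of_sq h1

lemma odd_mul_sq {a t : ℤ} (h : ¬(2 : ℤ) ∣ t) : (a * t ^ 2) % 8 = a % 8 := by
  rw [Int.mul_emod, sq8 h, mul_one, Int.emod_emod]

/-- product of three odd numbers which is a square -/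
lemma abc8 (ha : ¬(2 : ℤ) ∣ a) (hb : ¬(2 : ℤ) ∣ b) (hc : ¬(2 : ℤ) ∣ c) (hs : a * b * c = s ^ 2) :
    ((a % 8) * (b % 8) * (c % 8)) % 8 = 1 := by
  have h2 : ¬(2 : ℤ) ∣ s := by
    intro h
    have h1 : (2 : ℤ) ∣ a * b * c := by rw [hs]; exact dvd_pow h two_ne_zero
    rcases Int.prime_two.dvd_or_dvd h1 with h3 | h3
    · rcases Int.prime_two.dvd_or_dvd h3 with h4 | h4
      · exact ha h4
      · exact hb h4
    · exact hc h3
  have h3 := sq8 h2
  rw [← hs] at h3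
  rw [← h3]
  exact Int.ModEq.mul (Int.ModEq.mul (Int.mod_modEq a 8) (Int.mod_modEq b 8)) (Int.mod_modEq c 8)

/-- `d` even, all coordinates odd -/
lemma two_even {n : ℤ} (hd : d = 2 * n)
    (na : ¬(2 : ℤ) ∣ a) (nb : ¬(2 : ℤ) ∣ b) (nc : ¬(2 : ℤ) ∣ c) (hn : ¬(2 : ℤ) ∣ n)
    (hs : a * b * c = s ^ 2)
    (e12 : a * u ^ 2 + (-9 * d) * z ^ 2 = b * v ^ 2)
    (e13 : a * u ^ 2 + (16 * d) * z ^ 2 = c * w ^ 2)
    (pr : ¬((2 : ℤ) ∣ z ∧ (2 : ℤ) ∣ u ∧ (2 : ℤ) ∣ v ∧ (2 : ℤ) ∣ w)) :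
    b % 8 = 1 ∧ (a % 8 = 1 ∨ a % 8 = (1 + 2 * n) % 8) := by
  subst hd
  have hu : ¬(2 : ℤ) ∣ u := by
    intro hu
    have hv : (2 : ℤ) ∣ v := by
      apply two_dvd_mul_sq nb
      rw [← e12]
      exact dvd_add ((dvd_pow hu two_ne_zero).mul_left _) ⟨-9 * n * z ^ 2, by ring⟩
    have hw : (2 : ℤ) ∣ w := by
      apply two_dvd_mul_sq nc
      rw [← e13]
      exact dvd_add ((dvd_pow hu two_ne_zero).mul_left _) ⟨16 * n * z ^ 2, by ring⟩
    apply pr
    refine ⟨?_, hu, hv, hw⟩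
    obtain ⟨u', rfl⟩ := hu
    obtain ⟨v', rfl⟩ := hv
    by_contra hz
    have h1 : 9 * n * z ^ 2 = 2 * (a * u' ^ 2 - b * v' ^ 2) := by linarith [e12]
    have h2 : (2 : ℤ) ∣ n * z ^ 2 := by
      have : (2 : ℤ) ∣ 9 * (n * z ^ 2) := ⟨a * u' ^ 2 - b * v' ^ 2, by linarith⟩
      rcases Int.prime_two.dvd_or_dvd this with h3 | h3
      · norm_num at h3
      · exact h3
    exact hz (two_dvd_mul_sq hn h2)
  have hv : ¬(2 : ℤ) ∣ v := by
    intro hv
    apply hu
    apply two_dvd_mul_sq na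
    have : a * u ^ 2 = b * v ^ 2 + 2 * (9 * n * z ^ 2) := by linarith
    rw [this]
    exact dvd_add ((dvd_pow hv two_ne_zero).mul_left _) ⟨9 * n * z ^ 2, by ring⟩
  have hw : ¬(2 : ℤ) ∣ w := by
    intro hw
    apply hu
    apply two_dvd_mul_sq na
    have : a * u ^ 2 = c * w ^ 2 + 2 * (-16 * n * z ^ 2) := by linarith
    rw [this]
    exact dvd_add ((dvd_pow hw two_ne_zero).mul_left _) ⟨-16 * n * z ^ 2, by ring⟩
  have ka := odd_mul_sq (a := a) hu
  have kb := odd_mul_sq (a := b) hv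
  have kc := odd_mul_sq (a := c) hw
  have kabc := abc8 na nb nc hs
  have hca : c % 8 = a % 8 := by
    have : (a * u ^ 2 - c * w ^ 2) = 8 * (-4 * n * z ^ 2) := by linarith
    omega
  have hodd : a % 8 = 1 ∨ a % 8 = 3 ∨ a % 8 = 5 ∨ a % 8 = 7 := by omega
  have hoddb : b % 8 = 1 ∨ b % 8 = 3 ∨ b % 8 = 5 ∨ b % 8 = 7 := by omega
  have hb1 : b % 8 = 1 := by
    rw [hca] at kabc
    rcases hodd with h | h | h | h <;> rcases hoddb with h' | h' | h' | h' <;>
      rw [h, h'] at kabc <;> first | exact h' | (exfalso; revert kabc; norm_num)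
  refine ⟨hb1, ?_⟩
  by_cases hz : (2 : ℤ) ∣ z
  · left
    obtain ⟨z', rfl⟩ := hz
    have : (a * u ^ 2 - b * v ^ 2) = 8 * (9 * n * z' ^ 2) := by linarith
    omega
  · right
    have kz := odd_mul_sq (a := n) hz
    have : a * u ^ 2 = b * v ^ 2 + 18 * (n * z ^ 2) := by linarith
    omega

/-- `d` congruent to 1 modulo 4: the class of `b` -/
lemma two_b (nb : ¬(2 : ℤ) ∣ b) (nd : d % 4 = 1) (sa : Squarefree a) (sc : Squarefree c)
    (hac : (2 : ℤ) ∣ a ↔ (2 : ℤ) ∣ c)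
    (hs : a * b * c = s ^ 2)
    (e12 : a * u ^ 2 + (-9 * d) * z ^ 2 = b * v ^ 2)
    (e13 : a * u ^ 2 + (16 * d) * z ^ 2 = c * w ^ 2)
    (pr : ¬((2 : ℤ) ∣ z ∧ (2 : ℤ) ∣ u ∧ (2 : ℤ) ∣ v ∧ (2 : ℤ) ∣ w)) :
    b % 8 = 1 ∨ b % 8 = (-d) % 8 := by
  have nd2 : ¬(2 : ℤ) ∣ d := by omega
  by_cases h2 : (2 : ℤ) ∣ a
  · have h2c := hac.1 h2
    obtain ⟨a', rfl⟩ := h2
    obtain ⟨c', rfl⟩ := h2c
    have na' : ¬(2 : ℤ) ∣ a' := by
      intro h
      obtain ⟨k, rfl⟩ := h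
      exact Int.prime_two.not_isUnit (sa 2 ⟨k, by ring⟩)
    have nc' : ¬(2 : ℤ) ∣ c' := by
      intro h
      obtain ⟨k, rfl⟩ := h
      exact Int.prime_two.not_isUnit (sc 2 ⟨k, by ring⟩)
    have hs2 : (2 : ℤ) ∣ s := by
      apply even_of_sq
      rw [← hs]
      exact ⟨a' * b * (2 * c'), by ring⟩
    obtain ⟨s', rfl⟩ := hs2
    have hs' : a' * b * c' = s' ^ 2 := by linarith [hs]
    have k := abc8 na' nb nc' hs'
    have e12' : 2 * a' * u ^ 2 + (-9 * d) * z ^ 2 = b * v ^ 2 := e12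
    have e13' : 2 * a' * u ^ 2 + (16 * d) * z ^ 2 = 2 * c' * w ^ 2 := e13
    have hloc := loc2a na' nb nc' nd2 e12' e13' pr
    have cast : ∀ x y : ℤ, (x : ZMod 8) = y → x % 8 = y % 8 := by
      intro x y h
      exact (ZMod.intCast_eq_intCast_iff x y 8).1 h
    rcases hloc with ⟨h1, h3⟩ | ⟨h1, h3⟩
    · left
      have h4 := cast c' a' h1
      rw [h4] at k
      have hodd : a' % 8 = 1 ∨ a' % 8 = 3 ∨ a' % 8 = 5 ∨ a' % 8 = 7 := by omega
      have hoddb : b % 8 = 1 ∨ b % 8 = 3 ∨ b % 8 = 5 ∨ b % 8 = 7 := by omega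
      rcases hodd with h | h | h | h <;> rcases hoddb with h' | h' | h' | h' <;>
        rw [h, h'] at k <;> first | exact h' | (exfalso; revert k; norm_num)
    · right
      exact cast b (-d) (by push_cast; exact h3)
  · have nc : ¬(2 : ℤ) ∣ c := fun h => h2 (hac.2 h)
    have k := abc8 h2 nb nc hs
    have hodd : a % 8 = 1 ∨ a % 8 = 3 ∨ a % 8 = 5 ∨ a % 8 = 7 := by omega
    have hoddb : b % 8 = 1 ∨ b % 8 = 3 ∨ b % 8 = 5 ∨ b % 8 = 7 := by omega
    have hoddc : c % 8 = 1 ∨ c % 8 = 3 ∨ c % 8 = 5 ∨ c % 8 = 7 := by omega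
    by_cases hu : (2 : ℤ) ∣ u
    · have hw : (2 : ℤ) ∣ w := by
        apply two_dvd_mul_sq nc
        rw [← e13]
        exact dvd_add ((dvd_pow hu two_ne_zero).mul_left _) ⟨8 * d * z ^ 2, by ring⟩
      by_cases hz : (2 : ℤ) ∣ z
      · exfalso
        apply pr
        refine ⟨hz, hu, ?_, hw⟩
        apply two_dvd_mul_sq nb
        rw [← e12]
        exact dvd_add ((dvd_pow hu two_ne_zero).mul_left _) ((dvd_pow hz two_ne_zero).mul_left _)
      · have hv : ¬(2 : ℤ) ∣ v := by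
          intro hv
          apply hz
          apply two_dvd_mul_sq nd2
          have h1 : (2 : ℤ) ∣ 9 * (d * z ^ 2) := by
            have : 9 * (d * z ^ 2) = a * u ^ 2 - b * v ^ 2 := by linarith
            rw [this]
            exact dvd_sub ((dvd_pow hu two_ne_zero).mul_left _) ((dvd_pow hv two_ne_zero).mul_left _)
          rcases Int.prime_two.dvd_or_dvd h1 with h3 | h3
          · norm_num at h3
          · exact h3
        have kb := odd_mul_sq (a := b) hv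
        have kz := odd_mul_sq (a := d) hz
        obtain ⟨u', rfl⟩ := hu
        obtain ⟨w', rfl⟩ := hw
        have g13 : a * u' ^ 2 + 4 * (d * z ^ 2) = c * w' ^ 2 := by linarith
        by_cases hu' : (2 : ℤ) ∣ u'
        · right
          obtain ⟨u'', rfl⟩ := hu'
          have : b * v ^ 2 = 8 * (2 * a * u'' ^ 2) - 9 * (d * z ^ 2) := by linarith
          omega
        · have hw' : ¬(2 : ℤ) ∣ w' := by
            intro hw'
            apply hu'
            apply two_dvd_mul_sq h2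
            have : a * u' ^ 2 = c * w' ^ 2 - 2 * (2 * (d * z ^ 2)) := by linarith
            rw [this]
            exact dvd_sub ((dvd_pow hw' two_ne_zero).mul_left _) ⟨_, rfl⟩
          have ka := odd_mul_sq (a := a) hu'
          have kc := odd_mul_sq (a := c) hw'
          have h1 : c % 8 = (a + 4) % 8 := by omega
          have h3 : b * v ^ 2 = 4 * (a * u' ^ 2) - 9 * (d * z ^ 2) := by linarith
          have h4 : b % 8 = (4 - d) % 8 := by omega
          exfalso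
          have hd8 : d % 8 = 1 ∨ d % 8 = 5 := by omega
          have h5 : c % 8 = a % 8 + 4 ∨ c % 8 = a % 8 - 4 := by omega
          rcases hd8 with hd8 | hd8
          · have h6 : b % 8 = 3 := by omega
            rw [h6] at k
            rcases hodd with h | h | h | h <;> rcases hoddc with h' | h' | h' | h' <;>
              rw [h, h'] at k h5 <;> omega
          · have h6 : b % 8 = 7 := by omega
            rw [h6] at k
            rcases hodd with h | h | h | h <;> rcases hoddc with h' | h' | h' | h' <;>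
              rw [h, h'] at k h5 <;> omega
    · have hw : ¬(2 : ℤ) ∣ w := by
        intro hw
        apply hu
        apply two_dvd_mul_sq h2
        have : a * u ^ 2 = c * w ^ 2 - 2 * (8 * d * z ^ 2) := by linarith
        rw [this]
        exact dvd_sub ((dvd_pow hw two_ne_zero).mul_left _) ⟨_, rfl⟩
      have ka := odd_mul_sq (a := a) hu
      have kc := odd_mul_sq (a := c) hw
      left
      have h1 : a * u ^ 2 - c * w ^ 2 = 8 * (-2 * d * z ^ 2) := by linarith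
      have h3 : c % 8 = a % 8 := by omega
      rw [h3] at k
      rcases hodd with h | h | h | h <;> rcases hoddb with h' | h' | h' | h' <;>
        rw [h, h'] at k <;> first | exact h' | (exfalso; revert k; norm_num)

/-- `d` congruent to 1 modulo 4: the class of `a` if `b = 1` -/
lemma two_a (nd : d % 4 = 1) (sa : Squarefree a)
    (e12 : a * u ^ 2 + (-9 * d) * z ^ 2 = 1 * v ^ 2)
    (e13 : a * u ^ 2 + (16 * d) * z ^ 2 = a * w ^ 2)
    (pr : ¬((2 : ℤ) ∣ z ∧ (2 : ℤ) ∣ u ∧ (2 : ℤ) ∣ v ∧ (2 : ℤ) ∣ w)) :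
    (¬(2 : ℤ) ∣ a ∧ a % 4 = 1) ∨ ∃ a', a = 2 * a' ∧ ¬(2 : ℤ) ∣ a' ∧ (2 * a') % 8 = (1 + d) % 8 := by
  have nd2 : ¬(2 : ℤ) ∣ d := by omega
  by_cases h2 : (2 : ℤ) ∣ a
  · right
    obtain ⟨a', rfl⟩ := h2
    have na' : ¬(2 : ℤ) ∣ a' := by
      intro h
      obtain ⟨k, rfl⟩ := h
      exact Int.prime_two.not_isUnit (sa 2 ⟨k, by ring⟩)
    have cast : ∀ x y : ℤ, (x : ZMod 8) = y → x % 8 = y % 8 := by
      intro x y h
      exact (ZMod.intCast_eq_intCast_iff x y 8).1 h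
    refine ⟨a', rfl, na', ?_⟩
    rcases loc2a na' (by norm_num) na' nd2 e12 e13 pr with ⟨h1, h3⟩ | ⟨h1, h3⟩
    · have := cast 1 (2 * a' - d) (by push_cast; push_cast at h3; exact h3)
      omega
    · have := cast a' (a' + 2 * d) (by push_cast; exact h1)
      omega
  · left
    refine ⟨h2, ?_⟩
    by_cases hu : (2 : ℤ) ∣ u
    · exfalso
      have hw : (2 : ℤ) ∣ w := by
        apply two_dvd_mul_sq h2
        rw [← e13]
        exact dvd_add ((dvd_pow hu two_ne_zero).mul_left _) ⟨8 * d * z ^ 2, by ring⟩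
      by_cases hz : (2 : ℤ) ∣ z
      · apply pr
        refine ⟨hz, hu, ?_, hw⟩
        apply even_of_sq
        have : v ^ 2 = a * u ^ 2 + -9 * d * z ^ 2 := by linarith
        rw [this]
        exact dvd_add ((dvd_pow hu two_ne_zero).mul_left _) ((dvd_pow hz two_ne_zero).mul_left _)
      · have hv : ¬(2 : ℤ) ∣ v := by
          intro hv
          apply hz
          apply two_dvd_mul_sq nd2
          have h1 : (2 : ℤ) ∣ 9 * (d * z ^ 2) := by
            have : 9 * (d * z ^ 2) = a * u ^ 2 - v ^ 2 := by linarith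
            rw [this]
            exact dvd_sub ((dvd_pow hu two_ne_zero).mul_left _) (dvd_pow hv two_ne_zero)
          rcases Int.prime_two.dvd_or_dvd h1 with h3 | h3
          · norm_num at h3
          · exact h3
        have kb := sq8 hv
        have kz := odd_mul_sq (a := d) hz
        obtain ⟨u', rfl⟩ := hu
        have : v ^ 2 = 4 * (a * u' ^ 2) - 9 * (d * z ^ 2) := by linarith
        omega
    · have ka := odd_mul_sq (a := a) hu
      by_cases hv : (2 : ℤ) ∣ v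
      · obtain ⟨v', rfl⟩ := hv
        have hz : ¬(2 : ℤ) ∣ z := by
          intro hz
          apply hu
          apply two_dvd_mul_sq h2
          have : a * u ^ 2 = 2 * (2 * v' ^ 2) + 9 * d * z ^ 2 := by linarith
          rw [this]
          exact dvd_add ⟨_, rfl⟩ ((dvd_pow hz two_ne_zero).mul_left _)
        have kz := odd_mul_sq (a := d) hz
        have : a * u ^ 2 = 4 * v' ^ 2 + 9 * (d * z ^ 2) := by linarith
        omega
      · have kv := sq8 hv
        by_cases hz : (2 : ℤ) ∣ z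
        · obtain ⟨z', rfl⟩ := hz
          have : a * u ^ 2 = v ^ 2 + 4 * (9 * d * z' ^ 2) := by linarith
          omega
        · have kz := odd_mul_sq (a := d) hz
          have : a * u ^ 2 = v ^ 2 + 9 * (d * z ^ 2) := by linarith
          omega

/-- `d` congruent to 3 modulo 4: `a` is odd if `b = 1` -/
lemma two_c (nd : d % 4 = 3) (sa : Squarefree a)
    (e12 : a * u ^ 2 + (-9 * d) * z ^ 2 = 1 * v ^ 2)
    (e13 : a * u ^ 2 + (16 * d) * z ^ 2 = a * w ^ 2)
    (pr : ¬((2 : ℤ) ∣ z ∧ (2 : ℤ) ∣ u ∧ (2 : ℤ) ∣ v ∧ (2 : ℤ) ∣ w)) : ¬(2 : ℤ) ∣ a := by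
  have nd2 : ¬(2 : ℤ) ∣ d := by omega
  intro h2
  obtain ⟨a', rfl⟩ := h2
  have na' : ¬(2 : ℤ) ∣ a' := by
    intro h
    obtain ⟨k, rfl⟩ := h
    exact Int.prime_two.not_isUnit (sa 2 ⟨k, by ring⟩)
  have cast : ∀ x y : ℤ, (x : ZMod 8) = y → x % 8 = y % 8 := by
    intro x y h
    exact (ZMod.intCast_eq_intCast_iff x y 8).1 h
  rcases loc2a na' (by norm_num) na' nd2 e12 e13 pr with ⟨h1, h3⟩ | ⟨h1, h3⟩
  · have := cast 1 (2 * a' - d) (by push_cast; push_cast at h3; exact h3)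
    omega
  · have := cast a' (a' + 2 * d) (by push_cast; exact h1)
    omega

end Pool.Agent.V7H16.PP
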