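import Mathlib
import Pool.Agent.V7H16.XF.Main
import Pool.Agent.V7H16.PP.Loc
import Pool.Agent.V7H16.PP.Two
import Pool.Agent.V7H16.PP.Form
import Pool.Agent.V7H16.PP.LA

/-! The square classes, for all discriminants without ideal classes of order four. -/

set_option autoImplicit false

namespace Pool.Agent.V7H16.PP

open Finset
open Pool.Agent.V7H16.XF
open Pool.Agent.Y703.CQ (nr)
open Pool.Agent.N973.ND (uu)
open Pool.Agent.N916.GB (Po Gd z2 z2_add_self)

open scoped Classical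

/-- the hypotheses -/
structure Dat (t : Bool) (r s : ZMod 2) (n d : ℕ) : Prop where
  sf : Squarefree n
  n2 : n % 2 = 1
  hd : (r = 1 ∧ d = 2 * n) ∨ (r = 0 ∧ d = n)
  h4 : (s = 0 ∧ n % 4 = 3) ∨ (s = 1 ∧ n % 4 = 1)
  hok : t = false → r = 0 ∧ s = 0
  hok' : t = true → r = 0 → s = 1
  h3 : d % 3 ≠ 1
  h5 : d % 5 ≠ 1 ∧ d % 5 ≠ 4
  hG : Gd t r s n.primeFactors

section

variable {t : Bool} {r s : ZMod 2} {n d : ℕ}

lemma Dat.po (D : Dat t r s n d) : ∀ p ∈ n.primeFactors, Po p := by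
  intro p hp
  refine ⟨Nat.prime_of_mem_primeFactors hp, ?_⟩
  rintro rfl
  have h1 := Nat.dvd_of_mem_primeFactors hp
  have h2 := D.n2
  omega

lemma Dat.n0 (D : Dat t r s n d) : n ≠ 0 := D.sf.ne_zero

lemma Dat.d0 (D : Dat t r s n d) : d ≠ 0 := by
  have h2 := D.n0
  rcases D.hd with ⟨-, h⟩ | ⟨-, h⟩ <;> omega

lemma Dat.sfd (D : Dat t r s n d) : Squarefree d := by
  rcases D.hd with ⟨-, h⟩ | ⟨-, h⟩
  · rw [h, Nat.squarefree_mul_iff]
    have h2 := D.n2
    refine ⟨?_, Nat.prime_two.squarefree, D.sf⟩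
    exact Nat.coprime_two_left.2 (Nat.odd_iff.2 h2)
  · rw [h]; exact D.sf

lemma Dat.uu_sum (D : Dat t r s n d) : ∑ p ∈ n.primeFactors, uu p = 1 + s := by
  have h1 := Pool.Agent.N916.GB.sum_uu n.primeFactors D.po
  rw [Nat.prod_primeFactors_of_squarefree D.sf] at h1
  rcases D.h4 with ⟨hs, h4⟩ | ⟨hs, h4⟩
  · rw [hs, add_zero]
    refine (z2 _).resolve_left fun h => ?_
    rw [if_pos h] at h1
    omega
  · rw [hs, z2_add_self]
    refine (z2 _).resolve_right fun h => ?_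
    rw [h, if_neg one_ne_zero] at h1
    omega

lemma Dat.s8n (D : Dat t r s n d) : ∑ p ∈ n.primeFactors, nr p 2 = s8 n := by
  rw [s8_form n.primeFactors D.po (Int.squarefree_natCast.2 D.sf) (fun l hl h => Or.inr
    (Nat.mem_primeFactors.2 ⟨hl, by exact_mod_cast h, D.n0⟩)) (by have := D.n2; omega)]
  refine sum_congr rfl fun p hp => ?_
  rw [if_pos (by exact_mod_cast Nat.dvd_of_mem_primeFactors hp)]

lemma Dat.dvd (D : Dat t r s n d) {q : ℕ} (hq : q ∈ n.primeFactors) : q ∣ d := by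
  have h := Nat.dvd_of_mem_primeFactors hq
  rcases D.hd with ⟨-, h1⟩ | ⟨-, h1⟩
  · rw [h1]; exact h.mul_left _
  · rw [h1]; exact h

lemma q35 {q : ℕ} (hp : q.Prime) (h3 : q ≠ 3) (h5 : q ≠ 5) :
    ¬(q : ℤ) ∣ 3 ∧ ¬(q : ℤ) ∣ 9 ∧ ¬(q : ℤ) ∣ 25 := by
  refine ⟨?_, ?_, ?_⟩
  · intro h
    have h1 : q ∣ 3 := by exact_mod_cast h
    exact h3 ((Nat.prime_dvd_prime_iff_eq hp Nat.prime_three).1 h1)
  · intro h
    have h1 : q ∣ 9 := by exact_mod_cast h
    have h2 : q ∣ 3 := hp.dvd_of_dvd_pow (show q ∣ 3 ^ 2 by simpa using h1)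
    exact h3 ((Nat.prime_dvd_prime_iff_eq hp Nat.prime_three).1 h2)
  · intro h
    have h1 : q ∣ 25 := by exact_mod_cast h
    have h2 : q ∣ 5 := hp.dvd_of_dvd_pow (show q ∣ 5 ^ 2 by simpa using h1)
    exact h5 ((Nat.prime_dvd_prime_iff_eq hp Nat.prime_five).1 h2)

/-- the symbols of a product `y * δ` with `m = q * y`, `d = q * δ` -/
lemma Dat.sum_pair (D : Dat t r s n d) {q : ℕ} (hq : q ∈ n.primeFactors) {m y δ : ℤ}
    (hm : Squarefree m) (hsup : ∀ l : ℕ, l.Prime → (l : ℤ) ∣ m → l = 2 ∨ l ∈ n.primeFactors)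
    (hy : m = q * y) (hδ : (d : ℤ) = q * δ) :
    ns q (y * δ) = (if m < 0 then uu q else 0) + (if (2 : ℤ) ∣ m then nr q 2 else 0) + r * nr q 2 +
      ∑ p ∈ n.primeFactors, ((if (p : ℤ) ∣ m then 1 else 0) + (if (q : ℤ) ∣ m then 1 else 0)) *
        nr q p := by
  have hqp := Nat.prime_of_mem_primeFactors hq
  have hq2 := (D.po q hq).2
  have hpos : (0 : ℤ) < q := by exact_mod_cast hqp.pos
  have hd : Squarefree (d : ℤ) := Int.squarefree_natCast.2 D.sfd
  rw [hδ] at hd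
  rw [hy] at hm hsup
  have ny := sqf_div hqp hm
  have nδ := sqf_div hqp hd
  rw [ns_mul hqp ny nδ]
  have hδ0 : 0 < δ := by
    have h1 : (0 : ℤ) < d := by exact_mod_cast Nat.pos_of_ne_zero D.d0
    rw [hδ] at h1
    exact (mul_pos_iff_of_pos_left hpos).1 h1
  rw [ns_form hqp n.primeFactors D.po hm.of_mul_right (fun l hl h => hsup l hl (h.mul_left _)) ny,
    ns_form hqp n.primeFactors D.po hd.of_mul_right (fun l hl h => by
      have h1 : (l : ℤ) ∣ (d : ℤ) := by rw [hδ]; exact h.mul_left _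
      have h2 : l ∣ d := by exact_mod_cast h1
      rcases D.hd with ⟨-, h3⟩ | ⟨-, h3⟩
      · rw [h3] at h2
        rcases hl.dvd_mul.1 h2 with h4 | h4
        · exact Or.inl ((Nat.prime_dvd_prime_iff_eq hl Nat.prime_two).1 h4)
        · exact Or.inr (Nat.mem_primeFactors.2 ⟨hl, h4, D.n0⟩)
      · rw [h3] at h2
        exact Or.inr (Nat.mem_primeFactors.2 ⟨hl, h2, D.n0⟩)) nδ]
  rw [if_neg (not_lt.2 hδ0.le), zero_add]
  have e1 : (m < 0) ↔ y < 0 := by
    rw [hy]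
    constructor
    · intro h
      by_contra h2
      push Not at h2
      exact absurd h (not_lt.2 (mul_nonneg hpos.le h2))
    · intro h
      exact mul_neg_of_pos_of_neg hpos h
  have two_q : ¬(2 : ℤ) ∣ q := by
    intro h
    have h5 : 2 ∣ q := by exact_mod_cast h
    exact hq2 ((Nat.prime_dvd_prime_iff_eq Nat.prime_two hqp).1 h5).symm
  have two_iff : ∀ x : ℤ, (2 : ℤ) ∣ (q : ℤ) * x ↔ (2 : ℤ) ∣ x := by
    intro x
    constructor
    · intro h
      rcases Int.prime_two.dvd_or_dvd h with h | h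
      · exact absurd h two_q
      · exact h
    · exact fun h => h.mul_left _
  have e2 : ((2 : ℤ) ∣ m) ↔ (2 : ℤ) ∣ y := by rw [hy]; exact two_iff y
  have e3 : (if (2 : ℤ) ∣ δ then nr q 2 else 0) = r * nr q 2 := by
    rcases D.hd with ⟨h3, h4⟩ | ⟨h3, h4⟩
    · have h6 : (2 : ℤ) ∣ δ := by
        rw [← two_iff, ← hδ, h4]
        exact ⟨n, by push_cast; ring⟩
      rw [h3, one_mul, if_pos h6]
    · have h6 : ¬(2 : ℤ) ∣ δ := by
        rw [← two_iff, ← hδ, h4]
        have := D.n2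
        omega
      rw [h3, zero_mul, if_neg h6]
  have e4 : ∀ p ∈ n.primeFactors, (if (p : ℤ) ∣ y then nr q p else 0) +
      (if (p : ℤ) ∣ δ then nr q p else 0) =
      ((if (p : ℤ) ∣ m then 1 else 0) + (if (q : ℤ) ∣ m then 1 else 0)) * nr q p := by
    intro p hp
    have hpp := Nat.prime_of_mem_primeFactors hp
    have hqm : (q : ℤ) ∣ m := ⟨y, hy⟩
    rw [if_pos hqm]
    by_cases hpq : p = q
    · subst hpq
      rw [if_neg ny, if_neg nδ, if_pos hqm, zero_add, z2_add_self, zero_mul]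
    · have iff : ∀ x : ℤ, (p : ℤ) ∣ (q : ℤ) * x ↔ (p : ℤ) ∣ x := by
        intro x
        constructor
        · intro h
          rcases (Nat.prime_iff_prime_int.1 hpp).dvd_or_dvd h with h | h
          · exfalso
            have h5 : p ∣ q := by exact_mod_cast h
            exact hpq ((Nat.prime_dvd_prime_iff_eq hpp hqp).1 h5)
          · exact h
        · exact fun h => h.mul_left _
      have h1 : (p : ℤ) ∣ δ := by
        rw [← iff, ← hδ]
        exact_mod_cast D.dvd hp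
      rw [if_pos h1]
      by_cases h2 : (p : ℤ) ∣ y
      · rw [if_pos h2, if_pos (by rw [hy]; exact h2.mul_left _)]
        ring
      · rw [if_neg h2, if_neg (by rw [hy, iff]; exact h2)]
        ring
  rw [← sum_congr rfl e4, sum_add_distrib, e3]
  simp only [e1, e2]
  ring

lemma Dat.supp_d (D : Dat t r s n d) {l : ℕ} (hl : l.Prime) (h : l ∣ 30 * d) (h3 : l = 3 → 3 ∣ d)
    (h5 : l = 5 → 5 ∣ d) : l = 2 ∨ l ∈ n.primeFactors := by
  rcases (show l ∣ 30 ∧ l ≠ 3 ∧ l ≠ 5 ∨ l ∣ d from by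
    by_cases e3 : l = 3
    · exact Or.inr (by rw [e3]; exact h3 e3)
    · by_cases e5 : l = 5
      · exact Or.inr (by rw [e5]; exact h5 e5)
      · rcases hl.dvd_mul.1 h with h1 | h1
        · exact Or.inl ⟨h1, e3, e5⟩
        · exact Or.inr h1) with ⟨h1, h3, h5⟩ | h1
  · left
    have h30 : l ∣ 2 * 3 * 5 := by simpa using h1
    rcases hl.dvd_mul.1 h30 with h4 | h4
    · rcases hl.dvd_mul.1 h4 with h6 | h6
      · exact (Nat.prime_dvd_prime_iff_eq hl Nat.prime_two).1 h6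
      · exact absurd ((Nat.prime_dvd_prime_iff_eq hl Nat.prime_three).1 h6) h3
    · exact absurd ((Nat.prime_dvd_prime_iff_eq hl Nat.prime_five).1 h4) h5
  · rcases D.hd with ⟨-, h2⟩ | ⟨-, h2⟩
    · rw [h2] at h1
      rcases hl.dvd_mul.1 h1 with h4 | h4
      · exact Or.inl ((Nat.prime_dvd_prime_iff_eq hl Nat.prime_two).1 h4)
      · exact Or.inr (Nat.mem_primeFactors.2 ⟨hl, h4, D.n0⟩)
    · rw [h2] at h1
      exact Or.inr (Nat.mem_primeFactors.2 ⟨hl, h1, D.n0⟩)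

end

end Pool.Agent.V7H16.PP
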