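import Mathlib
import Pool.Agent.V7H16.PP.Sq
import Pool.Agent.V7H16.PP.Loc35

/-! The square classes are trivial. -/

set_option autoImplicit false

namespace Pool.Agent.V7H16.PP

open Finset
open Pool.Agent.V7H16.XF
open Pool.Agent.Y703.CQ (nr)
open Pool.Agent.N973.ND (uu)
open Pool.Agent.N916.GB (Po Gd z2 z2_add_self)

open scoped Classical

section

variable {t : Bool} {r s : ZMod 2} {n d : ℕ} {a b c σ u v w z : ℤ}

lemma quad2 {d : ℤ} (Q : Quad (-9 * d) (16 * d) a b c σ u v w z) (d2 : ¬(2 : ℤ) ∣ d) :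
    ¬(2 : ℤ) ∣ b ∧ ((2 : ℤ) ∣ a ↔ (2 : ℤ) ∣ c) := by
  have p2 := par Q.ha Q.hb Q.hc Q.hs Nat.prime_two
  obtain ⟨q2, -, q2'⟩ := quad_supp Q Nat.prime_two
  push_cast at p2 q2 q2'
  have r2 : ¬(2 : ℤ) ∣ 9 * d := by clear * - d2; omega
  have r2' : ¬(2 : ℤ) ∣ 25 * d := by clear * - d2; omega
  exact ex_b p2.1 p2.2 (fun h => r2 (q2 h)) (fun h => r2' (q2' h))

lemma no3 (D : Dat t r s n d) (Q : Quad (-9 * d) (16 * d) a b c σ u v w z) (h3 : ¬3 ∣ d) :
    ¬(3 : ℤ) ∣ a ∧ ¬(3 : ℤ) ∣ b ∧ ¬(3 : ℤ) ∣ c := by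
  have d3 : ¬(3 : ℤ) ∣ d := by omega
  have p3 := par Q.ha Q.hb Q.hc Q.hs Nat.prime_three
  obtain ⟨-, q3, q3'⟩ := quad_supp Q Nat.prime_three
  push_cast at p3 q3 q3'
  have r3 : ¬(3 : ℤ) ∣ 16 * d := by clear * - d3; omega
  have r3' : ¬(3 : ℤ) ∣ 25 * d := by clear * - d3; omega
  obtain ⟨c3, ab3⟩ := ex_c p3.1 p3.2 (fun h => r3 (q3 h)) (fun h => r3' (q3' h))
  have pr3 := Q.pr 3 Nat.prime_three
  push_cast at pr3
  have L3 := loc3 Q.ha Q.hb Q.hs Q.e12 Q.e13 pr3 d3 c3 ab3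
  have a3 : ¬(3 : ℤ) ∣ a := by
    intro h
    have h1 := (L3.1 h).2
    have h2 : (((d : ℤ) : ℤ) : ZMod 3) = ((1 : ℤ) : ZMod 3) := by
      rw [h1]; push_cast; rfl
    rw [ZMod.intCast_eq_intCast_iff] at h2
    have h3 : (d : ℤ) % 3 = 1 % 3 := h2
    have := D.h3
    omega
  exact ⟨a3, fun h => a3 (ab3.2 h), c3⟩

lemma no5 (D : Dat t r s n d) (Q : Quad (-9 * d) (16 * d) a b c σ u v w z) (h5 : ¬5 ∣ d) :
    ¬(5 : ℤ) ∣ a ∧ ¬(5 : ℤ) ∣ b ∧ ¬(5 : ℤ) ∣ c := by
  have d5 : ¬(5 : ℤ) ∣ d := by omega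
  have p5 := par Q.ha Q.hb Q.hc Q.hs Nat.prime_five
  obtain ⟨q5, q5', -⟩ := quad_supp Q Nat.prime_five
  push_cast at p5 q5 q5'
  have r5 : ¬(5 : ℤ) ∣ 16 * d := by clear * - d5; omega
  have r5' : ¬(5 : ℤ) ∣ 9 * d := by clear * - d5; omega
  obtain ⟨a5, bc5⟩ := ex_a p5.1 p5.2 (fun h => r5' (q5 h)) (fun h => r5 (q5' h))
  have pr5 := Q.pr 5 Nat.prime_five
  push_cast at pr5
  have L5 := loc5 Q.hb Q.hc Q.hs Q.e12 Q.e13 pr5 d5 a5 bc5
  have b5 : ¬(5 : ℤ) ∣ b := by
    intro h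
    have h1 := (L5.1 h).2
    have h2 : (((d : ℤ) ^ 2 : ℤ) : ZMod 5) = ((1 : ℤ) : ZMod 5) := by
      push_cast; push_cast at h1; exact h1
    rw [ZMod.intCast_eq_intCast_iff] at h2
    have h3 : ((d : ℤ) ^ 2) % 5 = 1 % 5 := h2
    rw [pow_two, Int.mul_emod] at h3
    have h6 := D.h5
    rcases (show d % 5 = 2 ∨ d % 5 = 3 by omega) with h5 | h5
    · rw [show (d : ℤ) % 5 = 2 by omega] at h3
      norm_num at h3
    · rw [show (d : ℤ) % 5 = 3 by omega] at h3
      norm_num at h3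
  exact ⟨a5, b5, fun h => b5 (bc5.2 h)⟩

/-- the local conditions for the second class -/
lemma loc_b (D : Dat t r s n d) (Q : Quad (-9 * d) (16 * d) a b c σ u v w z) {q : ℕ}
    (hq : q ∈ n.primeFactors) :
    (¬(q : ℤ) ∣ b → IsSquare (b : ZMod q)) ∧
      (∀ y δ : ℤ, b = q * y → (d : ℤ) = q * δ → IsSquare ((-(y * δ) : ℤ) : ZMod q)) := by
  have hdz : Squarefree (d : ℤ) := Int.squarefree_natCast.2 D.sfd
  have e21 : b * v ^ 2 + 9 * (d : ℤ) * z ^ 2 = a * u ^ 2 := by linear_combination -Q.e12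
  have e23 : b * v ^ 2 + 25 * (d : ℤ) * z ^ 2 = c * w ^ 2 := by linear_combination Q.e13 - Q.e12
  have hs' : b * a * c = σ ^ 2 := by rw [← Q.hs]; ring
  have hqp := Nat.prime_of_mem_primeFactors hq
  have hqd : (q : ℤ) ∣ (d : ℤ) := by exact_mod_cast D.dvd hq
  by_cases h3 : q = 3
  · subst h3
    refine loc_s hqp (m := 5) hs' Q.hb Q.ha Q.hc hdz hqd
      (by push_cast; linear_combination e21) (by linear_combination e23)
      (fun h => Q.pr 3 hqp ⟨h.1, h.2.2.1, h.2.1, h.2.2.2⟩) (by norm_num)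
  · by_cases h5 : q = 5
    · subst h5
      refine loc_s hqp (m := 3) (by rw [← hs']; ring) Q.hb Q.hc Q.ha hdz hqd
        (by push_cast; linear_combination e23) (by linear_combination e21)
        (fun h => Q.pr 5 hqp ⟨h.1, h.2.2.2, h.2.1, h.2.2.1⟩) (by norm_num)
    · obtain ⟨q3, q9, q25⟩ := q35 hqp h3 h5
      exact loc_g hqp (k2 := 9) (k3 := 25) hs' Q.hb Q.ha Q.hc hdz hqd e21 e23
        (fun h => Q.pr q hqp ⟨h.1, h.2.2.1, h.2.1, h.2.2.2⟩)
        ⟨3, by push_cast; norm_num⟩ ⟨5, by push_cast; norm_num⟩ q9 q25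

lemma eq_one_of {m : ℤ} (h0 : 0 < m) (h : ∀ l : ℕ, l.Prime → ¬(l : ℤ) ∣ m) : m = 1 := by
  have : m.natAbs = 1 := by
    rw [Nat.eq_one_iff_not_exists_prime_dvd]
    intro l hl hlm
    exact h l hl (Int.natCast_dvd.2 hlm)
  omega

/-- the second class is trivial -/
lemma b_one (D : Dat t r s n d) (Q : Quad (-9 * d) (16 * d) a b c σ u v w z)
    (hsup : ∀ l : ℕ, l.Prime → ((l : ℤ) ∣ a ∨ (l : ℤ) ∣ b ∨ (l : ℤ) ∣ c) →
      l = 2 ∨ l ∈ n.primeFactors) {p : ℕ} (hp : p.Prime) (hpd : p ∣ d) (hpr : r = 1 → p = 2)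
    (pa : ¬(p : ℤ) ∣ a) (pb : ¬(p : ℤ) ∣ b) (pc : ¬(p : ℤ) ∣ c) : b = 1 := by
  have hdz : Squarefree (d : ℤ) := Int.squarefree_natCast.2 D.sfd
  have hsb : ∀ l : ℕ, l.Prime → (l : ℤ) ∣ b → l = 2 ∨ l ∈ n.primeFactors :=
    fun l hl h => hsup l hl (Or.inr (Or.inl h))
  have hb2 : ¬(2 : ℤ) ∣ b := by
    rcases D.hd with ⟨h1, h2⟩ | ⟨h1, h2⟩
    · have := hpr h1
      subst this
      exact_mod_cast pb
    · exact (quad2 Q (by have := D.n2; rw [h2]; omega)).1
  have e2 : (if (2 : ℤ) ∣ b then nr 2 2 else 0) = 0 := if_neg hb2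
  have key := ker_b D.po D.hG D.hok D.hok' D.uu_sum (fun p => if (p : ℤ) ∣ b then 1 else 0)
    (if b < 0 then 1 else 0) (by
      intro q hq
      have hqp := Nat.prime_of_mem_primeFactors hq
      obtain ⟨g1, g2⟩ := loc_b D Q hq
      by_cases hqb : (q : ℤ) ∣ b
      · obtain ⟨y, hy⟩ := hqb
        obtain ⟨δ, hδ⟩ : (q : ℤ) ∣ (d : ℤ) := by exact_mod_cast D.dvd hq
        have h1 := g2 y δ hy hδ
        rw [← ns_zero] at h1
        have hbs := Q.hb
        rw [hy] at hbs
        have hds := hdz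
        rw [hδ] at hds
        have ny := sqf_div hqp hbs
        have nδ := sqf_div hqp hds
        have nyδ : ¬(q : ℤ) ∣ y * δ := fun h =>
          ((Nat.prime_iff_prime_int.1 hqp).dvd_or_dvd h).elim ny nδ
        have hn1 : ¬(q : ℤ) ∣ -1 := by
          rw [dvd_neg]
          intro h
          have : q ∣ 1 := by exact_mod_cast h
          exact hqp.one_lt.ne' (Nat.dvd_one.1 this)
        rw [show -(y * δ) = (-1) * (y * δ) by ring, ns_mul hqp hn1 nyδ, ns_neg_one hqp,
          D.sum_pair hq Q.hb hsb hy hδ] at h1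
        refine Eq.trans ?_ h1
        simp only [if_neg hb2, if_pos (show (q : ℤ) ∣ b from ⟨y, hy⟩)]
        split_ifs <;> ring
      · have h1 := g1 hqb
        rw [← ns_zero, ns_form hqp n.primeFactors D.po Q.hb hsb hqb] at h1
        refine Eq.trans ?_ h1
        simp only [if_neg hb2, if_neg hqb, add_zero]
        have h3 : ∀ p ∈ n.primeFactors, (if (p : ℤ) ∣ b then (1 : ZMod 2) else 0) * nr q p =
            if (p : ℤ) ∣ b then nr q p else 0 := by
          intro p _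
          split_ifs <;> ring
        rw [sum_congr rfl h3]
        split_ifs <;> ring) (by
      intro hr
      have hp2 := hpr hr
      subst hp2
      rcases D.hd with ⟨h1, h2⟩ | ⟨h1, h2⟩
      · have pr2 := Q.pr 2 Nat.prime_two
        push_cast at pr2 pa pb pc
        obtain ⟨h3, -⟩ := two_even (d := (d : ℤ)) (n := (n : ℤ)) (by rw [h2]; push_cast; ring)
          pa pb pc (by have := D.n2; omega) Q.hs Q.e12 Q.e13 pr2
        constructor
        · have h4 := s4_form n.primeFactors D.po Q.hb hsb hb2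
          have h5 : s4 b = 0 := by
            unfold s4
            rw [if_neg (by omega)]
          rw [h5] at h4
          refine Eq.trans ?_ h4.symm
          rw [add_comm]
          congr 1
          refine sum_congr rfl fun p _ => ?_
          split_ifs <;> ring
        · have h4 := s8_form n.primeFactors D.po Q.hb hsb hb2
          have h5 : s8 b = 0 := by
            unfold s8
            rw [if_neg (by omega)]
          rw [h5] at h4
          refine Eq.trans ?_ h4.symm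
          refine sum_congr rfl fun p _ => ?_
          split_ifs <;> ring
      · rw [hr] at h1
        exact absurd h1 one_ne_zero) (by
      intro ht hr
      have hs1 := D.hok' ht hr
      have hn4 : n % 4 = 1 := by
        rcases D.h4 with ⟨h1, h2⟩ | ⟨h1, h2⟩
        · rw [hs1] at h1
          exact absurd h1 one_ne_zero
        · exact h2
      have hdn : d = n := by
        rcases D.hd with ⟨h1, h2⟩ | ⟨h1, h2⟩
        · rw [hr] at h1
          exact absurd h1 zero_ne_one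
        · exact h2
      have hd2 : ¬(2 : ℤ) ∣ d := by rw [hdn]; omega
      have pr2 := Q.pr 2 Nat.prime_two
      push_cast at pr2
      have h3 := two_b (d := (d : ℤ)) hb2 (by rw [hdn]; omega) Q.ha Q.hc (quad2 Q hd2).2 Q.hs
        Q.e12 Q.e13 pr2
      have h4 := s4_form n.primeFactors D.po Q.hb hsb hb2
      have h5 := s8_form n.primeFactors D.po Q.hb hsb hb2
      have e4 : ∑ p ∈ n.primeFactors, (if (p : ℤ) ∣ b then (1 : ZMod 2) else 0) * uu p +
          (if b < 0 then 1 else 0) = s4 b := by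
        rw [h4, add_comm]
        congr 1
        refine sum_congr rfl fun p _ => ?_
        split_ifs <;> ring
      have e5 : ∑ p ∈ n.primeFactors, (if (p : ℤ) ∣ b then (1 : ZMod 2) else 0) * nr p 2 = s8 b := by
        rw [h5]
        refine sum_congr rfl fun p _ => ?_
        split_ifs <;> ring
      rw [e4, e5, D.s8n]
      rw [hdn] at h3
      have hn8 : n % 8 = 1 ∨ n % 8 = 5 := by omega
      rcases h3 with h3 | h3
      · have k1 : s8 b = 0 := by unfold s8; rw [if_neg (by omega)]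
        have k2 : s4 b = 0 := by unfold s4; rw [if_neg (by omega)]
        rw [k1, k2, zero_mul, add_zero]
      · rcases hn8 with hn8 | hn8
        · have k1 : s8 b = 0 := by unfold s8; rw [if_neg (by omega)]
          have k2 : s8 (n : ℤ) = 0 := by unfold s8; rw [if_neg (by omega)]
          rw [k1, k2, mul_zero, add_zero]
        · have k1 : s8 b = 1 := by unfold s8; rw [if_pos (by omega)]
          have k2 : s8 (n : ℤ) = 1 := by unfold s8; rw [if_pos (by omega)]
          have k3 : s4 b = 1 := by unfold s4; rw [if_pos (by omega)]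
          rw [k1, k2, k3, mul_one]
          exact z2_add_self 1) (by
      intro hr
      have hdn : d = n := by
        rcases D.hd with ⟨h1, h2⟩ | ⟨h1, h2⟩
        · rw [hr] at h1
          exact absurd h1 zero_ne_one
        · exact h2
      exact ⟨p, Nat.mem_primeFactors.2 ⟨hp, hdn ▸ hpd, D.n0⟩, if_neg pb⟩)
  have hbpos : 0 < b := by
    have h1 := key.2
    by_contra h
    have h2 : b < 0 := lt_of_le_of_ne (not_lt.1 h) Q.hb.ne_zero
    rw [if_pos h2] at h1
    exact one_ne_zero h1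
  apply eq_one_of hbpos
  intro l hl hlb
  rcases hsb l hl hlb with h | h
  · subst h
    exact hb2 (by exact_mod_cast hlb)
  · have h1 := key.1 l h
    simp only [if_pos hlb] at h1
    exact one_ne_zero h1

end

end Pool.Agent.V7H16.PP
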