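import Mathlib
import Pool.Agent.V7H16.PP.Sq2

/-! The square classes are trivial. -/

set_option autoImplicit false

namespace Pool.Agent.V7H16.PP

open Finset
open Pool.Agent.V7H16.XF
open Pool.Agent.Y703.CQ (nr)
open Pool.Agent.N973.ND (uu)
open Pool.Agent.N916.GB (Po Gd z2 z2_add_self)

open scoped Classical

section

variable {t : Bool} {r s : ZMod 2} {n d : ℕ} {a b c σ u v w z : ℤ}

/-- the first class is trivial -/
lemma a_one (D : Dat t r s n d) (Q : Quad (-9 * d) (16 * d) a 1 a σ u v w z) (ha0 : 0 < a)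
    (hsup : ∀ l : ℕ, l.Prime → (l : ℤ) ∣ a → l = 2 ∨ l ∈ n.primeFactors)
    {p : ℕ} (hp : p.Prime) (hpd : p ∣ d) (hpr : r = 1 → p = 2)
    (pa : ¬(p : ℤ) ∣ a) : a = 1 := by
  have hdz : Squarefree (d : ℤ) := Int.squarefree_natCast.2 D.sfd
  have hn1 : ¬a < 0 := not_lt.2 ha0.le
  have pr2 := Q.pr 2 Nat.prime_two
  push_cast at pr2
  have hr01 : r = 0 → d = n := by
    intro hr
    rcases D.hd with ⟨h1, h2⟩ | ⟨h1, h2⟩
    · rw [hr] at h1
      exact absurd h1 zero_ne_one
    · exact h2
  have hr1 : r = 1 → ¬(2 : ℤ) ∣ a := by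
    intro hr
    have := hpr hr
    subst this
    exact_mod_cast pa
  have key := ker_a D.po D.hG D.hok D.uu_sum (fun p => if (p : ℤ) ∣ a then 1 else 0)
    (if (2 : ℤ) ∣ a then 1 else 0) (by
      intro q hq
      have hqp := Nat.prime_of_mem_primeFactors hq
      have nq1 : ¬(q : ℤ) ∣ 1 := by
        intro h
        have : q ∣ 1 := by exact_mod_cast h
        exact hqp.one_lt.ne' (Nat.dvd_one.1 this)
      have hqd : (q : ℤ) ∣ (d : ℤ) := by exact_mod_cast D.dvd hq
      by_cases hqa : (q : ℤ) ∣ a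
      · have hqa' := hqa
        obtain ⟨y, hy⟩ := hqa
        obtain ⟨δ, hδ⟩ := hqd
        have h1 : IsSquare ((y * δ : ℤ) : ZMod q) := by
          by_cases h3 : q = 3
          · subst h3
            exact (loc_s2 hqp (X := 1) (Y := a) (Z := a) (x := v) (y := u) (w := w) (z := z)
              (d := (d : ℤ)) (m := 5) Q.ha Q.hc hdz ⟨δ, hδ⟩
              (by push_cast; linear_combination -Q.e12)
              (by linear_combination Q.e13 - Q.e12)
              (fun h => Q.pr 3 hqp ⟨h.1, h.2.2.1, h.2.1, h.2.2.2⟩) (by norm_num) nq1 hqa' hqa').1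
              y δ hy hδ
          · by_cases h5 : q = 5
            · subst h5
              exact (loc_s2 hqp (X := 1) (Y := a) (Z := a) (x := v) (y := w) (w := u) (z := z)
                (d := (d : ℤ)) (m := 3) Q.hc Q.ha hdz ⟨δ, hδ⟩
                (by push_cast; linear_combination Q.e13 - Q.e12)
                (by linear_combination -Q.e12)
                (fun h => Q.pr 5 hqp ⟨h.1, h.2.2.2, h.2.1, h.2.2.1⟩) (by norm_num) nq1 hqa' hqa').2
                y δ hy hδ
            · obtain ⟨q3, q9, q25⟩ := q35 hqp h3 h5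
              exact loc_a hqp Q.ha Q.hc hdz ⟨δ, hδ⟩ Q.e12 Q.e13 (Q.pr q hqp) nq1 hqa' q3 y δ hy hδ
        rw [← ns_zero, D.sum_pair hq Q.ha hsup hy hδ] at h1
        refine Eq.trans ?_ h1
        simp only [if_neg hn1, if_pos hqa']
        split_ifs <;> ring
      · have q16 : ¬(q : ℤ) ∣ 16 := by
          intro h
          have h1 : q ∣ 16 := by exact_mod_cast h
          have h2 : q ∣ 2 := hqp.dvd_of_dvd_pow (show q ∣ 2 ^ 4 by simpa using h1)
          exact (D.po q hq).2 ((Nat.prime_dvd_prime_iff_eq hqp Nat.prime_two).1 h2)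
        have h1 := loc_unit hqp (x1 := a) (x2 := a) (x3 := 1) (s := σ) (k2 := 16) (k3 := -9)
          (by rw [← Q.hs]; ring) hdz hqd Q.e13 Q.e12
          (fun h => Q.pr q hqp ⟨h.1, h.2.1, h.2.2.2, h.2.2.1⟩) q16 hqa hqa nq1
        rw [← ns_zero, ns_form hqp n.primeFactors D.po Q.ha hsup hqa] at h1
        refine Eq.trans ?_ h1
        simp only [if_neg hn1, if_neg hqa, add_zero]
        have h3 : ∀ p ∈ n.primeFactors, (if (p : ℤ) ∣ a then (1 : ZMod 2) else 0) * nr q p =
            if (p : ℤ) ∣ a then nr q p else 0 := by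
          intro p _
          split_ifs <;> ring
        rw [sum_congr rfl h3]
        split_ifs <;> ring) (by
      intro ht
      obtain ⟨h1, h2⟩ := D.hok ht
      have hdn := hr01 h1
      have hn4 : n % 4 = 3 := by
        rcases D.h4 with ⟨h3, h4⟩ | ⟨h3, h4⟩
        · exact h4
        · rw [h2] at h3
          exact absurd h3 zero_ne_one
      rw [if_neg (two_c (d := (d : ℤ)) (by rw [hdn]; omega) Q.ha Q.e12 Q.e13 pr2)]) (by
      intro ht
      rcases z2 r with hr | hr
      · have hs1 := D.hok' ht hr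
        have hdn := hr01 hr
        have hn4 : n % 4 = 1 := by
          rcases D.h4 with ⟨h1, h2⟩ | ⟨h1, h2⟩
          · rw [hs1] at h1
            exact absurd h1 one_ne_zero
          · exact h2
        rcases two_a (d := (d : ℤ)) (by rw [hdn]; omega) Q.ha Q.e12 Q.e13 pr2 with
          ⟨h1, h2⟩ | ⟨a', rfl, h1, h2⟩
        · have h4 := s4_form n.primeFactors D.po Q.ha hsup h1
          have h5 : s4 a = 0 := by unfold s4; rw [if_neg (by omega)]
          rw [h5, if_neg hn1, zero_add] at h4
          refine Eq.trans ?_ h4.symm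
          refine sum_congr rfl fun p _ => ?_
          rw [if_neg h1, hr, hs1]
          split_ifs <;> ring
        · have ha'0 : 0 < a' := by omega
          have h4 := s4_form n.primeFactors D.po Q.ha.of_mul_right
            (fun l hl h => hsup l hl (h.mul_left _)) h1
          rw [if_neg (not_lt.2 ha'0.le), zero_add] at h4
          have h5 : ∑ p ∈ n.primeFactors, ((if (p : ℤ) ∣ 2 * a' then (1 : ZMod 2) else 0) *
              (r * nr p 2 + s * uu p) + (if (2 : ℤ) ∣ 2 * a' then 1 else 0) * nr p 2) =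
              s4 a' + s8 n := by
            rw [← D.s8n, h4, ← sum_add_distrib]
            refine sum_congr rfl fun p hp => ?_
            have hp2 := D.po p hp
            have e : ((p : ℤ) ∣ 2 * a') ↔ (p : ℤ) ∣ a' := by
              constructor
              · intro h
                rcases (Nat.prime_iff_prime_int.1 hp2.1).dvd_or_dvd h with h | h
                · exfalso
                  have h6 : p ∣ 2 := by exact_mod_cast h
                  exact hp2.2 ((Nat.prime_dvd_prime_iff_eq hp2.1 Nat.prime_two).1 h6)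
                · exact h
              · exact fun h => h.mul_left _
            rw [if_pos (show (2 : ℤ) ∣ 2 * a' from ⟨a', rfl⟩), hr, hs1]
            simp only [e]
            split_ifs <;> ring
          rw [h5]
          rw [hdn] at h2
          have hn8 : n % 8 = 1 ∨ n % 8 = 5 := by omega
          rcases hn8 with hn8 | hn8
          · have k1 : s4 a' = 0 := by unfold s4; rw [if_neg (by omega)]
            have k2 : s8 (n : ℤ) = 0 := by unfold s8; rw [if_neg (by omega)]
            rw [k1, k2, add_zero]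
          · have k1 : s4 a' = 1 := by unfold s4; rw [if_pos (by omega)]
            have k2 : s8 (n : ℤ) = 1 := by unfold s8; rw [if_pos (by omega)]
            rw [k1, k2]
            exact z2_add_self 1
      · have h2a := hr1 hr
        have hd2 : d = 2 * n := by
          rcases D.hd with ⟨h1, h2⟩ | ⟨h1, h2⟩
          · exact h2
          · rw [hr] at h1
            exact absurd h1 one_ne_zero
        obtain ⟨-, h3⟩ := two_even (d := (d : ℤ)) (n := (n : ℤ)) (by rw [hd2]; push_cast; ring)
          h2a (by norm_num) h2a (by have := D.n2; omega) Q.hs Q.e12 Q.e13 pr2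
        have h4 := s4_form n.primeFactors D.po Q.ha hsup h2a
        rw [if_neg hn1, zero_add] at h4
        have h5 := s8_form n.primeFactors D.po Q.ha hsup h2a
        have h6 : ∑ p ∈ n.primeFactors, ((if (p : ℤ) ∣ a then (1 : ZMod 2) else 0) *
            (r * nr p 2 + s * uu p) + (if (2 : ℤ) ∣ a then 1 else 0) * nr p 2) =
            s8 a + s * s4 a := by
          rw [h5, h4, mul_sum, ← sum_add_distrib]
          refine sum_congr rfl fun p _ => ?_
          rw [if_neg h2a, hr]
          split_ifs <;> ring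
        rw [h6]
        rcases D.h4 with ⟨hs, h7⟩ | ⟨hs, h7⟩
        · rw [hs, zero_mul, add_zero]
          unfold s8
          rw [if_neg (by omega)]
        · rw [hs, one_mul]
          rcases h3 with h3 | h3
          · have k1 : s8 a = 0 := by unfold s8; rw [if_neg (by omega)]
            have k2 : s4 a = 0 := by unfold s4; rw [if_neg (by omega)]
            rw [k1, k2, add_zero]
          · have k1 : s8 a = 1 := by unfold s8; rw [if_pos (by omega)]
            have k2 : s4 a = 1 := by unfold s4; rw [if_pos (by omega)]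
            rw [k1, k2]
            exact z2_add_self 1) (by
      intro hr
      exact ⟨p, Nat.mem_primeFactors.2 ⟨hp, hr01 hr ▸ hpd, D.n0⟩, if_neg pa⟩)
    (by
      intro hr
      exact if_neg (hr1 hr))
  apply eq_one_of ha0
  intro l hl hla
  rcases hsup l hl hla with h | h
  · subst h
    have h1 := key.2
    rw [if_pos (by exact_mod_cast hla)] at h1
    exact one_ne_zero h1
  · have h1 := key.1 l h
    simp only [if_pos hla] at h1
    exact one_ne_zero h1

theorem squares_g (D : Dat t r s n d) {p : ℕ} (hp : p.Prime) (hpd : p ∣ d) (hpr : r = 1 → p = 2)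
    {x y : ℚ} (hy : y ≠ 0) (h : y ^ 2 = x * (x + (-9 * d : ℤ)) * (x + (16 * d : ℤ)))
    (v1 : Even (padicValRat p x)) (v2 : Even (padicValRat p (x + (-9 * d : ℤ)))) :
    ∃ r1 r2 r3 : ℚ, x = r1 ^ 2 ∧ x + (-9 * d : ℤ) = r2 ^ 2 ∧ x + (16 * d : ℤ) = r3 ^ 2 := by
  have hp0 : x * (x + (-9 * d : ℤ)) * (x + (16 * d : ℤ)) ≠ 0 := by
    rw [← h]
    exact pow_ne_zero 2 hy
  have n1 : x ≠ 0 := fun h0 => hp0 (by rw [h0]; ring)
  have n2 : x + (-9 * d : ℤ) ≠ 0 := fun h0 => hp0 (by rw [h0]; ring)
  have n3 : x + (16 * d : ℤ) ≠ 0 := fun h0 => hp0 (by rw [h0]; ring)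
  obtain ⟨a, b, c, σ, u, v, w, z, Q, ea, eb, ec⟩ := exists_quad _ _ x y hy h
  have hz : (z : ℚ) ≠ 0 := by exact_mod_cast Q.z0
  have hd0 : 0 < d := Nat.pos_of_ne_zero D.d0
  have hdq : (0 : ℚ) < d := by exact_mod_cast hd0
  have hur : (u : ℚ) / z ≠ 0 := fun h0 => n1 (by rw [ea, h0]; ring)
  have hvr : (v : ℚ) / z ≠ 0 := fun h0 => n2 (by rw [eb, h0]; ring)
  have hwr : (w : ℚ) / z ≠ 0 := fun h0 => n3 (by rw [ec, h0]; ring)
  have pa : ¬(p : ℤ) ∣ a := even_val hp Q.ha hur (by rw [← ea]; exact v1)
  have pb : ¬(p : ℤ) ∣ b := even_val hp Q.hb hvr (by rw [← eb]; exact v2)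
  have pc : ¬(p : ℤ) ∣ c := fun h => pb (((par Q.ha Q.hb Q.hc Q.hs hp).2 pa).2 h)
  -- signs
  have hypos : 0 < x * (x + (-9 * d : ℤ)) * (x + (16 * d : ℤ)) := by
    rw [← h]; positivity
  have x3 : 0 < x + (16 * d : ℤ) := by
    by_contra h3
    push Not at h3
    have h1 : x < 0 := by push_cast at h3; linarith
    have h2 : x + (-9 * d : ℤ) < 0 := by push_cast; linarith
    have h4 : 0 < x * (x + (-9 * d : ℤ)) := mul_pos_of_neg_of_neg h1 h2
    exact absurd hypos (not_lt.2 (mul_nonpos_of_nonneg_of_nonpos h4.le h3))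
  have x12 : 0 < x * (x + (-9 * d : ℤ)) := (mul_pos_iff_of_pos_right x3).1 hypos
  have hc0 : 0 < c := by
    rw [ec] at x3
    have := (mul_pos_iff_of_pos_right (by positivity : (0 : ℚ) < (w / z) ^ 2)).1 x3
    exact_mod_cast this
  -- supports
  have supp3 : ∀ l : ℕ, l.Prime → ((l : ℤ) ∣ a ∨ (l : ℤ) ∣ b ∨ (l : ℤ) ∣ c) → l ∣ 30 * d := by
    intro l hl hh
    have hpar := par Q.ha Q.hb Q.hc Q.hs hl
    obtain ⟨q1, q2, q3⟩ := quad_supp Q hl
    have fin : ∀ k : ℕ, (∀ r : ℕ, r.Prime → r ∣ k → r ∣ 30) → (l : ℤ) ∣ (k : ℤ) * d → l ∣ 30 * d := by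
      intro k hk h1
      have h2 : l ∣ k * d := by exact_mod_cast h1
      rcases hl.dvd_mul.1 h2 with h3 | h3
      · exact (hk l hl h3).mul_right _
      · exact h3.mul_left _
    have f9 := fin 9 (fun r hr h1 => by
      have : r ∣ 3 := hr.dvd_of_dvd_pow (show r ∣ 3 ^ 2 by simpa using h1)
      exact this.trans (by norm_num))
    have f16 := fin 16 (fun r hr h1 => by
      have : r ∣ 2 := hr.dvd_of_dvd_pow (show r ∣ 2 ^ 4 by simpa using h1)
      exact this.trans (by norm_num))
    have f25 := fin 25 (fun r hr h1 => by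
      have : r ∣ 5 := hr.dvd_of_dvd_pow (show r ∣ 5 ^ 2 by simpa using h1)
      exact this.trans (by norm_num))
    push_cast at f9 f16 f25
    by_cases ha : (l : ℤ) ∣ a
    · rcases hpar.1 ha with h1 | h1
      · exact f9 (q1 ⟨ha, h1.1⟩)
      · exact f16 (q2 ⟨ha, h1.2⟩)
    · have h1 := hpar.2 ha
      rcases hh with h2 | h2 | h2
      · exact absurd h2 ha
      · exact f25 (q3 ⟨h2, h1.1 h2⟩)
      · exact f25 (q3 ⟨h1.2 h2, h2⟩)
  have hsup : ∀ l : ℕ, l.Prime → ((l : ℤ) ∣ a ∨ (l : ℤ) ∣ b ∨ (l : ℤ) ∣ c) →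
      l = 2 ∨ l ∈ n.primeFactors := by
    intro l hl hh
    apply D.supp_d hl (supp3 l hl hh)
    · rintro rfl
      push_cast at hh
      by_contra h3
      obtain ⟨a3, b3, c3⟩ := no3 D Q h3
      rcases hh with h | h | h
      · exact a3 h
      · exact b3 h
      · exact c3 h
    · rintro rfl
      push_cast at hh
      by_contra h5
      obtain ⟨a5, b5, c5⟩ := no5 D Q h5
      rcases hh with h | h | h
      · exact a5 h
      · exact b5 h
      · exact c5 h
  have hb1 : b = 1 := b_one D Q hsup hp hpd hpr pa pb pc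
  subst hb1
  have ha0 : 0 < a := by
    have h1 : 0 < x + (-9 * d : ℤ) := by rw [eb]; push_cast; positivity
    have h2 : 0 < x := (mul_pos_iff_of_pos_right h1).1 x12
    rw [ea] at h2
    have := (mul_pos_iff_of_pos_right (by positivity : (0 : ℚ) < (u / z) ^ 2)).1 h2
    exact_mod_cast this
  have hac : c = a := by
    have h1 : c.natAbs = a.natAbs := by
      rw [Nat.Squarefree.ext_iff (Int.squarefree_natAbs.2 Q.hc) (Int.squarefree_natAbs.2 Q.ha)]
      intro l hl
      rw [← Int.natCast_dvd, ← Int.natCast_dvd]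
      have hpar := par Q.ha Q.hb Q.hc Q.hs hl
      have nl1 : ¬(l : ℤ) ∣ 1 := by
        intro h
        have : l ∣ 1 := by exact_mod_cast h
        exact hl.one_lt.ne' (Nat.dvd_one.1 this)
      constructor
      · intro h1
        by_contra h2
        exact nl1 ((hpar.2 h2).2 h1)
      · intro h1
        rcases hpar.1 h1 with h2 | h2
        · exact absurd h2.1 nl1
        · exact h2.2
    omega
  subst hac
  have ha1 : c = 1 := a_one D Q ha0 (fun l hl h => hsup l hl (Or.inl h)) hp hpd hpr pa
  refine ⟨u / z, v / z, w / z, ?_, ?_, ?_⟩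
  · rw [ea, ha1]; push_cast; ring
  · rw [eb]; push_cast; ring
  · rw [ec, ha1]; push_cast; ring

end

end Pool.Agent.V7H16.PP
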