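import Mathlib
import Pool.Agent.V7H16.PP.Fin

/-! The Rédei system and decompositions of the discriminant. -/

set_option autoImplicit false

namespace Pool.Agent.V7H16.PP

open Finset
open Pool.Agent.Y703.CQ (nr)
open Pool.Agent.N973.ND (uu)
open Pool.Agent.N916.GB (Po Gd Vt sy z2 z2_add_self nr_recip)

open scoped Classical

/-- the prime `p` splits in the quadratic field of discriminant `E` -/
def Splits (E : ℤ) (p : ℕ) : Prop :=
  if p = 2 then E % 8 = 1 else ¬(p : ℤ) ∣ E ∧ IsSquare (E : ZMod p)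

/-- there is no decomposition of the second kind -/
def NoDec (D : ℤ) : Prop :=
  ∀ D₁ D₂ : ℤ, D₁ * D₂ = D → (D₁ % 4 = 0 ∨ D₁ % 4 = 1) → (D₂ % 4 = 0 ∨ D₂ % 4 = 1) →
    (∀ p : ℕ, p.Prime → (p : ℤ) ∣ D₂ → Splits D₁ p) →
    (∀ p : ℕ, p.Prime → (p : ℤ) ∣ D₁ → Splits D₂ p) → D₁ = 1 ∨ D₂ = 1

/-- the prime discriminants -/
noncomputable def dd (r s : ZMod 2) (p : ℕ) : ℤ :=
  if p = 2 then (if r = 0 then -4 else if s = 0 then 8 else -8)
  else if p % 4 = 3 then -(p : ℤ) else p

lemma ns_prod {q : ℕ} (hq : q.Prime) (T : Finset ℕ) (f : ℕ → ℤ) (h : ∀ p ∈ T, ¬(q : ℤ) ∣ f p) :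
    ¬(q : ℤ) ∣ ∏ p ∈ T, f p ∧ ns q (∏ p ∈ T, f p) = ∑ p ∈ T, ns q (f p) := by
  have hqp : Prime (q : ℤ) := Nat.prime_iff_prime_int.1 hq
  induction T using Finset.induction_on with
  | empty =>
    rw [prod_empty, sum_empty]
    refine ⟨fun h1 => ?_, ns_one q⟩
    have : q ∣ 1 := by exact_mod_cast h1
    exact hq.one_lt.ne' (Nat.dvd_one.1 this)
  | insert a S ha ih =>
    have h1 := ih fun p hp => h p (mem_insert_of_mem hp)
    have h2 := h a (mem_insert_self a S)
    rw [prod_insert ha, sum_insert ha, ns_mul hq h2 h1.1, h1.2]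
    exact ⟨fun h3 => (hqp.dvd_or_dvd h3).elim h2 h1.1, rfl⟩

variable {r s : ZMod 2}

lemma dd_odd {p : ℕ} (hp : p ≠ 2) : dd r s p = if p % 4 = 3 then -(p : ℤ) else p := if_neg hp

lemma dvd_dd_odd {p q : ℕ} (hp : Po p) (hq : q.Prime) (h : (q : ℤ) ∣ dd r s p) : q = p := by
  rw [dd_odd hp.2] at h
  have h1 : (q : ℤ) ∣ p := by
    split_ifs at h
    · rwa [dvd_neg] at h
    · exact h
  have h2 : q ∣ p := by exact_mod_cast h1
  exact (Nat.prime_dvd_prime_iff_eq hq hp.1).1 h2

lemma dvd_dd_two {q : ℕ} (hq : q.Prime) (h : (q : ℤ) ∣ dd r s 2) : q = 2 := by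
  have h1 : (q : ℤ) ∣ 8 := by
    unfold dd at h
    rw [if_pos rfl] at h
    split_ifs at h
    · exact h.trans ⟨-2, by norm_num⟩
    · exact h
    · exact h.trans ⟨-1, by norm_num⟩
  have h2 : q ∣ 8 := by exact_mod_cast h1
  have h3 : q ∣ 2 := hq.dvd_of_dvd_pow (show q ∣ 2 ^ 3 by simpa using h2)
  exact (Nat.prime_dvd_prime_iff_eq hq Nat.prime_two).1 h3

lemma dvd_dd {p q : ℕ} (hp : p = 2 ∨ Po p) (hq : q.Prime) (h : (q : ℤ) ∣ dd r s p) : q = p := by
  rcases hp with rfl | hp
  · exact dvd_dd_two hq h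
  · exact dvd_dd_odd hp hq h

lemma not_dvd_neg_one {q : ℕ} (hq : q.Prime) : ¬(q : ℤ) ∣ -1 := by
  rw [dvd_neg]
  intro h
  have : q ∣ 1 := by exact_mod_cast h
  exact hq.one_lt.ne' (Nat.dvd_one.1 this)

/-- the symbols of the prime discriminants -/
lemma ns_dd {p q : ℕ} (hok : p = 2 → r ≠ 0 ∨ s ≠ 0) (hp : p = 2 ∨ Po p) (hq : Po q) (h : p ≠ q) :
    ns q (dd r s p) = sy r s q p := by
  rcases hp with rfl | hp
  · have q2 : ¬(q : ℤ) ∣ 2 := by
      intro h1
      have : q ∣ 2 := by exact_mod_cast h1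
      exact hq.2 ((Nat.prime_dvd_prime_iff_eq hq.1 Nat.prime_two).1 this)
    have q1 := not_dvd_neg_one hq.1
    have hqp : Prime (q : ℤ) := Nat.prime_iff_prime_int.1 hq.1
    have q4 : ¬(q : ℤ) ∣ 2 * 2 := fun h => (hqp.dvd_or_dvd h).elim q2 q2
    have n2 : ns q 2 = nr q 2 := by
      have := ns_nat q 2
      push_cast at this
      exact this
    have n4 : ns q (2 * 2) = 0 := by rw [ns_mul hq.1 q2 q2, z2_add_self]
    have n8 : ns q (2 * 2 * 2) = nr q 2 := by rw [ns_mul hq.1 q4 q2, n4, n2, zero_add]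
    have q8 : ¬(q : ℤ) ∣ 2 * 2 * 2 := fun h => (hqp.dvd_or_dvd h).elim q4 q2
    have esy : sy r s q 2 = r * nr q 2 + s * uu q := if_pos rfl
    rw [esy]
    unfold dd
    rw [if_pos rfl]
    rcases z2 r with hr | hr <;> rcases z2 s with hs | hs
    · exfalso
      rcases hok rfl with h1 | h1
      · exact h1 hr
      · exact h1 hs
    · rw [if_pos hr, hr, hs, show (-4 : ℤ) = (-1) * (2 * 2) by norm_num, ns_mul hq.1 q1 q4, n4,
        ns_neg_one hq.1]
      ring
    · rw [if_neg (by rw [hr]; exact one_ne_zero), if_pos hs, hr, hs,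
        show (8 : ℤ) = 2 * 2 * 2 by norm_num, n8]
      ring
    · rw [if_neg (by rw [hr]; exact one_ne_zero), if_neg (by rw [hs]; exact one_ne_zero), hr, hs,
        show (-8 : ℤ) = (-1) * (2 * 2 * 2) by norm_num, ns_mul hq.1 q1 q8, n8, ns_neg_one hq.1]
      ring
  · have h1 := nr_recip hp hq h
    have hqp : ¬ (q : ℤ) ∣ (p : ℤ) := by
      rw [Int.natCast_dvd_natCast]
      intro h1
      exact h ((Nat.prime_dvd_prime_iff_eq hq.1 hp.1).1 h1).symm
    rw [dd_odd hp.2, show sy r s q p = nr p q from if_neg hp.2]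
    by_cases h4 : p % 4 = 3
    · rw [if_pos h4]
      have e : (-(p : ℤ)) = (-1) * (p : ℤ) := by ring
      have hu : uu p = 1 := if_pos h4
      rw [hu, one_mul] at h1
      rw [e, ns_mul hq.1 (not_dvd_neg_one hq.1) hqp, ns_neg_one hq.1, ns_nat, ← h1, add_assoc,
        z2_add_self, add_zero]
    · rw [if_neg h4]
      have hu : uu p = 0 := if_neg h4
      rw [hu, zero_mul] at h1
      rw [ns_nat]
      have : nr q p = nr p q := by
        calc nr q p = nr p q + nr q p + nr p q := by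
              rw [add_comm (nr p q) (nr q p), add_assoc, z2_add_self, add_zero]
          _ = nr p q := by rw [h1, zero_add]
      exact this

/-- products of odd prime discriminants -/
lemma prod_dd (T : Finset ℕ) (hT : ∀ p ∈ T, Po p) :
    (∏ p ∈ T, dd r s p) % 4 = 1 ∧ s8 (∏ p ∈ T, dd r s p) = ∑ p ∈ T, nr p 2 ∧
      ((∏ p ∈ T, dd r s p) = ((∏ p ∈ T, p : ℕ) : ℤ) ∨
        (∏ p ∈ T, dd r s p) = -((∏ p ∈ T, p : ℕ) : ℤ)) := by
  induction T using Finset.induction_on with
  | empty =>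
    rw [prod_empty, sum_empty, prod_empty]
    refine ⟨by norm_num, ?_, Or.inl rfl⟩
    unfold s8; decide
  | insert a S ha ih =>
    obtain ⟨h1, h2, h3⟩ := ih fun p hp => hT p (mem_insert_of_mem hp)
    have h4 := hT a (mem_insert_self a S)
    have hodd : a % 2 = 1 := h4.1.eq_two_or_odd.resolve_left h4.2
    rw [prod_insert ha, sum_insert ha, prod_insert ha]
    have e1 : dd r s a % 4 = 1 := by
      rw [dd_odd h4.2]
      split_ifs <;> omega
    have e2 : s8 (dd r s a) = nr a 2 := by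
      rw [nr_two h4, dd_odd h4.2]
      unfold s8
      by_cases h5 : a % 8 = 3 ∨ a % 8 = 5
      · rw [if_pos h5, if_pos]
        split_ifs <;> omega
      · rw [if_neg h5, if_neg]
        split_ifs <;> omega
    have e3 : dd r s a = a ∨ dd r s a = -(a : ℤ) := by
      rw [dd_odd h4.2]
      split_ifs
      · exact Or.inr rfl
      · exact Or.inl rfl
    obtain ⟨P, hP⟩ : ∃ P, P = ∏ p ∈ S, dd r s p := ⟨_, rfl⟩
    rw [← hP] at h1 h2 h3 ⊢
    refine ⟨by rw [Int.mul_emod, e1, h1]; norm_num, ?_, ?_⟩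
    · rw [← h2, ← e2]
      have k : (dd r s a * P) % 8 = ((dd r s a % 8) * (P % 8)) % 8 := Int.mul_emod _ _ 8
      have hm : dd r s a % 8 = 1 ∨ dd r s a % 8 = 5 := by omega
      have hn : P % 8 = 1 ∨ P % 8 = 5 := by omega
      unfold s8
      rcases hm with hm | hm <;> rcases hn with hn | hn <;> rw [k, hm, hn] <;> decide
    · push_cast
      rcases e3 with e3 | e3 <;> rcases h3 with h3 | h3 <;> rw [e3, h3] <;> push_cast
      · exact Or.inl rfl
      · exact Or.inr (by ring)
      · exact Or.inr (by ring)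
      · exact Or.inl (by ring)

/-- the discriminant of `ℚ(√-d)` -/
def disc (d : ℕ) : ℤ := if d % 4 = 3 then -(d : ℤ) else -4 * d

theorem gd_of_noDec {t : Bool} {r s : ZMod 2} {n d : ℕ} (sf : Squarefree n) (n2 : n % 2 = 1)
    (hd : (r = 1 ∧ d = 2 * n) ∨ (r = 0 ∧ d = n)) (h4 : (s = 0 ∧ n % 4 = 3) ∨ (s = 1 ∧ n % 4 = 1))
    (hok : t = false → r = 0 ∧ s = 0) (hok' : t = true → r ≠ 0 ∨ s ≠ 0)
    (hN : NoDec (disc d)) : Gd t r s n.primeFactors := by
  obtain ⟨S, hSdef⟩ : ∃ S, S = n.primeFactors := ⟨_, rfl⟩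
  have hS : ∀ p ∈ S, Po p := by
    intro p hp
    rw [hSdef] at hp
    refine ⟨Nat.prime_of_mem_primeFactors hp, ?_⟩
    rintro rfl
    have h1 := Nat.dvd_of_mem_primeFactors hp
    omega
  have hprod : ∏ p ∈ S, p = n := by rw [hSdef]; exact Nat.prod_primeFactors_of_squarefree sf
  rw [← hSdef]
  have hV : ∀ p ∈ Vt t S, p = 2 ∨ Po p := by
    intro p hp
    rcases mem_Vt.1 hp with ⟨-, h⟩ | h
    · exact Or.inl h
    · exact Or.inr (hS p h)
  have hV2 : ∀ p ∈ Vt t S, p.Prime := by
    intro p hp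
    rcases hV p hp with rfl | h
    · exact Nat.prime_two
    · exact h.1
  have hVt : 2 ∈ Vt t S → t = true := by
    intro h
    rcases mem_Vt.1 h with ⟨h, -⟩ | h
    · exact h
    · exact absurd rfl (hS 2 h).2
  intro x hx
  obtain ⟨T, hT⟩ : ∃ T, T = (Vt t S).filter (fun p => x p = 1) := ⟨_, rfl⟩
  obtain ⟨U, hU⟩ : ∃ U, U = (Vt t S).filter (fun p => x p = 0) := ⟨_, rfl⟩
  have hTU : (∏ p ∈ T, dd r s p) * (∏ p ∈ U, dd r s p) = disc d := by
    have e : U = (Vt t S).filter (fun p => ¬x p = 1) := by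
      rw [hU]
      refine filter_congr fun p _ => ?_
      rcases z2 (x p) with h | h
      · rw [h]; simp
      · rw [h]; simp
    rw [e, hT, prod_filter_mul_prod_filter_not]
    obtain ⟨k1, -, k3⟩ := prod_dd (r := r) (s := s) S hS
    rw [hprod] at k3
    have e2 : ∏ p ∈ S, dd r s p = if s = 0 then -(n : ℤ) else n := by
      rcases h4 with ⟨h4, h5⟩ | ⟨h4, h5⟩
      · rw [if_pos h4]
        rcases k3 with k3 | k3
        · rw [k3] at k1
          omega
        · exact k3
      · rw [if_neg (by rw [h4]; exact one_ne_zero)]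
        rcases k3 with k3 | k3
        · exact k3
        · rw [k3] at k1
          omega
    unfold Vt disc
    rcases Bool.eq_false_or_eq_true t with ht | ht
    · rw [if_pos ht, prod_insert (fun h => (hS 2 h).2 rfl), e2]
      have e3 : dd r s 2 = if r = 0 then -4 else if s = 0 then 8 else -8 := if_pos rfl
      rw [e3]
      rcases hd with ⟨h6, h7⟩ | ⟨h6, h7⟩
      · have e5 : (if d % 4 = 3 then -(d : ℤ) else -4 * d) = -4 * (d : ℤ) := if_neg (by omega)
        rw [if_neg (by rw [h6]; exact one_ne_zero), e5, h7]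
        split_ifs
        · push_cast; ring
        · push_cast; ring
      · have hs : s = 1 := by
          rcases hok' ht with h8 | h8
          · exact absurd h6 h8
          · exact (z2 s).resolve_left h8
        have h5 : n % 4 = 1 := by
          rcases h4 with ⟨h4, h5⟩ | ⟨h4, h5⟩
          · rw [hs] at h4
            exact absurd h4 one_ne_zero
          · exact h5
        have e5 : (if d % 4 = 3 then -(d : ℤ) else -4 * d) = -4 * (d : ℤ) := if_neg (by omega)
        rw [if_pos h6, if_neg (by rw [hs]; exact one_ne_zero), e5, h7]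
    · obtain ⟨h6, h7⟩ := hok ht
      have h5 : n % 4 = 3 := by
        rcases h4 with ⟨h4, h5⟩ | ⟨h4, h5⟩
        · exact h5
        · rw [h7] at h4
          exact absurd h4 zero_ne_one
      have h8 : d = n := by
        rcases hd with ⟨h8, -⟩ | ⟨-, h8⟩
        · rw [h6] at h8
          exact absurd h8 zero_ne_one
        · exact h8
      rw [if_neg (by rw [ht]; decide), e2, if_pos h7, if_pos (by omega), h8]
  -- a general fact
  have side : ∀ T U : Finset ℕ, T ⊆ Vt t S → U ⊆ Vt t S → Disjoint T U →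
      (∀ q ∈ U, ∑ p ∈ T, sy r s q p = 0) →
      ∀ p : ℕ, p.Prime → (p : ℤ) ∣ ∏ p ∈ U, dd r s p → Splits (∏ p ∈ T, dd r s p) p := by
    intro T U hTV hUV hdis hsum p hp hpU
    obtain ⟨u, hu, hpu⟩ := ((Nat.prime_iff_prime_int.1 hp).dvd_finsetProd_iff _).1 hpU
    obtain rfl := dvd_dd (hV u (hUV hu)) hp hpu
    have hpT : p ∉ T := fun h => (Finset.disjoint_left.1 hdis) h hu
    unfold Splits
    by_cases h2 : p = 2
    · subst h2
      rw [if_pos rfl]
      have hTo : ∀ q ∈ T, Po q := by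
        intro q hq
        rcases hV q (hTV hq) with rfl | h
        · exact absurd hq hpT
        · exact h
      obtain ⟨k1, k2, -⟩ := prod_dd (r := r) (s := s) T hTo
      have h3 := hsum 2 hu
      have h4 : ∑ q ∈ T, nr q 2 = 0 := by
        rw [← h3]
        refine sum_congr rfl fun q hq => ?_
        exact (if_neg (hTo q hq).2).symm
      rw [h4] at k2
      unfold s8 at k2
      have h5 : ¬((∏ p ∈ T, dd r s p) % 8 = 3 ∨ (∏ p ∈ T, dd r s p) % 8 = 5) := by
        intro h5
        rw [if_pos h5] at k2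
        exact one_ne_zero k2
      omega
    · rw [if_neg h2]
      have hpo : Po p := ⟨hp, h2⟩
      obtain ⟨g1, g2⟩ := ns_prod hp T (dd r s) (fun q hq h => by
        have := dvd_dd (hV q (hTV hq)) hp h
        exact hpT (this ▸ hq))
      refine ⟨g1, ?_⟩
      rw [← ns_zero, g2, ← hsum p hu]
      refine sum_congr rfl fun q hq => ?_
      refine ns_dd (fun h => hok' (hVt (h ▸ hTV hq))) (hV q (hTV hq)) hpo ?_
      rintro rfl
      exact hpT hq
  have hTV : T ⊆ Vt t S := by rw [hT]; exact filter_subset _ _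
  have hUV : U ⊆ Vt t S := by rw [hU]; exact filter_subset _ _
  have hdis : Disjoint T U := by
    rw [Finset.disjoint_left]
    intro p h1 h2
    rw [hT, mem_filter] at h1
    rw [hU, mem_filter] at h2
    rw [h1.2] at h2
    exact one_ne_zero h2.2
  have sum1 : ∀ q ∈ U, ∑ p ∈ T, sy r s q p = 0 := by
    intro q hq
    rw [hU, mem_filter] at hq
    refine Eq.trans ?_ (hx q hq.1)
    rw [hT, sum_filter]
    refine sum_congr rfl fun p _ => ?_
    rw [hq.2, add_zero]
    rcases z2 (x p) with h | h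
    · rw [h, if_neg zero_ne_one, zero_mul]
    · rw [if_pos h, h, one_mul]
  have sum2 : ∀ q ∈ T, ∑ p ∈ U, sy r s q p = 0 := by
    intro q hq
    rw [hT, mem_filter] at hq
    refine Eq.trans ?_ (hx q hq.1)
    rw [hU, sum_filter]
    refine sum_congr rfl fun p _ => ?_
    rw [hq.2]
    rcases z2 (x p) with h | h
    · rw [if_pos h, h, zero_add, one_mul]
    · rw [h, if_neg one_ne_zero, z2_add_self, zero_mul]
  have four : ∀ T : Finset ℕ, T ⊆ Vt t S →
      (∏ p ∈ T, dd r s p) % 4 = 0 ∨ (∏ p ∈ T, dd r s p) % 4 = 1 := by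
    intro T hT
    by_cases h2 : 2 ∈ T
    · left
      rw [← insert_erase h2, prod_insert (notMem_erase 2 T)]
      have : (4 : ℤ) ∣ dd r s 2 := by
        unfold dd
        rw [if_pos rfl]
        split_ifs <;> norm_num
      exact Int.emod_eq_zero_of_dvd (this.mul_right _)
    · right
      refine (prod_dd T fun p hp => ?_).1
      rcases hV p (hT hp) with rfl | h
      · exact absurd hp h2
      · exact h
  have one : ∀ T : Finset ℕ, T ⊆ Vt t S → ∏ p ∈ T, dd r s p = 1 → T = ∅ := by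
    intro T hT h1
    rw [Finset.eq_empty_iff_forall_notMem]
    intro p hp
    have h2 : (p : ℤ) ∣ dd r s p := by
      rcases hV p (hT hp) with rfl | h
      · unfold dd
        rw [if_pos rfl]
        split_ifs <;> norm_num
      · rw [dd_odd h.2]
        split_ifs
        · exact ⟨-1, by ring⟩
        · exact dvd_rfl
    have h3 : (p : ℤ) ∣ 1 := by
      rw [← h1]
      exact h2.trans (dvd_prod_of_mem _ hp)
    have h4 : p ∣ 1 := by exact_mod_cast h3
    exact (hV2 p (hT hp)).one_lt.ne' (Nat.dvd_one.1 h4)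
  have hfin := hN _ _ hTU (four T hTV) (four U hUV) (side T U hTV hUV hdis sum1)
    (side U T hUV hTV hdis.symm sum2)
  intro p hp q hq
  rcases hfin with h | h
  · have hT0 := one T hTV h
    have key : ∀ p ∈ Vt t S, x p = 0 := by
      intro p hp
      refine (z2 _).resolve_right fun h1 => ?_
      have : p ∈ T := by rw [hT, mem_filter]; exact ⟨hp, h1⟩
      rw [hT0] at this
      exact notMem_empty p this
    rw [key p hp, key q hq]
  · have hU0 := one U hUV h
    have key : ∀ p ∈ Vt t S, x p = 1 := by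
      intro p hp
      refine (z2 _).resolve_left fun h1 => ?_
      have : p ∈ U := by rw [hU, mem_filter]; exact ⟨hp, h1⟩
      rw [hU0] at this
      exact notMem_empty p this
    rw [key p hp, key q hq]

end Pool.Agent.V7H16.PP
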