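import Mathlib
import Pool.Agent.V7H16.PP.Red

/-! The criterion. -/

set_option autoImplicit false

namespace Pool.Agent.V7H16.PP

open Pool.Agent.N916.GB (Gd z2)

/-- the class of `d`: 3 is not inert and 5 is not split in `ℚ(√-d)` -/
def Fam (d : ℕ) : Prop := d % 3 ≠ 1 ∧ d % 5 ≠ 1 ∧ d % 5 ≠ 4

theorem type_of {d : ℕ} (sf : Squarefree d) : ∃ (t : Bool) (r s : ZMod 2) (n : ℕ),
    Squarefree n ∧ n % 2 = 1 ∧ ((r = 1 ∧ d = 2 * n) ∨ (r = 0 ∧ d = n)) ∧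
    ((s = 0 ∧ n % 4 = 3) ∨ (s = 1 ∧ n % 4 = 1)) ∧ (t = false → r = 0 ∧ s = 0) ∧
    (t = true → r ≠ 0 ∨ s ≠ 0) := by
  have h4 : d % 4 ≠ 0 := by
    intro h
    have h1 : 2 * 2 ∣ d := by omega
    exact Nat.prime_two.prime.not_isUnit (sf 2 h1)
  by_cases h3 : d % 4 = 3
  · exact ⟨false, 0, 0, d, sf, by omega, Or.inr ⟨rfl, rfl⟩, Or.inl ⟨rfl, h3⟩, fun _ => ⟨rfl, rfl⟩,
      fun h => absurd h (by decide)⟩
  · by_cases h1 : d % 4 = 1
    · exact ⟨true, 0, 1, d, sf, by omega, Or.inr ⟨rfl, rfl⟩, Or.inr ⟨rfl, h1⟩,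
        fun h => absurd h (by decide), fun _ => Or.inr one_ne_zero⟩
    · obtain ⟨n, hn⟩ : 2 ∣ d := by omega
      have sfn : Squarefree n := sf.squarefree_of_dvd ⟨2, by rw [hn]; ring⟩
      by_cases h5 : n % 4 = 3
      · exact ⟨true, 1, 0, n, sfn, by omega, Or.inl ⟨rfl, hn⟩, Or.inl ⟨rfl, h5⟩,
          fun h => absurd h (by decide), fun _ => Or.inl one_ne_zero⟩
      · exact ⟨true, 1, 1, n, sfn, by omega, Or.inl ⟨rfl, hn⟩, Or.inr ⟨rfl, by omega⟩,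
          fun h => absurd h (by decide), fun _ => Or.inl one_ne_zero⟩

theorem fin_noDec {d : ℕ} (sf : Squarefree d) (hF : Fam d) (hN : NoDec (disc d))
    (K : Type) [Field K] [NumberField K] (h2 : Module.finrank ℚ K = 2)
    (hs : ∃ s : K, s ^ 2 = -(d : K)) : Finite (X015 K).toAffine.Point := by
  obtain ⟨t, r, s, n, sfn, n2, hd, h4, hok, hok'⟩ := type_of sf
  have hG := gd_of_noDec sfn n2 hd h4 hok hok' hN
  exact fin_dat (t := t) (r := r) (s := s) (n := n) ⟨sfn, n2, hd, h4, hok, fun h1 h2 => by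
    rcases hok' h1 with h3 | h3
    · exact absurd h2 h3
    · exact (z2 s).resolve_left h3, hF.1, hF.2, hG⟩ K h2 hs

end Pool.Agent.V7H16.PP
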