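import Mathlib
import Pool.Agent.V7H16.PP.Crit
import Pool.Agent.N218.GB.Fin
import Pool.Agent.N916.GB.Num

/-! The density. -/

set_option autoImplicit false

namespace Pool.Agent.V7H16.PP

open Finset Filter
open Pool.Agent.N916.GB (Gd Ok SS card_eq eta z2 low)

open scoped Classical

/-- `X_0(15)` has only finitely many points over the quadratic field `ℚ(√-d)` -/
def Fi (d : ℕ) : Prop :=
  ∀ (K : Type) [Field K] [NumberField K], Module.finrank ℚ K = 2 → (∃ s : K, s ^ 2 = -(d : K)) →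
    Finite (X015 K).toAffine.Point

/-- the residues modulo 120 -/
noncomputable def KK (P : ℕ → Prop) (c : ℕ) : Finset ℕ := (range 120).filter fun a => a % 4 = c ∧ P a

/-- the classes of the odd `n` with `2 n` in the family -/
def Fam2 (n : ℕ) : Prop := n % 3 ≠ 2 ∧ n % 5 ≠ 3 ∧ n % 5 ≠ 2

lemma fam_mod (n : ℕ) : Fam (n % 120) ↔ Fam n := by
  unfold Fam
  omega

lemma fam2_mod (n : ℕ) : Fam2 (n % 120) ↔ Fam2 n := by
  unfold Fam2
  omega

lemma fam2_iff (n : ℕ) : Fam (2 * n) ↔ Fam2 n := by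
  unfold Fam Fam2
  omega

lemma mem_KK {P : ℕ → Prop} (hP : ∀ n, P (n % 120) ↔ P n) (c n : ℕ) :
    n % 120 ∈ KK P c ↔ n % 4 = c ∧ P n := by
  unfold KK
  rw [mem_filter, mem_range, hP]
  have h1 : n % 120 < 120 := Nat.mod_lt _ (by norm_num)
  have h2 : n % 120 % 4 = n % 4 := by omega
  rw [h2]
  exact ⟨fun h => h.2, fun h => ⟨h1, h⟩⟩

lemma ok_KK {P : ℕ → Prop} {t : Bool} {r s : ZMod 2} (h1 : t = false → s = 0)
    (h2 : t = true → r ≠ 0 ∨ s ≠ 0) : Ok t r s (KK P (if s = 0 then 3 else 1)) := by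
  refine ⟨h1, h2, fun a ha => ?_⟩
  unfold KK at ha
  rw [mem_filter, mem_range] at ha
  exact ⟨ha.1, ha.2.1⟩

/-- the counts -/
noncomputable def WW (P : ℕ → Prop) (c X : ℕ) : ℝ :=
  (((Icc 1 X).filter fun n => Squarefree n ∧ n % 4 = c ∧ P n).card : ℝ)

noncomputable def GG (t : Bool) (r s : ZMod 2) (P : ℕ → Prop) (c X : ℕ) : ℝ :=
  (((Icc 1 X).filter fun n => (Squarefree n ∧ n % 4 = c ∧ P n) ∧ Gd t r s n.primeFactors).card : ℝ)

lemma dq {P : ℕ → Prop} (hP : ∀ n, P (n % 120) ↔ P n) {t : Bool} {r s : ZMod 2}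
    (h1 : t = false → s = 0) (h2 : t = true → r ≠ 0 ∨ s ≠ 0) (ε : ℝ) (hε : 0 < ε) :
    ∃ X₀ : ℕ, ∀ X : ℕ, X₀ ≤ X → eta * WW P (if s = 0 then 3 else 1) X - ε * X ≤
      GG t r s P (if s = 0 then 3 else 1) X := by
  obtain ⟨X₀, h⟩ := Pool.Agent.N218.GB.t_DQ t r s _ (ok_KK (P := P) h1 h2) ε hε
  refine ⟨X₀, fun X hX => ?_⟩
  have h3 := h X hX
  have hK : ∀ a ∈ KK P (if s = 0 then 3 else 1), a % 2 = 1 := by
    intro b hb
    have := ((ok_KK (P := P) h1 h2).2.2 b hb).2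
    split_ifs at this <;> omega
  have e1 := card_eq hK X (Gd t r s)
  have e2 := card_eq hK X (fun _ => True)
  rw [Finset.filter_true] at e2
  simp only [and_true] at e2
  rw [← e1, ← e2] at h3
  have e3 : ((Icc 1 X).filter fun D => Squarefree D ∧ D % 120 ∈ KK P (if s = 0 then 3 else 1) ∧
      Gd t r s D.primeFactors) = (Icc 1 X).filter fun n =>
      (Squarefree n ∧ n % 4 = (if s = 0 then 3 else 1) ∧ P n) ∧ Gd t r s n.primeFactors := by
    refine filter_congr fun n _ => ?_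
    rw [mem_KK hP]
    constructor
    · rintro ⟨a, ⟨b, c⟩, d⟩
      exact ⟨⟨a, b, c⟩, d⟩
    · rintro ⟨⟨a, b, c⟩, d⟩
      exact ⟨a, ⟨b, c⟩, d⟩
  have e4 : ((Icc 1 X).filter fun D => Squarefree D ∧ D % 120 ∈ KK P (if s = 0 then 3 else 1)) =
      (Icc 1 X).filter fun n => Squarefree n ∧ n % 4 = (if s = 0 then 3 else 1) ∧ P n := by
    refine filter_congr fun n _ => ?_
    rw [mem_KK hP]
  rw [e3, e4, abs_le] at h3
  unfold WW GG
  linarith [h3.1]

/-- the members of the family -/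
noncomputable def AA (X : ℕ) : Finset ℕ := (Icc 1 X).filter fun d => Squarefree d ∧ Fam d

lemma sqf_two {n : ℕ} (h : Squarefree n) (h2 : n % 2 = 1) : Squarefree (2 * n) := by
  rw [Nat.squarefree_mul_iff]
  exact ⟨Nat.coprime_two_left.2 (Nat.odd_iff.2 h2), Nat.prime_two.squarefree, h⟩

lemma card_A (X : ℕ) : ((AA X).card : ℝ) ≤ WW Fam 3 X + WW Fam 1 X + WW Fam2 3 (X / 2) +
    WW Fam2 1 (X / 2) := by
  have h : AA X ⊆ ((((Icc 1 X).filter fun n => Squarefree n ∧ n % 4 = 3 ∧ Fam n) ∪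
      ((Icc 1 X).filter fun n => Squarefree n ∧ n % 4 = 1 ∧ Fam n)) ∪
      ((Icc 1 (X / 2)).filter fun n => Squarefree n ∧ n % 4 = 3 ∧ Fam2 n).image (2 * ·)) ∪
      ((Icc 1 (X / 2)).filter fun n => Squarefree n ∧ n % 4 = 1 ∧ Fam2 n).image (2 * ·) := by
    intro d hd
    unfold AA at hd
    rw [mem_filter, mem_Icc] at hd
    obtain ⟨⟨h1, h2⟩, sf, hF⟩ := hd
    have h4 : d % 4 ≠ 0 := by
      intro h
      have h1 : 2 * 2 ∣ d := by omega
      exact Nat.prime_two.prime.not_isUnit (sf 2 h1)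
    by_cases h3 : d % 4 = 3
    · exact mem_union_left _ (mem_union_left _ (mem_union_left _
        (mem_filter.2 ⟨mem_Icc.2 ⟨h1, h2⟩, sf, h3, hF⟩)))
    · by_cases h5 : d % 4 = 1
      · exact mem_union_left _ (mem_union_left _ (mem_union_right _
          (mem_filter.2 ⟨mem_Icc.2 ⟨h1, h2⟩, sf, h5, hF⟩)))
      · obtain ⟨n, hn⟩ : 2 ∣ d := by omega
        have sfn : Squarefree n := sf.squarefree_of_dvd ⟨2, by rw [hn]; ring⟩
        rw [hn, fam2_iff] at hF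
        by_cases h6 : n % 4 = 3
        · exact mem_union_left _ (mem_union_right _ (mem_image.2 ⟨n, mem_filter.2
            ⟨mem_Icc.2 ⟨by omega, by omega⟩, sfn, h6, hF⟩, hn.symm⟩))
        · exact mem_union_right _ (mem_image.2 ⟨n, mem_filter.2
            ⟨mem_Icc.2 ⟨by omega, by omega⟩, sfn, by omega, hF⟩, hn.symm⟩)
  have h1 := card_le_card h
  have h2 : (AA X).card ≤ ((Icc 1 X).filter fun n => Squarefree n ∧ n % 4 = 3 ∧ Fam n).card +
      ((Icc 1 X).filter fun n => Squarefree n ∧ n % 4 = 1 ∧ Fam n).card +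
      ((Icc 1 (X / 2)).filter fun n => Squarefree n ∧ n % 4 = 3 ∧ Fam2 n).card +
      ((Icc 1 (X / 2)).filter fun n => Squarefree n ∧ n % 4 = 1 ∧ Fam2 n).card := by
    refine h1.trans ((card_union_le _ _).trans ?_)
    refine Nat.add_le_add ((card_union_le _ _).trans ?_) card_image_le
    exact Nat.add_le_add (card_union_le _ _) card_image_le
  unfold WW
  exact_mod_cast h2

lemma fi_of {t : Bool} {r s : ZMod 2} {n d : ℕ} (sf : Squarefree n) (n2 : n % 2 = 1)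
    (hd : (r = 1 ∧ d = 2 * n) ∨ (r = 0 ∧ d = n)) (h4 : (s = 0 ∧ n % 4 = 3) ∨ (s = 1 ∧ n % 4 = 1))
    (hok : t = false → r = 0 ∧ s = 0) (hok' : t = true → r = 0 → s = 1) (hF : Fam d)
    (hG : Gd t r s n.primeFactors) : Fi d :=
  fun K _ _ h2 hs => fin_dat (t := t) (r := r) (s := s) (n := n)
    ⟨sf, n2, hd, h4, hok, hok', hF.1, hF.2, hG⟩ K h2 hs

lemma card_B (X : ℕ) : GG false 0 0 Fam 3 X + GG true 0 1 Fam 1 X + GG true 1 0 Fam2 3 (X / 2) +
    GG true 1 1 Fam2 1 (X / 2) ≤ (((AA X).filter Fi).card : ℝ) := by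
  obtain ⟨P1, hP1⟩ : ∃ P, P = (Icc 1 X).filter fun n => (Squarefree n ∧ n % 4 = 3 ∧ Fam n) ∧
    Gd false 0 0 n.primeFactors := ⟨_, rfl⟩
  obtain ⟨P2, hP2⟩ : ∃ P, P = (Icc 1 X).filter fun n => (Squarefree n ∧ n % 4 = 1 ∧ Fam n) ∧
    Gd true 0 1 n.primeFactors := ⟨_, rfl⟩
  obtain ⟨P3, hP3⟩ : ∃ P, P = (Icc 1 (X / 2)).filter fun n => (Squarefree n ∧ n % 4 = 3 ∧ Fam2 n) ∧
    Gd true 1 0 n.primeFactors := ⟨_, rfl⟩
  obtain ⟨P4, hP4⟩ : ∃ P, P = (Icc 1 (X / 2)).filter fun n => (Squarefree n ∧ n % 4 = 1 ∧ Fam2 n) ∧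
    Gd true 1 1 n.primeFactors := ⟨_, rfl⟩
  have m1 : ∀ n ∈ P1, n % 4 = 3 ∧ n ∈ (AA X).filter Fi := by
    intro n hn
    rw [hP1, mem_filter] at hn
    obtain ⟨h1, ⟨h2, h3, h4⟩, h5⟩ := hn
    refine ⟨h3, mem_filter.2 ⟨mem_filter.2 ⟨h1, h2, h4⟩, ?_⟩⟩
    exact fi_of h2 (by omega) (Or.inr ⟨rfl, rfl⟩) (Or.inl ⟨rfl, h3⟩) (fun _ => ⟨rfl, rfl⟩)
      (fun h => absurd h (by decide)) h4 h5
  have m2 : ∀ n ∈ P2, n % 4 = 1 ∧ n ∈ (AA X).filter Fi := by
    intro n hn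
    rw [hP2, mem_filter] at hn
    obtain ⟨h1, ⟨h2, h3, h4⟩, h5⟩ := hn
    refine ⟨h3, mem_filter.2 ⟨mem_filter.2 ⟨h1, h2, h4⟩, ?_⟩⟩
    exact fi_of h2 (by omega) (Or.inr ⟨rfl, rfl⟩) (Or.inr ⟨rfl, h3⟩)
      (fun h => absurd h (by decide)) (fun _ _ => rfl) h4 h5
  have m3 : ∀ n ∈ P3, n % 4 = 3 ∧ 2 * n ∈ (AA X).filter Fi := by
    intro n hn
    rw [hP3, mem_filter, mem_Icc] at hn
    obtain ⟨h1, ⟨h2, h3, h4⟩, h5⟩ := hn
    have hF : Fam (2 * n) := (fam2_iff n).2 h4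
    refine ⟨h3, mem_filter.2 ⟨mem_filter.2 ⟨mem_Icc.2 ⟨by omega, by omega⟩,
      sqf_two h2 (by omega), hF⟩, ?_⟩⟩
    exact fi_of h2 (by omega) (Or.inl ⟨rfl, rfl⟩) (Or.inl ⟨rfl, h3⟩)
      (fun h => absurd h (by decide)) (fun _ h => absurd h one_ne_zero) hF h5
  have m4 : ∀ n ∈ P4, n % 4 = 1 ∧ 2 * n ∈ (AA X).filter Fi := by
    intro n hn
    rw [hP4, mem_filter, mem_Icc] at hn
    obtain ⟨h1, ⟨h2, h3, h4⟩, h5⟩ := hn
    have hF : Fam (2 * n) := (fam2_iff n).2 h4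
    refine ⟨h3, mem_filter.2 ⟨mem_filter.2 ⟨mem_Icc.2 ⟨by omega, by omega⟩,
      sqf_two h2 (by omega), hF⟩, ?_⟩⟩
    exact fi_of h2 (by omega) (Or.inl ⟨rfl, rfl⟩) (Or.inr ⟨rfl, h3⟩)
      (fun h => absurd h (by decide)) (fun _ h => absurd h one_ne_zero) hF h5
  have hinj : Function.Injective (fun n : ℕ => 2 * n) := fun a b h => by
    have : 2 * a = 2 * b := h
    omega
  have hsub : ((P1 ∪ P2) ∪ P3.image (2 * ·)) ∪ P4.image (2 * ·) ⊆ (AA X).filter Fi := by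
    intro d hd
    rw [mem_union, mem_union, mem_union] at hd
    rcases hd with ((h | h) | h) | h
    · exact (m1 d h).2
    · exact (m2 d h).2
    · obtain ⟨n, hn, rfl⟩ := mem_image.1 h
      exact (m3 n hn).2
    · obtain ⟨n, hn, rfl⟩ := mem_image.1 h
      exact (m4 n hn).2
  have d12 : Disjoint P1 P2 := by
    rw [Finset.disjoint_left]
    intro a h1 h2
    have := (m1 a h1).1
    have := (m2 a h2).1
    omega
  have d3 : Disjoint (P1 ∪ P2) (P3.image (2 * ·)) := by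
    rw [Finset.disjoint_left]
    intro a h1 h2
    obtain ⟨n, hn, rfl⟩ := mem_image.1 h2
    have := (m3 n hn).1
    rcases mem_union.1 h1 with h | h
    · have := (m1 _ h).1
      omega
    · have := (m2 _ h).1
      omega
  have d4 : Disjoint ((P1 ∪ P2) ∪ P3.image (2 * ·)) (P4.image (2 * ·)) := by
    rw [Finset.disjoint_left]
    intro a h1 h2
    obtain ⟨n, hn, rfl⟩ := mem_image.1 h2
    have := (m4 n hn).1
    rcases mem_union.1 h1 with h | h
    · rcases mem_union.1 h with h | h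
      · have := (m1 _ h).1
        omega
      · have := (m2 _ h).1
        omega
    · obtain ⟨k, hk, hkn⟩ := mem_image.1 h
      have h3 := (m3 k hk).1
      have h4 : 2 * k = 2 * n := hkn
      omega
  have h := card_le_card hsub
  rw [card_union_of_disjoint d4, card_union_of_disjoint d3, card_union_of_disjoint d12,
    card_image_of_injective _ hinj, card_image_of_injective _ hinj, hP1, hP2, hP3, hP4] at h
  unfold GG
  exact_mod_cast h

/-- **The density theorem.** -/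
theorem main_density (ε : ℝ) (hε : 0 < ε) : ∀ᶠ X : ℕ in atTop,
    (eta - ε) * ((AA X).card : ℝ) ≤ (((AA X).filter Fi).card : ℝ) := by
  have hδ : 0 < ε * (1 / 1920) := by positivity
  obtain ⟨X1, h1⟩ := dq fam_mod (t := false) (r := 0) (s := 0) (fun _ => rfl)
    (fun h => absurd h (by decide)) _ hδ
  obtain ⟨X2, h2⟩ := dq fam_mod (t := true) (r := 0) (s := 1) (fun h => absurd h (by decide))
    (fun _ => Or.inr one_ne_zero) _ hδ
  obtain ⟨X3, h3⟩ := dq fam2_mod (t := true) (r := 1) (s := 0) (fun _ => rfl)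
    (fun _ => Or.inl one_ne_zero) _ hδ
  obtain ⟨X4, h4⟩ := dq fam2_mod (t := true) (r := 1) (s := 1) (fun h => absurd h (by decide))
    (fun _ => Or.inr one_ne_zero) _ hδ
  rw [if_pos rfl] at h1 h3
  rw [if_neg one_ne_zero] at h2 h4
  filter_upwards [eventually_ge_atTop (X1 + X2 + 2 * X3 + 2 * X4 + 400000)] with X hX
  have k1 := h1 X (by omega)
  have k2 := h2 X (by omega)
  have k3 := h3 (X / 2) (by omega)
  have k4 := h4 (X / 2) (by omega)
  have hA := card_A X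
  have hB := card_B X
  have hl : (1 / 480 : ℝ) * X ≤ ((AA X).card : ℝ) := by
    refine (low (a := 23) (by norm_num) (by norm_num) X (by omega)).trans ?_
    refine Nat.cast_le.2 (card_le_card fun n hn => ?_)
    rw [mem_filter] at hn
    unfold AA
    rw [mem_filter]
    refine ⟨hn.1, hn.2.1, ?_⟩
    have := hn.2.2
    unfold Fam
    omega
  have heta : 0 < eta := Pool.Agent.N916.GB.eta_pos
  have hX2 : ((X / 2 : ℕ) : ℝ) ≤ X := by exact_mod_cast Nat.div_le_self X 2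
  have e1 : eta * ((AA X).card : ℝ) ≤ eta * (WW Fam 3 X + WW Fam 1 X + WW Fam2 3 (X / 2) +
    WW Fam2 1 (X / 2)) := mul_le_mul_of_nonneg_left hA heta.le
  have e2 : ε * (1 / 1920) * ((X / 2 : ℕ) : ℝ) ≤ ε * (1 / 1920) * X :=
    mul_le_mul_of_nonneg_left hX2 hδ.le
  have e3 : ε * ((1 / 480 : ℝ) * X) ≤ ε * ((AA X).card : ℝ) := mul_le_mul_of_nonneg_left hl hε.le
  nlinarith

end Pool.Agent.V7H16.PP
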