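import Mathlib
import Pool.Agent.V7H16.PP.Dens
import Pool.Agent.V7H16.PP.Equi2

/-! The proportion among all imaginary quadratic fields. -/

set_option autoImplicit false

namespace Pool.Agent.V7H16.PP

open Finset Filter
open Pool.Agent.N916.GB (eta low eta_bounds)
open scoped Topology

open scoped Classical

lemma kap_pos : 0 < kap := by
  have h := EE_tendsto (a := 8) (by norm_num) (by norm_num)
  have h2 : (1 / 480 : ℝ) ≤ kap := by
    refine ge_of_tendsto h ?_
    filter_upwards [eventually_ge_atTop 400000] with X hX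
    have hX0 : (0 : ℝ) < X := by
      have : 0 < X := by omega
      exact_mod_cast this
    rw [le_div_iff₀ hX0]
    refine (low (a := 23) (by norm_num) (by norm_num) X hX).trans ?_
    unfold EE
    refine Nat.cast_le.2 (card_le_card fun n hn => ?_)
    rw [mem_filter] at hn ⊢
    refine ⟨hn.1, hn.2.1, ?_⟩
    have := hn.2.2
    omega
  linarith [show (0 : ℝ) < 1 / 480 by norm_num]

lemma AA_eq (X : ℕ) : (AA X).card = NP Fam' X := rfl

/-- more than a tenth of all -/
theorem main_all : ∀ᶠ X : ℕ in atTop,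
    (21 / 200 : ℝ) * (((Icc 1 X).filter Squarefree).card : ℝ) ≤ (((AA X).filter Fi).card : ℝ) := by
  have hk := kap_pos
  have e1 := eta_bounds.1
  have h1 := main_density (eta - 0.2887) (by linarith)
  have h2 := all_tendsto
  have h3 := fam_tendsto
  have h4 : ∀ᶠ X : ℕ in atTop, (NP (fun _ => True) X : ℝ) / X < kap * (64 / 5) + kap * (1 / 100) :=
    h2.eventually_lt_const (by linarith [mul_pos hk (show (0 : ℝ) < 1 / 100 by norm_num)])
  have h5 : ∀ᶠ X : ℕ in atTop, kap * (14 / 3) - kap * (1 / 300) < (NP Fam' X : ℝ) / X :=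
    h3.eventually_const_lt (by linarith [mul_pos hk (show (0 : ℝ) < 1 / 300 by norm_num)])
  filter_upwards [h1, h4, h5, eventually_gt_atTop 0] with X k1 k4 k5 hX
  have hX0 : (0 : ℝ) < X := by exact_mod_cast hX
  rw [div_lt_iff₀ hX0] at k4
  rw [lt_div_iff₀ hX0] at k5
  have e2 : (((Icc 1 X).filter Squarefree).card : ℝ) = NP (fun _ => True) X := by
    unfold NP
    simp only [and_true]
  rw [e2]
  rw [AA_eq] at k1
  have hkX : 0 < kap * X := mul_pos hk hX0
  have e3 : (0.2887 : ℝ) * NP Fam' X ≤ (((AA X).filter Fi).card : ℝ) := by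
    refine le_trans (le_of_eq ?_) k1
    ring
  refine le_trans ?_ e3
  nlinarith

end Pool.Agent.V7H16.PP
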